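import Pool.Agent.Run7.h318.CH.D3
import Pool.Agent.Run7.h69.UA9

/-!
# The average over the squares, the trivial character, the rank over an abelian extension
-/

set_option autoImplicit false
set_option linter.all false

namespace Run7.h318.CH

open Finset Pool.Agent.W307.RT WeierstrassCurve Polynomial
open Pool.Agent.W262.SH (QB Pt act E)
open Pool.Agent.TH841.SH (act_some act_inj fix_mem)
open Run7.h69

open scoped Classical

/-- the Mordell-Weil theorem -/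
theorem fin_E (F : Type) [Field F] [NumberField F] {A B : ℤ} (hA : A ≠ 0) (hB : B ≠ 0)
    (hAB : A ≠ B) : Module.Finite ℤ (Pt (E A B) F) := by
  rw [Module.Finite.iff_addGroup_fg]
  have hi : Function.Injective (Int.cast : ℤ → F) := Int.cast_injective
  have h1 : AddGroup.FG (Pool.Agent.H437R2.Man.MW.crv (0 : F) (-(A : F)) (-(B : F))).toAffine.Point :=
    Pool.Agent.H437R2.Man.MW.pt_fg (fun h => hA (by
      have h2 : (A : F) = 0 := neg_eq_zero.1 h.symm
      exact_mod_cast h2)) (fun h => hB (by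
      have h2 : (B : F) = 0 := neg_eq_zero.1 h.symm
      exact_mod_cast h2)) (fun h => hAB (by
      have h2 : (A : F) = B := neg_injective h
      exact_mod_cast h2))
  refine Pool.Agent.H64R2.DDMWK.fg_of_eq ?_ h1
  unfold Pool.Agent.H437R2.Man.MW.crv E
  apply WeierstrassCurve.ext
  · exact (map_zero (algebraMap ℚ F)).symm
  · change (0 : F) + -(A : F) + -(B : F) = algebraMap ℚ F (-((A : ℚ) + B))
    rw [map_neg, map_add, map_intCast, map_intCast]
    ring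
  · exact (map_zero (algebraMap ℚ F)).symm
  · change (0 : F) * -(A : F) + 0 * -(B : F) + -(A : F) * -(B : F) = algebraMap ℚ F ((A : ℚ) * B)
    rw [map_mul, map_intCast, map_intCast]
    ring
  · change (0 : F) * -(A : F) * -(B : F) = algebraMap ℚ F 0
    rw [map_zero]
    ring

lemma FF_ne {t : ℤ × ℤ} (h0 : UF.FF t ≠ 0) : t.1 ≠ 0 ∧ t.2 ≠ 0 ∧ t.1 ≠ t.2 := by
  unfold UF.FF at h0
  refine ⟨left_ne_zero_of_mul (left_ne_zero_of_mul h0),
    right_ne_zero_of_mul (left_ne_zero_of_mul h0), ?_⟩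
  have := right_ne_zero_of_mul h0
  exact sub_ne_zero.1 this

/-- **the multiplicities of a character, over the squares** -/
theorem main_sq (L : Type) [Field L] [NumberField L] [IsGalois ℚ L] (χ : (L ≃ₐ[ℚ] L) →* ℂˣ) {n : ℕ}
    (hn : ∀ σ, χ σ ^ (2 ^ n) = 1) (h1 : χ ≠ 1) (K : ℕ) :
    ∃ C : ℝ, 0 ≤ C ∧ ∀ (x : ℤ × ℤ) (X : ℕ), 1 ≤ X → x.1.natAbs ≤ X ^ K →
    x.2.natAbs ≤ X ^ K → ∑ t ∈ UF.SS x X,
      ((2 : ℝ) ^ Module.finrank ℂ (Eig (rF L (E t.1 t.2)) χ)) ^ 2 ≤ C * (X : ℝ) ^ 2 := by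
  obtain ⟨g, ζ, k, D⟩ := exists_dat χ hn h1
  obtain ⟨j, res, hE⟩ := exists_em L
  obtain ⟨g', hg⟩ := hE.sur g
  obtain ⟨f, z0, u, hf, hd, hrho, hu, hloc⟩ := local_main hE D hg
  obtain ⟨z1, δ, hSD⟩ := exists_SD hf hd hrho
  set z := z0 + z1 + Fintype.card Run7.h69.UF.IX + 6 with hz
  set S : ℤ × ℤ → Set (ℤ × ℤ) := fun t => {e | ∃ P ∈ Ms (rG (Pool.Agent.W262.SH.E t.1 t.2))
    (χ.comp res), Att (dat_res D hg) t.1 t.2 P e} with hS
  have hL : ∀ t, UF.FF t ≠ 0 → LocD f u z (S t) t.1 t.2 := by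
    intro t ht
    obtain ⟨a1, a2, a3⟩ := FF_ne ht
    refine ⟨?_, ?_, ?_⟩
    · rintro e ⟨P, hP, Q, hQ, e1, e2, -⟩
      exact ⟨e1, e2⟩
    · rintro p hp hzp hsp e ⟨P, hP, he⟩
      exact (hloc p (by omega) t.1 t.2 a1 a2 a3 P hP e he).1 hsp
    · rintro p hp hzp hsp e ⟨P, hP, he⟩
      haveI : Fact p.Prime := ⟨hp⟩
      exact (hloc p (by omega) t.1 t.2 a1 a2 a3 P hP e he).2 hsp
  have hu' : ∀ p : ℕ, p.Prime → z < p → Sp f p → ¬ (p : ℤ) ∣ u p := fun p hp hzp hsp =>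
    hu p hp (by omega) hsp
  obtain ⟨C, hC0, hC⟩ := box (hSD z (by omega)) (by omega) (by omega) hu' S hL K
  refine ⟨C, hC0, fun x X hX hx1 hx2 => (sum_le_sum fun t ht => ?_).trans (hC x X hX hx1 hx2)⟩
  unfold UF.SS at ht
  have hFF := (mem_filter.1 ht).2
  obtain ⟨a1, a2, a3⟩ := FF_ne hFF
  have hfin := (rankS (f := f) (u := u) (z := z) (by omega) hu' (t := t) (y := 1)
    (N := (UF.FF t).natAbs) le_rfl hFF Nat.lt_two_pow_self (hL t hFF)).1
  haveI : Fintype (L ≃ₐ[ℚ] L) := Fintype.ofFinite _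
  have h2 : 2 ^ Module.finrank ℂ (Eig (rF L (E t.1 t.2)) χ) ≤ (S t).ncard := by
    refine dim_pairs hE D hg a1 a2 a3 (fin_E L a1 a2 a3) (pe_base hE (E t.1 t.2)) hfin
      fun P hP e he => ?_
    exact ⟨_, ms_of (pe_base hE (E t.1 t.2)) hP, he⟩
  refine pow_le_pow_left₀ (by positivity) ?_ 2
  exact_mod_cast h2

/-- the points over `ℚ` -/
theorem fix_pts (L : Type) [Field L] [NumberField L] [IsGalois ℚ L] (W : WeierstrassCurve ℚ)
    (P : Pt W L) (h : ∀ σ, rF L W σ P = P) : ∃ P0 : Pt W ℚ, act W (Algebra.ofId ℚ L) P0 = P := by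
  rcases P with _ | ⟨u, v, hn⟩
  · exact ⟨0, map_zero _⟩
  · have h1 : ∀ σ : L ≃ₐ[ℚ] L, σ u = u ∧ σ v = v := by
      intro σ
      have h2 : act W σ.toAlgHom (.some u v hn) = .some u v hn := h σ
      rw [act_some, Affine.Point.some.injEq] at h2
      exact h2
    obtain ⟨u0, hu⟩ := fix_mem (K := ℚ) (L := L) u fun τ => (h1 τ).1
    obtain ⟨v0, hv⟩ := fix_mem (K := ℚ) (L := L) v fun τ => (h1 τ).2
    subst hu hv
    have hn0 : (W.baseChange ℚ).toAffine.Nonsingular u0 v0 :=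
      (Affine.baseChange_nonsingular W (Algebra.ofId ℚ L).injective ..).mp hn
    exact ⟨.some u0 v0 hn0, rfl⟩

/-- the group structure (with the classical decidability) -/
@[reducible] noncomputable def cg (K : Type) [Field K] [Algebra ℚ K] (W : WeierstrassCurve ℚ) :
    AddCommGroup (Pt W K) := inferInstance

/-- the rank -/
noncomputable def fr (K : Type) [Field K] [Algebra ℚ K] (W : WeierstrassCurve ℚ) : ℕ :=
  Module.finrank ℤ (Pt W K)

lemma finrank_dec (W : WeierstrassCurve ℚ) (d d' : DecidableEq ℚ) :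
    (letI := d; Module.finrank ℤ W.toAffine.Point) =
      (letI := d'; Module.finrank ℤ W.toAffine.Point) := by
  rw [Subsingleton.elim d d']

lemma fr_eq (W : WeierstrassCurve ℚ) : fr ℚ W = Module.finrank ℤ W.toAffine.Point := by
  have h : W.baseChange ℚ = W := WeierstrassCurve.map_id W
  have h1 : fr ℚ W = (letI : DecidableEq ℚ := Classical.decEq ℚ;
      Module.finrank ℤ W.toAffine.Point) := by
    unfold fr Pt
    rw [h]
  rw [h1]
  exact finrank_dec W _ _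

/-- the trivial character -/
theorem eig_triv (L : Type) [Field L] [NumberField L] [IsGalois ℚ L] (W : WeierstrassCurve ℚ)
    (hfin : letI := cg ℚ W; Module.Finite ℤ (Pt W ℚ)) :
    Module.finrank ℂ (Eig (rF L W) 1) ≤ Module.finrank ℤ W.toAffine.Point := by
  haveI : Fintype (L ≃ₐ[ℚ] L) := Fintype.ofFinite _
  rw [← fr_eq]
  letI := cg ℚ W
  exact eig_one hfin (act W (Algebra.ofId ℚ L)) (fix_pts L W)

/-- all the characters -/
theorem main' (L : Type) [Field L] [NumberField L] [IsGalois ℚ L] (χ : (L ≃ₐ[ℚ] L) →* ℂˣ) {n : ℕ}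
    (hn : ∀ σ, χ σ ^ (2 ^ n) = 1) :
    ∃ C : ℝ, ∀ H : ℕ, ∑ c ∈ Cv 2 H,
      ((2 : ℝ) ^ Module.finrank ℂ (Eig (rF L (Sh c.1 c.2)) χ)) ^ 2 ≤ C * (Cv 2 H).card := by
  by_cases h1 : χ = 1
  · subst h1
    obtain ⟨C, hC⟩ := Run7.h69.UH.height
    refine ⟨C, fun H => (sum_le_sum fun c hc => ?_).trans (hC H)⟩
    have hD : 4 * c.1 ^ 3 + 27 * c.2 ^ 2 ≠ 0 := by
      unfold Cv at hc
      rw [mem_filter] at hc
      exact hc.2.1
    rw [← pow_mul, mul_comm, pow_mul]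
    norm_num only
    exact pow_le_pow_right₀ (by norm_num) (eig_triv L (Sh c.1 c.2) (fin_pts ℚ hD))
  · exact main L χ hn h1

end Run7.h318.CH
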