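import Pool.Agent.Run7.h318.CH.E4
import Pool.Agent.Run7.h318.CH.D4
import Pool.Agent.Run7.h69.TM

/-!
# The multiplicities of a character over the quadratic twists
-/

set_option autoImplicit false
set_option linter.all false

namespace Run7.h318.CH

open Finset WeierstrassCurve Polynomial
open Pool.Agent.W262.SH (QB Pt act E)
open Run7.h69

open scoped Classical

/-- **the multiplicities of a character, over the twists** -/
theorem main_tw (L : Type) [Field L] [NumberField L] [IsGalois ℚ L] (χ : (L ≃ₐ[ℚ] L) →* ℂˣ) {n : ℕ}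
    (hn : ∀ σ, χ σ ^ (2 ^ n) = 1) (h1 : χ ≠ 1) {a b : ℤ} (ha : a ≠ 0) (hb : b ≠ 0) (hab : a ≠ b)
    {m : ℕ} (hm : 1 ≤ m) (K : ℕ) :
    ∃ C : ℝ, ∀ (x : ℤ) (H : ℕ), 1 ≤ H → x.natAbs ≤ H ^ K →
      ∑ t ∈ (Ioc x (x + H)).filter (fun t => t ≠ 0),
        ((2 : ℝ) ^ Module.finrank ℂ (Eig (rF L (E (a * t) (b * t))) χ)) ^ m ≤ C * H := by
  obtain ⟨g, ζ, k, D⟩ := exists_dat χ hn h1
  obtain ⟨j, res, hE⟩ := exists_em L
  obtain ⟨g', hg⟩ := hE.sur g
  obtain ⟨f, z0, u, hf, hd, hrho, hu, hloc⟩ := local_main hE D hg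
  obtain ⟨z1, δ, hSD⟩ := exists_SD hf hd hrho
  obtain ⟨z2, hUt⟩ := exists_UtS hf hd hrho
  have hXs := UT.irr_sep (X : ℤ[X]) irreducible_X
  obtain ⟨z3, hGd⟩ := UT.good (X : ℤ[X]) X_ne_zero hXs
  obtain ⟨gX, z4, hg1, hg2, hM, -⟩ := UT.irr (X : ℤ[X]) irreducible_X
  have hX1 : (X : ℤ[X]).natDegree = 1 := natDegree_X
  have hgX : gX = 1 := le_antisymm (by rw [← hX1]; exact hg2) (hg1 (by rw [hX1]; norm_num))
  subst hgX
  set z : ℕ := z0 + z1 + z2 + z3 + a.natAbs + b.natAbs + (a - b).natAbs +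
    ∑ i : XP.Ik m, (XP.κk (Run7.h69.RK.kp a b) i).natAbs + 6 with hz
  set S : ℤ → Set (ℤ × ℤ) := fun t => {e | ∃ P ∈ Ms (rG (E (a * t) (b * t)))
    (χ.comp res), Att (dat_res D hg) (a * t) (b * t) P e} with hS
  have hne : ∀ t : ℤ, t ≠ 0 → a * t ≠ 0 ∧ b * t ≠ 0 ∧ a * t ≠ b * t := fun t ht =>
    ⟨mul_ne_zero ha ht, mul_ne_zero hb ht, fun h => hab (mul_right_cancel₀ ht h)⟩
  have hL : ∀ t : ℤ, t ≠ 0 → LocD f u z (S t) (a * t) (b * t) := by
    intro t ht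
    obtain ⟨a1, a2, a3⟩ := hne t ht
    refine ⟨?_, ?_, ?_⟩
    · rintro e ⟨P, hP, Q, hQ, e1, e2, -⟩
      exact ⟨e1, e2⟩
    · rintro p hp hzp hsp e ⟨P, hP, he⟩
      exact (hloc p (by omega) _ _ a1 a2 a3 P hP e he).1 hsp
    · rintro p hp hzp hsp e ⟨P, hP, he⟩
      haveI : Fact p.Prime := ⟨hp⟩
      exact (hloc p (by omega) _ _ a1 a2 a3 P hP e he).2 hsp
  have hu' : ∀ p : ℕ, p.Prime → z < p → Sp f p → ¬ (p : ℤ) ∣ u p := fun p hp hzp hsp =>
    hu p hp (by omega) hsp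
  obtain ⟨X0, B, hB⟩ := momentsT (hSD z (by omega)) (hUt z (by omega)) hu' ha hb hab (by omega)
    (by omega) (by omega) (hGd z (by omega)) hM hm (fun i => by
      have h1 := single_le_sum (f := fun i : XP.Ik m => (XP.κk (Run7.h69.RK.kp a b) i).natAbs)
        (fun _ _ => Nat.zero_le _) (mem_univ i)
      omega) S hL K
  have hle : ∀ t : ℤ, t ≠ 0 →
      ((2 : ℝ) ^ Module.finrank ℂ (Eig (rF L (E (a * t) (b * t))) χ)) ^ m ≤
        ((S t).ncard : ℝ) ^ m := by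
    intro t ht
    obtain ⟨a1, a2, a3⟩ := hne t ht
    have hfin := (rankT (f := f) (u := u) (z := z) (by omega) hu' ha hb hab (by omega) (by omega)
      (by omega) (t := t) (y := 1) (N := t.natAbs) le_rfl ht Nat.lt_two_pow_self (hL t ht)).1
    haveI : Fintype (L ≃ₐ[ℚ] L) := Fintype.ofFinite _
    have h2 : 2 ^ Module.finrank ℂ (Eig (rF L (E (a * t) (b * t))) χ) ≤ (S t).ncard := by
      refine dim_pairs hE D hg a1 a2 a3 (fin_E L a1 a2 a3) (pe_base hE (E (a * t) (b * t))) hfin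
        fun P hP e he => ?_
      exact ⟨_, ms_of (pe_base hE (E (a * t) (b * t))) hP, he⟩
    refine pow_le_pow_left₀ (by positivity) ?_ m
    exact_mod_cast h2
  have hII : ∀ (x : ℤ) (H : ℕ), (Ioc x (x + H)).filter (fun t => t ≠ 0) =
      NX.II (X : ℤ[X]) x H := by
    intro x H
    unfold NX.II
    apply filter_congr
    intro t _
    rw [eval_X]
  set N : ℤ := (X0 : ℤ) ^ K + X0 with hN
  set Z : ℝ := ∑ t ∈ (Icc (-N) N).filter (fun t => t ≠ 0), ((S t).ncard : ℝ) ^ m with hZ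
  have hZ0 : 0 ≤ Z := sum_nonneg fun t _ => by positivity
  refine ⟨|B| + Z, fun x H hH hx => ?_⟩
  have hHr : (1 : ℝ) ≤ H := by exact_mod_cast hH
  refine (sum_le_sum fun t ht => hle t (mem_filter.1 ht).2).trans ?_
  rcases Nat.lt_or_ge H X0 with hHX | hHX
  · have h1 : ∑ t ∈ (Ioc x (x + H)).filter (fun t => t ≠ 0), ((S t).ncard : ℝ) ^ m ≤ Z := by
      refine sum_le_sum_of_subset_of_nonneg ?_ fun t _ _ => by positivity
      intro t ht
      rw [mem_filter, mem_Ioc] at ht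
      rw [mem_filter, mem_Icc]
      have h2 : (x.natAbs : ℤ) ≤ (X0 : ℤ) ^ K := by
        exact_mod_cast hx.trans (Nat.pow_le_pow_left hHX.le K)
      have h3 : (H : ℤ) ≤ X0 := by exact_mod_cast hHX.le
      refine ⟨⟨?_, ?_⟩, ht.2⟩ <;> omega
    have h4 : 0 ≤ |B| := abs_nonneg _
    nlinarith
  · rw [hII]
    have h1 := hB x H hx hHX
    have h2 := le_abs_self B
    nlinarith

/-- all the characters -/
theorem main_tw' (L : Type) [Field L] [NumberField L] [IsGalois ℚ L] (χ : (L ≃ₐ[ℚ] L) →* ℂˣ)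
    {n : ℕ} (hn : ∀ σ, χ σ ^ (2 ^ n) = 1) {a b : ℤ} (ha : a ≠ 0) (hb : b ≠ 0) (hab : a ≠ b)
    {m : ℕ} (hm : 1 ≤ m) (K : ℕ) :
    ∃ C : ℝ, ∀ (x : ℤ) (H : ℕ), 1 ≤ H → x.natAbs ≤ H ^ K →
      ∑ t ∈ (Ioc x (x + H)).filter (fun t => t ≠ 0),
        ((2 : ℝ) ^ Module.finrank ℂ (Eig (rF L (E (a * t) (b * t))) χ)) ^ m ≤ C * H := by
  by_cases h1 : χ = 1
  · subst h1
    obtain ⟨C, hC⟩ := Run7.h69.TM.main ha hb hab (X : ℤ[X]) m K
    refine ⟨C, fun x H hH hx => le_trans ?_ (hC x H hH hx)⟩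
    have hII : (Ioc x (x + H)).filter (fun t => t ≠ 0) = NX.II (X : ℤ[X]) x H := by
      unfold NX.II
      apply filter_congr
      intro t _
      rw [eval_X]
    rw [hII]
    refine sum_le_sum fun t ht => ?_
    unfold NX.II at ht
    rw [mem_filter, eval_X] at ht
    have ht0 := ht.2
    unfold Run7.h69.TM.rr
    rw [eval_X]
    refine pow_le_pow_left₀ (by positivity) (pow_le_pow_right₀ (by norm_num) ?_) m
    exact eig_triv L (E (a * t) (b * t)) (fin_E ℚ (mul_ne_zero ha ht0) (mul_ne_zero hb ht0)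
      (fun h => hab (mul_right_cancel₀ ht0 h)))
  · exact main_tw L χ hn h1 ha hb hab hm K

end Run7.h318.CH
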