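import Mathlib

/-!
# Eigenlattices of a character and homomorphisms to the 2-torsion: the group theory
-/

set_option autoImplicit false
set_option linter.unusedSectionVars false

namespace Run7.h318.CH

open Finset

section

variable {Γ A : Type*} [Group Γ] [AddCommGroup A]

/-- the partial sums -/
def Sm (ρ : Γ →* AddMonoid.End A) (g : Γ) (i : ℕ) (P : A) : A := ∑ l ∈ range i, ρ (g ^ l) P

/-- the character `χ` has image generated by `ζ = χ g` of order `2 h` -/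
structure Dat (χ : Γ →* ℂˣ) (g : Γ) (ζ : ℂˣ) (h : ℕ) : Prop where
  hg : χ g = ζ
  hz : IsPrimitiveRoot ζ (2 * h)
  h0 : 0 < h
  hs : ∀ τ, ∃ i : ℕ, χ τ = ζ ^ i

/-- the eigenlattice -/
def Ms (ρ : Γ →* AddMonoid.End A) (χ : Γ →* ℂˣ) : AddSubgroup A where
  carrier := {P | (∀ k, χ k = 1 → ρ k P = P) ∧ ∀ k, χ k = -1 → ρ k P = -P}
  zero_mem' := ⟨fun k _ => map_zero _, fun k _ => by rw [map_zero, neg_zero]⟩
  add_mem' := by
    rintro P Q ⟨h1, h2⟩ ⟨h3, h4⟩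
    exact ⟨fun k hk => by rw [map_add, h1 k hk, h3 k hk],
      fun k hk => by rw [map_add, h2 k hk, h4 k hk]; abel⟩
  neg_mem' := by
    rintro P ⟨h1, h2⟩
    exact ⟨fun k hk => by rw [map_neg, h1 k hk], fun k hk => by rw [map_neg, h2 k hk]⟩

variable {ρ : Γ →* AddMonoid.End A} {χ : Γ →* ℂˣ} {g : Γ} {ζ : ℂˣ} {h : ℕ}

lemma rho_mul (σ τ : Γ) (P : A) : ρ (σ * τ) P = ρ σ (ρ τ P) := by
  rw [map_mul]
  rfl

lemma rho_one (P : A) : ρ 1 P = P := by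
  rw [map_one]
  rfl

lemma act_eq {P : A} (hP : P ∈ Ms ρ χ) {σ τ : Γ} (hst : χ σ = χ τ) : ρ σ P = ρ τ P := by
  have h1 : ρ (τ⁻¹ * σ) P = P := hP.1 _ (by rw [map_mul, map_inv, hst, inv_mul_cancel])
  have h2 : ρ τ (ρ (τ⁻¹ * σ) P) = ρ τ P := by rw [h1]
  rw [← rho_mul, mul_inv_cancel_left] at h2
  exact h2

lemma act_neg {P : A} (hP : P ∈ Ms ρ χ) {σ τ : Γ} (hst : χ σ = -χ τ) : ρ σ P = -ρ τ P := by
  have h1 : ρ (τ⁻¹ * σ) P = -P := hP.2 _ (by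
    rw [map_mul, map_inv, hst, mul_neg, inv_mul_cancel])
  have h2 : ρ τ (ρ (τ⁻¹ * σ) P) = -ρ τ P := by rw [h1, map_neg]
  rw [← rho_mul, mul_inv_cancel_left] at h2
  exact h2

lemma Ms_act {P : A} (hP : P ∈ Ms ρ χ) (τ : Γ) : ρ τ P ∈ Ms ρ χ := by
  refine ⟨fun k hk => ?_, fun k hk => ?_⟩
  · rw [← rho_mul]
    exact act_eq hP (by rw [map_mul, hk, one_mul])
  · rw [← rho_mul]
    exact act_neg hP (by rw [map_mul, hk, neg_one_mul])

lemma Sm_mem {P : A} (hP : P ∈ Ms ρ χ) (i : ℕ) : Sm ρ g i P ∈ Ms ρ χ :=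
  AddSubgroup.sum_mem _ fun _ _ => Ms_act hP _

lemma Sm_add_idx (i j : ℕ) (P : A) :
    Sm ρ g (i + j) P = Sm ρ g i P + ρ (g ^ i) (Sm ρ g j P) := by
  unfold Sm
  rw [sum_range_add, map_sum]
  congr 1
  refine sum_congr rfl fun l _ => ?_
  rw [← rho_mul, ← pow_add]

lemma Sm_add (i : ℕ) (P Q : A) : Sm ρ g i (P + Q) = Sm ρ g i P + Sm ρ g i Q := by
  unfold Sm
  rw [← sum_add_distrib]
  exact sum_congr rfl fun l _ => map_add _ _ _

lemma Sm_zero (P : A) : Sm ρ g 0 P = 0 := by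
  unfold Sm
  rw [range_zero, sum_empty]

lemma Sm_one (P : A) : Sm ρ g 1 P = P := by
  unfold Sm
  rw [sum_range_one, pow_zero, rho_one]

section

variable (D : Dat χ g ζ h)

include D

lemma Dat.zh : ζ ^ h = -1 := by
  have h1 : (ζ ^ h) ^ 2 = 1 := by
    rw [← pow_mul, mul_comm, D.hz.pow_eq_one]
  have h2 : ζ ^ h ≠ 1 := by
    intro h3
    have := D.hz.dvd_of_pow_eq_one h h3
    have := Nat.le_of_dvd D.h0 this
    have := D.h0
    omega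
  have h3 : ((ζ ^ h : ℂˣ) : ℂ) ^ 2 = 1 := by
    have := congrArg (fun x : ℂˣ => (x : ℂ)) h1
    simpa using this
  rcases sq_eq_one_iff.1 h3 with h4 | h4
  · exact absurd (Units.ext (by simpa using h4)) h2
  · exact Units.ext (by simpa using h4)

lemma Dat.chi_h : χ (g ^ h) = -1 := by
  rw [map_pow, D.hg, D.zh]

lemma Sm_h_add {P : A} (hP : P ∈ Ms ρ χ) (i : ℕ) :
    Sm ρ g (h + i) P = Sm ρ g h P - Sm ρ g i P := by
  rw [Sm_add_idx, sub_eq_add_neg]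
  congr 1
  exact (Sm_mem hP i).2 _ D.chi_h

lemma Sm_per {P : A} (hP : P ∈ Ms ρ χ) (k : ℕ) : Sm ρ g (2 * h * k) P = 0 := by
  induction k with
  | zero => rw [mul_zero, Sm_zero]
  | succ k ih =>
    have e : 2 * h * (k + 1) = h + (h + 2 * h * k) := by ring
    rw [e, Sm_h_add D hP, Sm_h_add D hP, ih]
    abel

lemma Sm_mod {P : A} (hP : P ∈ Ms ρ χ) {i j : ℕ} (hij : ζ ^ i = ζ ^ j) :
    Sm ρ g i P = Sm ρ g j P := by
  wlog hle : i ≤ j generalizing i j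
  · exact (this hij.symm (by omega)).symm
  have h1 : ζ ^ (j - i) = 1 := by
    have h2 : ζ ^ i * ζ ^ (j - i) = ζ ^ i * 1 := by
      rw [← pow_add, mul_one, Nat.add_sub_cancel' hle, hij]
    exact mul_left_cancel h2
  obtain ⟨k, hk⟩ := D.hz.dvd_of_pow_eq_one _ h1
  have e : j = i + 2 * h * k := by omega
  rw [e, Sm_add_idx, Sm_per D hP, map_zero, add_zero]

/-- the index -/
noncomputable def Dat.idx (τ : Γ) : ℕ := (D.hs τ).choose

lemma Dat.idx_spec (τ : Γ) : χ τ = ζ ^ D.idx τ := (D.hs τ).choose_spec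

lemma Dat.chi_idx (τ : Γ) : χ τ = χ (g ^ D.idx τ) := by
  rw [map_pow, D.hg, ← D.idx_spec]

/-- the homomorphism of a point -/
noncomputable def Dat.kap (ρ : Γ →* AddMonoid.End A) (P Q : A) (τ : Γ) : A :=
  ρ τ Q - Q + Sm ρ g (D.idx τ) P

lemma act_Sm {P : A} (hP : P ∈ Ms ρ χ) (τ : Γ) (i : ℕ) :
    ρ τ (Sm ρ g i P) = ρ (g ^ D.idx τ) (Sm ρ g i P) :=
  act_eq (Sm_mem hP i) (D.chi_idx τ)

lemma Dat.kap_tors {P Q : A} (hP : P ∈ Ms ρ χ) (hQ : Q + Q = Sm ρ g h P) (τ : Γ) :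
    D.kap ρ P Q τ + D.kap ρ P Q τ = 0 := by
  unfold Dat.kap
  have h1 : ρ τ Q + ρ τ Q = ρ τ (Sm ρ g h P) := by rw [← map_add, hQ]
  have h2 : ρ τ (Sm ρ g h P) = Sm ρ g h P - (Sm ρ g (D.idx τ) P + Sm ρ g (D.idx τ) P) := by
    rw [act_Sm D hP]
    have h3 : ρ (g ^ D.idx τ) (Sm ρ g h P) =
        Sm ρ g (D.idx τ + h) P - Sm ρ g (D.idx τ) P := by
      rw [Sm_add_idx]
      abel
    rw [h3, add_comm (D.idx τ) h, Sm_h_add D hP]
    abel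
  calc ρ τ Q - Q + Sm ρ g (D.idx τ) P + (ρ τ Q - Q + Sm ρ g (D.idx τ) P)
      = (ρ τ Q + ρ τ Q) - (Q + Q) + (Sm ρ g (D.idx τ) P + Sm ρ g (D.idx τ) P) := by abel
    _ = 0 := by
      rw [h1, h2, hQ]
      abel

lemma Dat.kap_mul {P Q : A} (hP : P ∈ Ms ρ χ) (τ σ : Γ) :
    D.kap ρ P Q (τ * σ) = D.kap ρ P Q τ + ρ τ (D.kap ρ P Q σ) := by
  unfold Dat.kap
  have h1 : Sm ρ g (D.idx (τ * σ)) P = Sm ρ g (D.idx τ) P + ρ τ (Sm ρ g (D.idx σ) P) := by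
    rw [act_Sm D hP, ← Sm_add_idx]
    apply Sm_mod D hP
    rw [← D.idx_spec, map_mul, D.idx_spec τ, D.idx_spec σ, pow_add]
  rw [h1, rho_mul, map_add, map_sub]
  abel

lemma Dat.kap_add (P P' Q Q' : A) (τ : Γ) :
    D.kap ρ (P + P') (Q + Q') τ = D.kap ρ P Q τ + D.kap ρ P' Q' τ := by
  unfold Dat.kap
  rw [map_add, Sm_add]
  abel

lemma Dat.kap_zero_one {P Q : A} (hP : P ∈ Ms ρ χ) {τ : Γ} (hτ : χ τ = 1) :
    D.kap ρ P Q τ = ρ τ Q - Q := by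
  unfold Dat.kap
  rw [Sm_mod D hP (i := D.idx τ) (j := 0) (by rw [← D.idx_spec, hτ, pow_zero]), Sm_zero, add_zero]

lemma Dat.kap_neg {P Q : A} (hP : P ∈ Ms ρ χ) (hQ : Q + Q = Sm ρ g h P) {τ : Γ} (hτ : χ τ = -1) :
    D.kap ρ P Q τ = ρ τ Q + Q := by
  unfold Dat.kap
  rw [Sm_mod D hP (i := D.idx τ) (j := h) (by rw [← D.idx_spec, hτ, D.zh]), ← hQ]
  abel

lemma Dat.kap_gen {P Q : A} (hP : P ∈ Ms ρ χ) :
    D.kap ρ P Q g = ρ g Q - Q + P := by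
  unfold Dat.kap
  rw [Sm_mod D hP (i := D.idx g) (j := 1) (by rw [← D.idx_spec, D.hg, pow_one]), Sm_one]

/-- the kernel -/
lemma Dat.kap_ker {P Q : A} (hP : P ∈ Ms ρ χ) (hQ : Q + Q = Sm ρ g h P)
    (h0 : ∀ τ, D.kap ρ P Q τ = 0) : Q ∈ Ms ρ χ ∧ P = Q - ρ g Q := by
  refine ⟨⟨fun k hk => ?_, fun k hk => ?_⟩, ?_⟩
  · have := h0 k
    rw [D.kap_zero_one hP hk] at this
    exact sub_eq_zero.1 this
  · have := h0 k
    rw [D.kap_neg hP hQ hk] at this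
    exact eq_neg_of_add_eq_zero_left this
  · have := h0 g
    rw [D.kap_gen hP] at this
    have h1 : P = -(ρ g Q - Q) := eq_neg_of_add_eq_zero_right this
    rw [h1]
    abel

end

end

end Run7.h318.CH
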