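import Pool.Agent.Run7.h318.CH.A1

/-!
# The dimension of the eigenspace of a character of order `2 ^ (k + 1)`
-/

set_option autoImplicit false
set_option linter.unusedSectionVars false

namespace Run7.h318.CH

open Finset TensorProduct

section

variable {G B : Type} [Group G] [AddCommGroup B]

/-- the action on `ℂ ⊗ B` -/
noncomputable def gl (ρ : G →* AddMonoid.End B) (σ : G) : (ℂ ⊗[ℤ] B) →ₗ[ℂ] (ℂ ⊗[ℤ] B) :=
  LinearMap.baseChange ℂ (AddMonoidHom.toIntLinearMap (ρ σ : B →+ B))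

/-- the eigenspace -/
noncomputable def Eig (ρ : G →* AddMonoid.End B) (χ : G →* ℂˣ) : Submodule ℂ (ℂ ⊗[ℤ] B) where
  carrier := {v | ∀ σ, gl ρ σ v = ((χ σ : ℂˣ) : ℂ) • v}
  zero_mem' := fun σ => by rw [map_zero, smul_zero]
  add_mem' := by
    intro v w hv hw σ
    rw [map_add, hv σ, hw σ, smul_add]
  smul_mem' := by
    intro c v hv σ
    rw [map_smul, hv σ, smul_comm]

variable {ρ : G →* AddMonoid.End B} {χ : G →* ℂˣ} {g : G} {ζ : ℂˣ}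

lemma gl_tmul (σ : G) (c : ℂ) (P : B) : gl ρ σ (c ⊗ₜ[ℤ] P) = c ⊗ₜ[ℤ] (ρ σ P) := rfl

variable [Fintype G]

/-- the projection -/
noncomputable def pr (ρ : G →* AddMonoid.End B) (χ : G →* ℂˣ) :
    (ℂ ⊗[ℤ] B) →ₗ[ℂ] (ℂ ⊗[ℤ] B) := ∑ σ : G, ((χ σ : ℂˣ) : ℂ)⁻¹ • gl ρ σ

lemma pr_eig {v : ℂ ⊗[ℤ] B} (hv : v ∈ Eig ρ χ) : pr ρ χ v = (Fintype.card G : ℂ) • v := by
  unfold pr
  rw [LinearMap.sum_apply]
  have h1 : ∀ σ ∈ (univ : Finset G), (((χ σ : ℂˣ) : ℂ)⁻¹ • gl ρ σ) v = v := by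
    intro σ _
    rw [LinearMap.smul_apply, hv σ, smul_smul, inv_mul_cancel₀ (Units.ne_zero _), one_smul]
  rw [sum_congr rfl h1, sum_const, card_univ, Nat.cast_smul_eq_nsmul]

lemma pr_act (τ : G) (c : ℂ) (P : B) :
    pr ρ χ (c ⊗ₜ[ℤ] (ρ τ P)) = ((χ τ : ℂˣ) : ℂ) • pr ρ χ (c ⊗ₜ[ℤ] P) := by
  unfold pr
  rw [LinearMap.sum_apply, LinearMap.sum_apply, smul_sum]
  have h1 : ∀ σ : G, (((χ σ : ℂˣ) : ℂ)⁻¹ • gl ρ σ) (c ⊗ₜ[ℤ] (ρ τ P)) =
      ((χ τ : ℂˣ) : ℂ) • (((χ (σ * τ) : ℂˣ) : ℂ)⁻¹ • gl ρ (σ * τ)) (c ⊗ₜ[ℤ] P) := by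
    intro σ
    rw [LinearMap.smul_apply, LinearMap.smul_apply, gl_tmul, gl_tmul, rho_mul, smul_smul, map_mul]
    congr 1
    push_cast
    rw [mul_inv, mul_comm (((χ σ : ℂˣ) : ℂ)⁻¹), ← mul_assoc,
      mul_inv_cancel₀ (Units.ne_zero (χ τ)), one_mul]
  rw [sum_congr rfl fun σ _ => h1 σ]
  exact Fintype.sum_equiv (Equiv.mulRight τ) _ _ fun σ => rfl

/-- the element of the eigenlattice attached to a point -/
lemma exists_M (P : B) : ∃ (P' : B) (c : ℂ), P' ∈ Ms ρ χ ∧ c ≠ 0 ∧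
    pr ρ χ ((1 : ℂ) ⊗ₜ[ℤ] P') = c • pr ρ χ ((1 : ℂ) ⊗ₜ[ℤ] P) := by
  classical
  set s1 : Finset G := univ.filter fun k => χ k = 1 with hs1
  set s2 : Finset G := univ.filter fun k => χ k = -1 with hs2
  have hne : (1 : ℂˣ) ≠ -1 := by
    intro h
    have := congrArg (fun x : ℂˣ => (x : ℂ)) h
    norm_num at this
  have sh1 : ∀ (k : G) (s t : Finset G), (∀ σ, σ ∈ s ↔ k * σ ∈ t) →
      ρ k (∑ σ ∈ s, ρ σ P) = ∑ σ ∈ t, ρ σ P := by
    intro k s t h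
    rw [map_sum]
    refine sum_bij' (fun σ _ => k * σ) (fun σ _ => k⁻¹ * σ) (fun σ hσ => (h σ).1 hσ) ?_ ?_ ?_ ?_
    · intro σ hσ
      rw [h, mul_inv_cancel_left]
      exact hσ
    · intro σ _
      exact inv_mul_cancel_left _ _
    · intro σ _
      exact mul_inv_cancel_left _ _
    · intro σ _
      exact (rho_mul k σ P).symm
  refine ⟨(∑ σ ∈ s1, ρ σ P) - ∑ σ ∈ s2, ρ σ P, (s1.card : ℂ) + s2.card,
    ⟨fun k hk => ?_, fun k hk => ?_⟩, ?_, ?_⟩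
  · rw [map_sub, sh1 k s1 s1, sh1 k s2 s2]
    · intro σ
      rw [hs2, mem_filter, mem_filter, map_mul, hk, one_mul]
      simp
    · intro σ
      rw [hs1, mem_filter, mem_filter, map_mul, hk, one_mul]
      simp
  · rw [map_sub, sh1 k s1 s2, sh1 k s2 s1]
    · abel
    · intro σ
      rw [hs1, hs2, mem_filter, mem_filter, map_mul, hk, neg_one_mul]
      simp only [mem_univ, true_and]
      constructor
      · intro h
        rw [h, neg_neg]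
      · intro h
        rw [← h, neg_neg]
    · intro σ
      rw [hs1, hs2, mem_filter, mem_filter, map_mul, hk, neg_one_mul]
      simp only [mem_univ, true_and]
      constructor
      · intro h
        rw [h]
      · intro h
        exact neg_injective h
  · have h1 : 1 ∈ s1 := by
      rw [hs1, mem_filter]
      exact ⟨mem_univ _, map_one χ⟩
    have h2 : 0 < s1.card := card_pos.2 ⟨1, h1⟩
    have h3 : ((s1.card + s2.card : ℕ) : ℂ) ≠ 0 := by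
      exact_mod_cast (by omega : s1.card + s2.card ≠ 0)
    push_cast at h3
    exact h3
  · rw [TensorProduct.tmul_sub, TensorProduct.tmul_sum, TensorProduct.tmul_sum, map_sub, map_sum,
      map_sum]
    have e1 : ∀ σ ∈ s1, pr ρ χ ((1 : ℂ) ⊗ₜ[ℤ] (ρ σ P)) = pr ρ χ ((1 : ℂ) ⊗ₜ[ℤ] P) := by
      intro σ hσ
      rw [pr_act, (mem_filter.1 hσ).2, Units.val_one, one_smul]
    have e2 : ∀ σ ∈ s2, pr ρ χ ((1 : ℂ) ⊗ₜ[ℤ] (ρ σ P)) = -pr ρ χ ((1 : ℂ) ⊗ₜ[ℤ] P) := by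
      intro σ hσ
      rw [pr_act, (mem_filter.1 hσ).2, Units.val_neg, Units.val_one, neg_smul, one_smul]
    rw [sum_congr rfl e1, sum_congr rfl e2, sum_const, sum_const, add_smul,
      Nat.cast_smul_eq_nsmul, Nat.cast_smul_eq_nsmul, smul_neg, sub_neg_eq_add]

/-- the eigenspace is spanned by the projections of the eigenlattice -/
lemma eig_le (U : Submodule ℂ (ℂ ⊗[ℤ] B))
    (hU : ∀ P ∈ Ms ρ χ, pr ρ χ ((1 : ℂ) ⊗ₜ[ℤ] P) ∈ U) : Eig ρ χ ≤ U := by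
  have h1 : ∀ v : ℂ ⊗[ℤ] B, pr ρ χ v ∈ U := by
    intro v
    induction v using TensorProduct.induction_on with
    | zero => rw [map_zero]; exact U.zero_mem
    | add v w hv hw => rw [map_add]; exact U.add_mem hv hw
    | tmul c P =>
      obtain ⟨P', d, h2, h3, h4⟩ := exists_M (ρ := ρ) (χ := χ) P
      have h5 : pr ρ χ ((1 : ℂ) ⊗ₜ[ℤ] P) = d⁻¹ • pr ρ χ ((1 : ℂ) ⊗ₜ[ℤ] P') := by
        rw [h4, smul_smul, inv_mul_cancel₀ h3, one_smul]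
      have h6 : (c ⊗ₜ[ℤ] P : ℂ ⊗[ℤ] B) = c • ((1 : ℂ) ⊗ₜ[ℤ] P) := by
        rw [TensorProduct.smul_tmul', smul_eq_mul, mul_one]
      rw [h6, map_smul, h5]
      exact U.smul_mem _ (U.smul_mem _ (hU _ h2))
  intro v hv
  have h2 := h1 v
  rw [pr_eig hv] at h2
  have h3 : (Fintype.card G : ℂ) ≠ 0 := by exact_mod_cast Fintype.card_ne_zero
  have h4 := U.smul_mem (Fintype.card G : ℂ)⁻¹ h2
  rwa [smul_smul, inv_mul_cancel₀ h3, one_smul] at h4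

end

/-- a power of `1 - u` -/
lemma one_sub_pow_two {R : Type} [CommRing R] (u : R) (k : ℕ) :
    ∃ w, (1 - u) ^ (2 ^ k) = 1 + u ^ (2 ^ k) + 2 * w := by
  induction k with
  | zero => exact ⟨-u, by ring⟩
  | succ k ih =>
    obtain ⟨w, hw⟩ := ih
    refine ⟨u ^ (2 ^ k) + 2 * w ^ 2 + 2 * w * (1 + u ^ (2 ^ k)), ?_⟩
    rw [pow_succ, pow_mul, hw, pow_mul]
    ring

end Run7.h318.CH
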