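import Pool.Agent.Run7.h318.CH.A2

/-!
# The dimension of the eigenspace: the bound
-/

set_option autoImplicit false
set_option linter.all false

namespace Run7.h318.CH

open Finset TensorProduct Polynomial

section

variable {G B : Type} [Group G] [Fintype G] [AddCommGroup B]

variable {ρ : G →* AddMonoid.End B} {χ : G →* ℂˣ} {g : G} {ζ : ℂˣ} {k : ℕ}

lemma two_mul_mem (D : Dat χ g ζ (2 ^ k)) {P : B} (hP : P ∈ Ms ρ χ) :
    P + P = Sm ρ g (2 ^ k) P - ρ g (Sm ρ g (2 ^ k) P) := by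
  have h1 : Sm ρ g (1 + 2 ^ k) P = P + ρ g (Sm ρ g (2 ^ k) P) := by
    rw [Sm_add_idx, Sm_one, pow_one]
  have h2 := Sm_h_add D hP 1
  rw [Sm_one, add_comm (2 ^ k) 1, h1] at h2
  have h3 : ρ g (Sm ρ g (2 ^ k) P) = Sm ρ g (2 ^ k) P - P - P := by
    rw [← h2]
    abel
  rw [h3]
  abel

/-- the action on the eigenlattice -/
def phi (ρ : G →* AddMonoid.End B) (χ : G →* ℂˣ) (g : G) : Module.End ℤ (Ms ρ χ) :=
  AddMonoidHom.toIntLinearMap
    { toFun := fun P => ⟨ρ g P.1, Ms_act P.2 g⟩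
      map_zero' := Subtype.ext (map_zero _)
      map_add' := fun _ _ => Subtype.ext (map_add _ _ _) }

lemma phi_val (P : Ms ρ χ) : (phi ρ χ g P).1 = ρ g P.1 := rfl

lemma phi_pow (n : ℕ) (P : Ms ρ χ) : ((phi ρ χ g ^ n) P).1 = ρ (g ^ n) P.1 := by
  induction n with
  | zero => rw [pow_zero, pow_zero, rho_one]; rfl
  | succ n ih =>
    rw [pow_succ', pow_succ', rho_mul, ← ih]
    rfl

lemma psi_pow (D : Dat χ g ζ (2 ^ k)) (P : Ms ρ χ) :
    ∃ R : Ms ρ χ, ((1 - phi ρ χ g : Module.End ℤ (Ms ρ χ)) ^ (2 ^ k)) P = R + R := by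
  obtain ⟨w, hw⟩ := one_sub_pow_two (X : ℤ[X]) k
  have h1 := congrArg (aeval (phi ρ χ g)) hw
  simp only [map_pow, map_sub, map_add, map_mul, map_one, aeval_X, map_ofNat] at h1
  have h2 : (phi ρ χ g ^ (2 ^ k)) = -1 := by
    apply LinearMap.ext
    intro P
    apply Subtype.ext
    rw [phi_pow]
    exact P.2.2 _ D.chi_h
  rw [h2, add_neg_cancel, zero_add] at h1
  refine ⟨(aeval (phi ρ χ g) w) P, ?_⟩
  rw [h1, two_mul]
  rfl

/-- **the bound** -/
theorem dim_bound (hfg : Module.Finite ℤ B) (D : Dat χ g ζ (2 ^ k)) {X : Type*} (K : B → X)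
    {T : Set X} (hT : T.Finite) (hKT : ∀ P ∈ Ms ρ χ, K P ∈ T)
    (hK : ∀ P ∈ Ms ρ χ, ∀ P' ∈ Ms ρ χ, K P = K P' → ∃ R ∈ Ms ρ χ, P - P' = R - ρ g R) :
    2 ^ Module.finrank ℂ (Eig ρ χ) ≤ T.ncard := by
  classical
  set ψ : Module.End ℤ (Ms ρ χ) := 1 - phi ρ χ g with hψ
  have hψv : ∀ P : Ms ρ χ, (ψ P).1 = P.1 - ρ g P.1 := fun P => rfl
  set Q := (Ms ρ χ) ⧸ ψ.toAddMonoidHom.range with hQ
  have h2 : ∀ q : Q, 2 • q = 0 := by
    intro q
    induction q using QuotientAddGroup.induction_on with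
    | H P =>
      rw [two_nsmul, ← QuotientAddGroup.mk_add, QuotientAddGroup.eq_zero_iff]
      refine ⟨⟨Sm ρ g (2 ^ k) P.1, Sm_mem P.2 _⟩, ?_⟩
      apply Subtype.ext
      exact (two_mul_mem D P.2).symm
  letI : Module (ZMod 2) Q := AddCommGroup.zmodModule h2
  -- finiteness
  let J : Q → T := fun q => ⟨K (Quotient.out q).1, hKT _ (Quotient.out q).2⟩
  have hJ : Function.Injective J := by
    intro q q' h
    have h1 : K (Quotient.out q).1 = K (Quotient.out q').1 := congrArg Subtype.val h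
    obtain ⟨R, hR, hR'⟩ := hK _ (Quotient.out q).2 _ (Quotient.out q').2 h1
    have e1 : (QuotientAddGroup.mk (Quotient.out q) : Q) = q := Quotient.out_eq q
    have e2 : (QuotientAddGroup.mk (Quotient.out q') : Q) = q' := Quotient.out_eq q'
    rw [← e1, ← e2, QuotientAddGroup.eq]
    refine ⟨-⟨R, hR⟩, ?_⟩
    apply Subtype.ext
    show (ψ (-⟨R, hR⟩)).1 = -(Quotient.out q).1 + (Quotient.out q').1
    rw [hψv]
    have e3 : ((-⟨R, hR⟩ : Ms ρ χ)).1 = -R := rfl
    rw [e3, map_neg]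
    have e4 : -R - -ρ g R = -(R - ρ g R) := by abel
    rw [e4, ← hR']
    abel
  haveI : Finite T := hT
  haveI hQf : Finite Q := Finite.of_injective J hJ
  have hcard : Nat.card Q ≤ T.ncard := by
    rw [← Nat.card_coe_set_eq]
    exact Nat.card_le_card_of_injective J hJ
  set r := Module.finrank (ZMod 2) Q with hr
  haveI : Module.Finite (ZMod 2) Q := Module.Finite.of_finite
  have hcr : Nat.card Q = 2 ^ r := by
    rw [Module.natCard_eq_pow_finrank (K := ZMod 2), Nat.card_zmod]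
  let b := Module.finBasis (ZMod 2) Q
  have hsur : ∀ q : Q, ∃ P : Ms ρ χ, (QuotientAddGroup.mk P : Q) = q :=
    fun q => QuotientAddGroup.mk_surjective q
  choose lf hlf using fun i => hsur (b i)
  let π : B →+ (ℂ ⊗[ℤ] B) :=
    (pr ρ χ).toAddMonoidHom.comp (TensorProduct.mk ℤ ℂ B 1).toAddMonoidHom
  have hπ : ∀ P, π P = pr ρ χ ((1 : ℂ) ⊗ₜ[ℤ] P) := fun P => rfl
  set U : Submodule ℂ (ℂ ⊗[ℤ] B) := Submodule.span ℂ (Set.range fun i => π (lf i).1) with hU
  have hUr : Module.finrank ℂ U ≤ r := by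
    have := finrank_range_le_card (R := ℂ) (fun i => π (lf i).1)
    rw [Fintype.card_fin] at this
    exact this
  set L : AddSubgroup B := U.toAddSubgroup.comap π with hL
  have hLm : ∀ P, P ∈ L ↔ π P ∈ U := fun P => Iff.rfl
  -- generation
  have hgen : ∀ P : Ms ρ χ, ∃ l : Ms ρ χ, l.1 ∈ L ∧ ∃ R : Ms ρ χ, P = l + ψ R := by
    intro P
    set c := b.repr (QuotientAddGroup.mk P : Q) with hc
    set l : Ms ρ χ := ∑ i, (c i).val • lf i with hl
    have h3 : (QuotientAddGroup.mk l : Q) = QuotientAddGroup.mk P := by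
      have e1 : (QuotientAddGroup.mk l : Q) = ∑ i, (c i).val • b i := by
        have := map_sum (QuotientAddGroup.mk' ψ.toAddMonoidHom.range)
          (fun i => (c i).val • lf i) univ
        refine Eq.trans this ?_
        refine sum_congr rfl fun i _ => ?_
        rw [map_nsmul]
        congr 1
        exact hlf i
      rw [e1]
      have e2 : ∀ i ∈ (univ : Finset (Fin r)), (c i).val • b i = c i • b i := by
        intro i _
        rw [← Nat.cast_smul_eq_nsmul (ZMod 2), ZMod.natCast_val, ZMod.cast_id]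
      rw [sum_congr rfl e2]
      exact b.sum_repr _
    rw [QuotientAddGroup.eq] at h3
    obtain ⟨R, hR⟩ := h3
    refine ⟨l, ?_, R, ?_⟩
    · rw [hLm]
      have e1 : l.1 = ∑ i, (c i).val • (lf i).1 := by
        rw [hl]
        exact map_sum (Ms ρ χ).subtype _ _ |>.trans (sum_congr rfl fun i _ => map_nsmul _ _ _)
      rw [e1, map_sum]
      refine Submodule.sum_mem _ fun i _ => ?_
      rw [map_nsmul]
      exact U.nsmul_mem (Submodule.subset_span ⟨i, rfl⟩) _
    · have e1 : ψ R = -l + P := hR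
      rw [e1]
      abel
  -- stability
  have hstab : ∀ l : Ms ρ χ, l.1 ∈ L → (ψ l).1 ∈ L := by
    intro l hl
    rw [hLm] at hl ⊢
    rw [hψv, map_sub]
    refine U.sub_mem hl ?_
    rw [hπ, pr_act]
    exact U.smul_mem _ hl
  have hit : ∀ (n : ℕ) (P : Ms ρ χ), ∃ l : Ms ρ χ, l.1 ∈ L ∧ ∃ R : Ms ρ χ, P = l + (ψ ^ n) R := by
    intro n
    induction n with
    | zero =>
      intro P
      exact ⟨0, L.zero_mem, P, by rw [pow_zero, zero_add]; rfl⟩
    | succ n ih =>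
      intro P
      obtain ⟨l, hl, R, hR⟩ := hgen P
      obtain ⟨l', hl', R', hR'⟩ := ih R
      refine ⟨l + ψ l', L.add_mem hl (hstab l' hl'), R', ?_⟩
      rw [hR, hR', map_add, pow_succ', add_assoc]
      rfl
  -- Nakayama
  set N' : Submodule ℤ (B ⧸ L) := (AddSubgroup.toIntSubmodule ((Ms ρ χ).map (QuotientAddGroup.mk' L)))
    with hN'
  have hmem : ∀ x : B ⧸ L, x ∈ N' ↔ ∃ P ∈ Ms ρ χ, (QuotientAddGroup.mk P : B ⧸ L) = x := fun x => Iff.rfl
  haveI : IsNoetherian ℤ B := isNoetherian_of_isNoetherianRing_of_finite ℤ B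
  haveI : Module.Finite ℤ (B ⧸ L) :=
    Module.Finite.of_surjective (AddMonoidHom.toIntLinearMap (QuotientAddGroup.mk' L))
      (QuotientAddGroup.mk'_surjective L)
  haveI : IsNoetherian ℤ (B ⧸ L) := isNoetherian_of_isNoetherianRing_of_finite ℤ _
  obtain ⟨s, hs1, hs2⟩ := Submodule.exists_sub_one_mem_and_smul_eq_zero_of_fg_of_le_smul
    (Ideal.span {(2 : ℤ)}) N' (IsNoetherian.noetherian N') (by
      intro x hx
      obtain ⟨P, hP, rfl⟩ := (hmem x).1 hx
      obtain ⟨l, hl, R, hR⟩ := hit (2 ^ k) ⟨P, hP⟩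
      obtain ⟨R', hR'⟩ := psi_pow D R
      rw [hψ, hR'] at hR
      have h4 : P = l.1 + (R'.1 + R'.1) := congrArg Subtype.val hR
      have h5 : (QuotientAddGroup.mk P : B ⧸ L) = (2 : ℤ) • (QuotientAddGroup.mk R'.1 : B ⧸ L) := by
        rw [two_zsmul, ← QuotientAddGroup.mk_add, QuotientAddGroup.eq, h4]
        have e : -(l.1 + (R'.1 + R'.1)) + (R'.1 + R'.1) = -l.1 := by abel
        rw [e]
        exact L.neg_mem hl
      rw [h5]
      exact Submodule.smul_mem_smul (Ideal.mem_span_singleton_self _) ((hmem _).2 ⟨_, R'.2, rfl⟩))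
  have hs0 : (s : ℂ) ≠ 0 := by
    have h6 : (2 : ℤ) ∣ s - 1 := Ideal.mem_span_singleton.1 hs1
    have h7 : s ≠ 0 := by
      rintro rfl
      omega
    exact_mod_cast h7
  have hle : Eig ρ χ ≤ U := by
    refine eig_le U fun P hP => ?_
    have h6 := hs2 _ ((hmem _).2 ⟨P, hP, rfl⟩)
    rw [← QuotientAddGroup.mk_zsmul, QuotientAddGroup.eq_zero_iff, hLm, map_zsmul] at h6
    have h7 : ((s : ℂ)) • π P ∈ U := by
      rw [Int.cast_smul_eq_zsmul]
      exact h6
    have h8 := U.smul_mem (s : ℂ)⁻¹ h7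
    rwa [smul_smul, inv_mul_cancel₀ hs0, one_smul] at h8
  haveI : Module.Finite ℂ U := by
    rw [hU]
    exact FiniteDimensional.span_of_finite ℂ (Set.finite_range _)
  calc 2 ^ Module.finrank ℂ (Eig ρ χ) ≤ 2 ^ r :=
        Nat.pow_le_pow_right (by norm_num) ((Submodule.finrank_mono hle).trans hUr)
    _ ≤ T.ncard := by
        rw [← hcr]
        exact hcard

end

end Run7.h318.CH
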