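import Pool.Agent.Run7.h318.CH.A3
import Pool.Agent.Run7.h318.SH.Rk

/-!
# The square classes of the points of the eigenlattice
-/

set_option autoImplicit false
set_option linter.all false

namespace Run7.h318.CH

open WeierstrassCurve Finset

open scoped Classical

open Pool.Agent.W262.SH (QB Pt act LocSol E)
open Pool.Agent.TH841.SH (IsR IsX act_some act_inj act_act fix_mem)
open Run7.h318.SH (isR_E act_tors lc_of_fin exists_char)

/-- the action of the absolute Galois group -/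
noncomputable def rG (W : WeierstrassCurve ℚ) : (QB ≃ₐ[ℚ] QB) →* AddMonoid.End (Pt W QB) where
  toFun σ := act W σ.toAlgHom
  map_one' := by
    apply AddMonoidHom.ext
    intro P
    rcases P with _ | ⟨u, v, hn⟩
    · rfl
    · rfl
  map_mul' σ τ := by
    apply AddMonoidHom.ext
    intro P
    show act W (σ * τ).toAlgHom P = act W σ.toAlgHom (act W τ.toAlgHom P)
    rw [act_act]
    rfl

lemma rG_apply (W : WeierstrassCurve ℚ) (σ : QB ≃ₐ[ℚ] QB) (P : Pt W QB) :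
    rG W σ P = act W σ.toAlgHom P := rfl

section

variable {F : Type} [Field F] [NumberField F] [IsGalois ℚ F]

/-- the embedding of `F` and the restriction -/
structure Em (j : F →ₐ[ℚ] QB) (res : (QB ≃ₐ[ℚ] QB) →* (F ≃ₐ[ℚ] F)) : Prop where
  sur : Function.Surjective res
  com : ∀ τ x, τ (j x) = j (res τ x)
  fix : ∀ x, (∀ τ, res τ = 1 → τ x = x) → ∃ y, j y = x

theorem exists_em (F : Type) [Field F] [NumberField F] [IsGalois ℚ F] :
    ∃ (j : F →ₐ[ℚ] QB) (res : (QB ≃ₐ[ℚ] QB) →* (F ≃ₐ[ℚ] F)), Em j res := by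
  let j : F →ₐ[ℚ] QB := IsAlgClosed.lift
  let _ : Algebra F QB := j.toRingHom.toAlgebra
  have : IsScalarTower ℚ F QB := IsScalarTower.of_algebraMap_eq (fun x => (j.commutes x).symm)
  have hcom : ∀ (τ : QB ≃ₐ[ℚ] QB) (x : F), τ (j x) = j (AlgEquiv.restrictNormalHom F τ x) :=
    fun τ x => (AlgEquiv.restrictNormal_commutes τ F x).symm
  refine ⟨j, AlgEquiv.restrictNormalHom F, ?_, hcom, fun x hx => ?_⟩
  · exact AlgEquiv.restrictNormalHom_surjective (F := ℚ) (K₁ := F) (E := QB)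
  · have : IsGalois F QB := IsGalois.tower_top_of_isGalois ℚ F QB
    obtain ⟨y, hy⟩ := fix_mem (K := F) (L := QB) x (fun τ => by
      refine hx (τ.restrictScalars ℚ) ?_
      apply AlgEquiv.ext
      intro z
      apply j.injective
      refine (hcom _ z).symm.trans ?_
      exact τ.commutes z)
    exact ⟨y, hy⟩

/-- the embedding of the points -/
structure PE (res : (QB ≃ₐ[ℚ] QB) →* (F ≃ₐ[ℚ] F)) (W : WeierstrassCurve ℚ) {B : Type}
    [AddCommGroup B] (ρ : (F ≃ₐ[ℚ] F) →* AddMonoid.End B) (i : B →+ Pt W QB) : Prop where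
  inj : Function.Injective i
  eqv : ∀ τ P, act W τ.toAlgHom (i P) = i (ρ (res τ) P)
  fix : ∀ Q, (∀ τ, res τ = 1 → act W τ.toAlgHom Q = Q) → ∃ P, i P = Q

end

section

variable {χ : (QB ≃ₐ[ℚ] QB) →* ℂˣ} {g : QB ≃ₐ[ℚ] QB} {ζ : ℂˣ} {h : ℕ}

/-- the pair is attached to the point of the eigenlattice -/
def Att (D : Dat χ g ζ h) (A B : ℤ) (P : Pt (E A B) QB) (e : ℤ × ℤ) : Prop :=
  ∃ Q : Pt (E A B) QB, Q + Q = Sm (rG (E A B)) g h P ∧ Squarefree e.1 ∧ Squarefree e.2 ∧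
    (∀ s : QB, s ^ 2 = e.1 → ∀ σ : QB ≃ₐ[ℚ] QB,
      σ s = s ↔ IsX ((E A B).baseChange QB) (algebraMap ℚ QB 0) (D.kap (rG (E A B)) P Q σ)) ∧
    (∀ s : QB, s ^ 2 = e.2 → ∀ σ : QB ≃ₐ[ℚ] QB,
      σ s = s ↔ IsX ((E A B).baseChange QB) (algebraMap ℚ QB (A : ℚ))
        (D.kap (rG (E A B)) P Q σ))

lemma ne_of {A B : ℤ} (hA : A ≠ 0) (hB : B ≠ 0) (hAB : A ≠ B) :
    (0 : ℚ) ≠ A ∧ (0 : ℚ) ≠ B ∧ (A : ℚ) ≠ B := by
  refine ⟨?_, ?_, ?_⟩
  · intro h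
    apply hA
    exact_mod_cast h.symm
  · intro h
    apply hB
    exact_mod_cast h.symm
  · intro h
    apply hAB
    exact_mod_cast h

/-- halving -/
lemma exists_half {A B : ℤ} (hA : A ≠ 0) (hB : B ≠ 0) (hAB : A ≠ B) (P : Pt (E A B) QB) :
    ∃ Q, Q + Q = P := by
  obtain ⟨a1, a2, a3⟩ := ne_of hA hB hAB
  have hinj : Function.Injective (algebraMap ℚ QB) := (algebraMap ℚ QB).injective
  obtain ⟨Q, hQ⟩ := ((isR_E A B).base QB).div two_ne_zero (hinj.ne a1) (hinj.ne a2) (hinj.ne a3) P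
  exact ⟨Q, hQ.symm⟩

/-- the homomorphism -/
lemma kap_hom (D : Dat χ g ζ h) {A B : ℤ} {P Q : Pt (E A B) QB} (hP : P ∈ Ms (rG (E A B)) χ)
    (hQ : Q + Q = Sm (rG (E A B)) g h P) (σ τ : QB ≃ₐ[ℚ] QB) :
    D.kap (rG (E A B)) P Q (σ * τ) = D.kap (rG (E A B)) P Q σ + D.kap (rG (E A B)) P Q τ := by
  rw [D.kap_mul hP, rG_apply, act_tors (isR_E A B) (D.kap_tors hP hQ τ) σ]

/-- local constancy -/
lemma kap_lc (D : Dat χ g ζ h) {A B : ℤ} {P Q : Pt (E A B) QB} (hP : P ∈ Ms (rG (E A B)) χ)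
    (s : Finset QB) (hs : ∀ σ τ : QB ≃ₐ[ℚ] QB, (∀ x ∈ s, σ x = τ x) → χ σ = χ τ) :
    IsLocallyConstant (D.kap (rG (E A B)) P Q) := by
  have key : ∀ σ τ : QB ≃ₐ[ℚ] QB, χ σ = χ τ → rG (E A B) σ Q = rG (E A B) τ Q →
      D.kap (rG (E A B)) P Q σ = D.kap (rG (E A B)) P Q τ := by
    intro σ τ h1 h2
    unfold Dat.kap
    rw [h2, Sm_mod D hP (i := D.idx σ) (j := D.idx τ) (by rw [← D.idx_spec, ← D.idx_spec, h1])]
  rcases Q with _ | ⟨u, v, hn⟩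
  · refine lc_of_fin _ s fun σ τ h => key σ τ (hs σ τ h) ?_
    exact (map_zero (rG (E A B) σ)).trans (map_zero (rG (E A B) τ)).symm
  · refine lc_of_fin _ (insert u (insert v s)) fun σ τ h => key σ τ (hs σ τ fun x hx =>
      h x (mem_insert_of_mem (mem_insert_of_mem hx))) ?_
    have h1 : σ u = τ u := h u (mem_insert_self _ _)
    have h2 : σ v = τ v := h v (mem_insert_of_mem (mem_insert_self _ _))
    show act (E A B) σ.toAlgHom (.some u v hn) = act (E A B) τ.toAlgHom (.some u v hn)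
    rw [act_some, act_some, Affine.Point.some.injEq]
    exact ⟨h1, h2⟩

/-- existence of the pair -/
lemma exists_att (D : Dat χ g ζ h) {A B : ℤ} (hA : A ≠ 0) (hB : B ≠ 0) (hAB : A ≠ B)
    (s : Finset QB) (hs : ∀ σ τ : QB ≃ₐ[ℚ] QB, (∀ x ∈ s, σ x = τ x) → χ σ = χ τ)
    {P : Pt (E A B) QB} (hP : P ∈ Ms (rG (E A B)) χ) : ∃ e, Att D A B P e := by
  obtain ⟨a1, a2, a3⟩ := ne_of hA hB hAB
  obtain ⟨Q, hQ⟩ := exists_half hA hB hAB (Sm (rG (E A B)) g h P)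
  obtain ⟨e1, he1, hs1⟩ := exists_char (isR_E A B) a1 a2 a3 (D.kap (rG (E A B)) P Q)
    (kap_lc D hP s hs) (D.kap_tors hP hQ) (kap_hom D hP hQ)
  obtain ⟨e2, he2, hs2⟩ := exists_char (isR_E A B).swap a1.symm a3 a2 (D.kap (rG (E A B)) P Q)
    (kap_lc D hP s hs) (D.kap_tors hP hQ) (kap_hom D hP hQ)
  exact ⟨(e1, e2), Q, hQ, he1, he2, hs1, hs2⟩

lemma kap_sub (D : Dat χ g ζ h) {A B : ℤ} (P P' Q Q' : Pt (E A B) QB) (τ : QB ≃ₐ[ℚ] QB) :
    D.kap (rG (E A B)) (P - P') (Q - Q') τ =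
      D.kap (rG (E A B)) P Q τ - D.kap (rG (E A B)) P' Q' τ := by
  have h1 := D.kap_add (ρ := rG (E A B)) (P - P') P' (Q - Q') Q' τ
  rw [sub_add_cancel, sub_add_cancel] at h1
  rw [h1]
  abel

lemma Sm_sub (i : ℕ) {A B : ℤ} (P P' : Pt (E A B) QB) :
    Sm (rG (E A B)) g i (P - P') = Sm (rG (E A B)) g i P - Sm (rG (E A B)) g i P' := by
  have h1 := Sm_add (ρ := rG (E A B)) (g := g) i (P - P') P'
  rw [sub_add_cancel] at h1
  rw [h1]
  abel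

/-- injectivity -/
lemma att_inj (D : Dat χ g ζ h) {A B : ℤ} (hA : A ≠ 0) (hB : B ≠ 0) (hAB : A ≠ B)
    {P P' : Pt (E A B) QB} (hP : P ∈ Ms (rG (E A B)) χ) (hP' : P' ∈ Ms (rG (E A B)) χ)
    {e : ℤ × ℤ} (h1 : Att D A B P e) (h2 : Att D A B P' e) :
    ∃ R ∈ Ms (rG (E A B)) χ, P - P' = R - rG (E A B) g R := by
  obtain ⟨a1, a2, a3⟩ := ne_of hA hB hAB
  have hinj : Function.Injective (algebraMap ℚ QB) := (algebraMap ℚ QB).injective
  obtain ⟨Q, hQ, -, -, b1, b2⟩ := h1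
  obtain ⟨Q', hQ', -, -, c1, c2⟩ := h2
  obtain ⟨s, hs⟩ := IsAlgClosed.exists_pow_nat_eq (e.1 : QB) (n := 2) (by norm_num)
  obtain ⟨s', hs'⟩ := IsAlgClosed.exists_pow_nat_eq (e.2 : QB) (n := 2) (by norm_num)
  have hkk : ∀ σ, D.kap (rG (E A B)) P Q σ = D.kap (rG (E A B)) P' Q' σ := fun σ =>
    ((isR_E A B).base QB).ext two_ne_zero (hinj.ne a1) (hinj.ne a2) (hinj.ne a3)
      (D.kap_tors hP hQ σ) (D.kap_tors hP' hQ' σ) ((b1 s hs σ).symm.trans (c1 s hs σ))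
      ((b2 s' hs' σ).symm.trans (c2 s' hs' σ))
  have hPP : P - P' ∈ Ms (rG (E A B)) χ := (Ms (rG (E A B)) χ).sub_mem hP hP'
  have hQQ : (Q - Q') + (Q - Q') = Sm (rG (E A B)) g h (P - P') := by
    rw [Sm_sub, ← hQ, ← hQ']
    abel
  obtain ⟨k1, k2⟩ := D.kap_ker hPP hQQ fun τ => by rw [kap_sub, hkk, sub_self]
  exact ⟨Q - Q', k1, k2⟩

end

section

variable {F : Type} [Field F] [NumberField F] [IsGalois ℚ F] {j : F →ₐ[ℚ] QB}
  {res : (QB ≃ₐ[ℚ] QB) →* (F ≃ₐ[ℚ] F)}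

variable {χ : (F ≃ₐ[ℚ] F) →* ℂˣ} {g : F ≃ₐ[ℚ] F} {g' : QB ≃ₐ[ℚ] QB} {ζ : ℂˣ} {h : ℕ}

/-- the data over `ℚ` -/
lemma dat_res (D : Dat χ g ζ h) (hg : res g' = g) : Dat (χ.comp res) g' ζ h where
  hg := by rw [MonoidHom.comp_apply, hg, D.hg]
  hz := D.hz
  h0 := D.h0
  hs := fun τ => D.hs (res τ)

/-- the character is determined by the values on a finite set -/
lemma exists_fin (hE : Em j res) : ∃ s : Finset QB, ∀ σ τ : QB ≃ₐ[ℚ] QB,
    (∀ x ∈ s, σ x = τ x) → res σ = res τ := by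
  let b := Module.finBasis ℚ F
  refine ⟨univ.image fun i => j (b i), fun σ τ h => ?_⟩
  have h1 : ∀ i, res σ (b i) = res τ (b i) := by
    intro i
    have h2 := h (j (b i)) (mem_image_of_mem _ (mem_univ i))
    rw [hE.com, hE.com] at h2
    exact j.injective h2
  have h3 : (res σ).toLinearMap = (res τ).toLinearMap := b.ext h1
  apply AlgEquiv.ext
  intro x
  exact LinearMap.congr_fun h3 x

variable {A B : ℤ} {M : Type} [AddCommGroup M] {ρ : (F ≃ₐ[ℚ] F) →* AddMonoid.End M}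
  {i : M →+ Pt (E A B) QB}

lemma ms_of (hi : PE res (E A B) ρ i) {P : M} (hP : P ∈ Ms ρ χ) :
    i P ∈ Ms (rG (E A B)) (χ.comp res) := by
  refine ⟨fun k hk => ?_, fun k hk => ?_⟩
  · rw [rG_apply, hi.eqv, hP.1 _ hk]
  · rw [rG_apply, hi.eqv, hP.2 _ hk, map_neg]

/-- **the dimension of the eigenspace is bounded by the number of the pairs** -/
theorem dim_pairs [Fintype (F ≃ₐ[ℚ] F)] {k : ℕ} (hE : Em j res) (D : Dat χ g ζ (2 ^ k)) (hg : res g' = g)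
    (hA : A ≠ 0) (hB : B ≠ 0) (hAB : A ≠ B) (hM : Module.Finite ℤ M) (hi : PE res (E A B) ρ i)
    {T : Set (ℤ × ℤ)} (hT : T.Finite)
    (h : ∀ P ∈ Ms ρ χ, ∀ e, Att (dat_res D hg) A B (i P) e → e ∈ T) :
    2 ^ Module.finrank ℂ (Eig ρ χ) ≤ T.ncard := by
  obtain ⟨s, hs⟩ := exists_fin hE
  have hex : ∀ P : M, ∃ e : ℤ × ℤ, P ∈ Ms ρ χ → Att (dat_res D hg) A B (i P) e := by
    intro P
    by_cases hP : P ∈ Ms ρ χ
    · obtain ⟨e, he⟩ := exists_att (dat_res D hg) hA hB hAB s (fun σ τ h => by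
        rw [MonoidHom.comp_apply, MonoidHom.comp_apply, hs σ τ h]) (ms_of hi hP)
      exact ⟨e, fun _ => he⟩
    · exact ⟨0, fun h => absurd h hP⟩
  choose K hK using hex
  refine dim_bound hM D K hT (fun P hP => h P hP _ (hK P hP)) fun P hP P' hP' hPP => ?_
  have h1 := hK P hP
  have h2 := hK P' hP'
  rw [← hPP] at h2
  obtain ⟨R, hR, hR'⟩ := att_inj (dat_res D hg) hA hB hAB (ms_of hi hP) (ms_of hi hP') h1 h2
  obtain ⟨R0, rfl⟩ := hi.fix R fun τ hτ => by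
    rw [← rG_apply]
    exact hR.1 τ (by rw [MonoidHom.comp_apply, hτ, map_one])
  refine ⟨R0, ⟨fun k hk => ?_, fun k hk => ?_⟩, ?_⟩
  · obtain ⟨k', rfl⟩ := hE.sur k
    apply hi.inj
    rw [← hi.eqv, ← rG_apply]
    exact hR.1 k' hk
  · obtain ⟨k', rfl⟩ := hE.sur k
    apply hi.inj
    rw [← hi.eqv, ← rG_apply, map_neg]
    exact hR.2 k' hk
  · apply hi.inj
    rw [map_sub, map_sub, hR', rG_apply, hi.eqv, hg]

end

end Run7.h318.CH
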