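import Pool.Agent.Run7.h318.CH.B1

/-!
# The square classes and the elements of the decomposition groups: the global part
-/

set_option autoImplicit false
set_option linter.all false

namespace Run7.h318.CH

open WeierstrassCurve Finset

open scoped Classical

open Pool.Agent.W262.SH (QB Pt act LocSol E)
open Pool.Agent.TH841.SH (IsR IsX gf act_gf isX_zero act_some act_inj act_act fix_mem)
open Run7.h318.SH (isR_E act_tors lc_of_fin exists_char)

section

variable {F : Type} [Field F] [NumberField F] [IsGalois ℚ F] {j : F →ₐ[ℚ] QB}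
  {res : (QB ≃ₐ[ℚ] QB) →* (F ≃ₐ[ℚ] F)}

variable {χ : (F ≃ₐ[ℚ] F) →* ℂˣ} {g' : QB ≃ₐ[ℚ] QB} {ζ : ℂˣ} {m : ℕ}

variable {W : WeierstrassCurve ℚ} {a b c : ℚ}

lemma nonsplit_aux (hE : Em j res) (D : Dat (χ.comp res) g' ζ (2 * m)) (hW : IsR W a b c)
    (hab : a ≠ b) (hac : a ≠ c) (hbc : b ≠ c) {P Q : Pt W QB}
    (hP : P ∈ Ms (rG W) (χ.comp res)) (hQ : Q + Q = Sm (rG W) g' (2 * m) P)
    {φ : QB ≃ₐ[ℚ] QB} (hφ : χ (res φ) = ζ ^ m) {e : ℤ}
    (he : ∀ s : QB, s ^ 2 = e → ∀ σ : QB ≃ₐ[ℚ] QB,
      σ s = s ↔ IsX (W.baseChange QB) (algebraMap ℚ QB a) (D.kap (rG W) P Q σ)) :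
    ∃ x y : F, x ≠ 0 ∧ (e : F) * x * (res φ x) = y ^ 2 := by
  have hinj : Function.Injective (algebraMap ℚ QB) := (algebraMap ℚ QB).injective
  have hB := hW.base QB
  have h2 : (2 : QB) ≠ 0 := two_ne_zero
  have hji : Function.Injective (fun x : F => j x) := j.toRingHom.injective
  have g1 : (χ.comp res) g' = ζ := D.hg
  set S' := Sm (rG W) g' m P with hS'
  have hS'm : S' ∈ Ms (rG W) (χ.comp res) := Sm_mem hP m
  obtain ⟨Q', hQ'⟩ := hB.div h2 (hinj.ne hab) (hinj.ne hac) (hinj.ne hbc) S'
  have hφS : rG W φ S' = rG W (g' ^ m) S' := act_eq hS'm (by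
    rw [map_pow, g1]
    exact hφ)
  have hQ2 : Q + Q = S' + rG W (g' ^ m) S' := by
    rw [hQ, two_mul, Sm_add_idx]
  obtain ⟨s, hs⟩ := IsAlgClosed.exists_pow_nat_eq (e : QB) (n := 2) (by norm_num)
  have hker : ∀ τ, res τ = 1 → (χ.comp res) τ = 1 := fun τ hτ => by
    rw [MonoidHom.comp_apply, hτ, map_one]
  by_cases hSS : S' + S' = 0
  · have hQ0 : Q + Q = 0 := by
      rw [hQ2, rG_apply, act_tors hW hSS, hSS]
    obtain ⟨y, hy⟩ := hE.fix s fun τ hτ => by
      rw [he s hs τ, D.kap_zero_one hP (hker τ hτ), rG_apply, act_tors hW hQ0, sub_self]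
      exact isX_zero _
    refine ⟨1, y, one_ne_zero, ?_⟩
    rw [map_one, mul_one, mul_one]
    apply hji
    beta_reduce
    rw [map_pow, hy, hs, map_intCast]
  · rcases Q' with _ | ⟨u, v, hn⟩
    · exfalso
      apply hSS
      have : S' = 0 := by rw [hQ']; exact add_zero 0
      rw [this, add_zero]
    have hv : v ≠ 0 := by
      intro hv
      apply hSS
      have : S' = 0 := by rw [hQ']; exact (hB.add_self h2 hn).2 hv
      rw [this, add_zero]
    obtain ⟨X, Y, hn', e1, hX⟩ := hB.dup h2 hn hv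
    have hS1 : S' = .some X Y hn' := hQ'.trans e1
    have hY : Y ≠ 0 := by
      intro hY
      apply hSS
      rw [hS1]
      exact (hB.add_self h2 hn').2 hY
    have hSfix : ∀ τ, res τ = 1 → τ X = X := by
      intro τ hτ
      have h3 := hS'm.1 τ (hker τ hτ)
      rw [hS1, rG_apply, act_some, Affine.Point.some.injEq] at h3
      exact h3.1
    obtain ⟨x0, hx0⟩ := hE.fix X hSfix
    set δ : QB := gf (W.baseChange QB) (algebraMap ℚ QB a) (algebraMap ℚ QB b)
      (algebraMap ℚ QB c) (.some u v hn) with hδ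
    have hδ2 : δ ^ 2 = j (x0 - algebraMap ℚ F a) := by
      rw [map_sub, hx0, AlgHom.commutes, hX]
      rfl
    have hx : x0 - algebraMap ℚ F a ≠ 0 := by
      intro h3
      have h4 : X - algebraMap ℚ QB a = 0 := by
        rw [← hx0, ← j.commutes, ← map_sub, h3, map_zero]
      have h9 := (hB.eqn X Y).1 hn'.1
      rw [h4, zero_mul, zero_mul] at h9
      exact hY (pow_eq_zero_iff two_ne_zero |>.1 h9)
    set x := x0 - algebraMap ℚ F a with hxd
    -- the action on `δ`
    have hsgn : ∀ τ, res τ = 1 → ((rG W τ (.some u v hn) - .some u v hn) +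
          (rG W τ (.some u v hn) - .some u v hn) = (0 : Pt W QB)) ∧
        (IsX (W.baseChange QB) (algebraMap ℚ QB a) (rG W τ (.some u v hn) - .some u v hn) →
          τ δ = δ) ∧
        (¬ IsX (W.baseChange QB) (algebraMap ℚ QB a) (rG W τ (.some u v hn) - .some u v hn) →
          τ δ = -δ) := by
      intro τ hτ
      set T : Pt W QB := rG W τ (.some u v hn) - .some u v hn with hT
      have hTT : T + T = 0 := by
        have h3 : T + T = rG W τ (.some u v hn + .some u v hn) - (.some u v hn + .some u v hn) := by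
          rw [map_add, hT]
          abel
        rw [h3, ← hQ', hS'm.1 τ (hker τ hτ), sub_self]
      obtain ⟨u', v', hn2, e2, hv', h3, h4⟩ := hB.sign h2 (hinj.ne hab) (hinj.ne hac)
        (hinj.ne hbc) hn hv hTT
      have e3 : (.some u v hn : Pt W QB) + T = rG W τ (.some u v hn) := by
        rw [hT]
        abel
      have e4 : τ δ = gf (W.baseChange QB) (algebraMap ℚ QB a) (algebraMap ℚ QB b)
          (algebraMap ℚ QB c) (.some u' v' hn2) := by
        have e5 : τ δ = gf (W.baseChange QB) (algebraMap ℚ QB a) (algebraMap ℚ QB b)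
          (algebraMap ℚ QB c) (act W τ.toAlgHom (.some u v hn)) :=
          act_gf (a := a) (b := b) (c := c) τ.toAlgHom (.some u v hn)
        rw [e5, ← rG_apply, ← e3]
        exact congrArg _ e2
      exact ⟨hTT, fun h5 => e4.trans (h3 h5), fun h5 => e4.trans (h4 h5)⟩
    -- the product is fixed
    have hfix : ∀ τ, res τ = 1 → τ (s * δ * φ δ) = s * δ * φ δ := by
      intro τ hτ
      set τ' := φ⁻¹ * τ * φ with hτ'
      have hτ'1 : res τ' = 1 := by
        rw [hτ', map_mul, map_mul, hτ, mul_one, ← map_mul, inv_mul_cancel, map_one]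
      obtain ⟨t1, t2, t3⟩ := hsgn τ hτ
      obtain ⟨t4, t5, t6⟩ := hsgn τ' hτ'1
      set T1 : Pt W QB := rG W τ (.some u v hn) - .some u v hn with hT1
      set T2 : Pt W QB := rG W τ' (.some u v hn) - .some u v hn with hT2
      have hφT : rG W φ T2 = T2 := by rw [rG_apply, act_tors hW t4]
      have hT2' : rG W τ (rG W φ (.some u v hn)) - rG W φ (.some u v hn) = T2 := by
        rw [← hφT, hT2, map_sub, ← rho_mul, ← rho_mul, hτ']
        congr 2
        group
      have hkap : D.kap (rG W) P Q τ = T1 + T2 := by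
        rw [D.kap_zero_one hP (hker τ hτ)]
        set U : Pt W QB := Q - (.some u v hn + rG W φ (.some u v hn)) with hU
        have hUU : U + U = 0 := by
          have h3 : U + U = (Q + Q) - ((.some u v hn + .some u v hn) +
              rG W φ (.some u v hn + .some u v hn)) := by
            rw [map_add, hU]
            abel
          rw [h3, hQ2, ← hQ', hφS, sub_self]
        have hQU : Q = (.some u v hn + rG W φ (.some u v hn)) + U := by
          rw [hU]
          abel
        have h3 : rG W τ U = U := by rw [rG_apply, act_tors hW hUU]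
        rw [hQU, map_add, map_add, h3, hT1, ← hT2']
        abel
      have hadd := hB.isX_add h2 (hinj.ne hab) (hinj.ne hac) (hinj.ne hbc) t1 t4
      have hes := he s hs τ
      rw [hkap] at hes
      have hs2 : τ s = s ∨ τ s = -s := by
        apply sq_eq_sq_iff_eq_or_eq_neg.1
        rw [← map_pow, hs, map_intCast]
      have hφδ : τ (φ δ) = φ (τ' δ) := by
        rw [hτ']
        exact (φ.apply_symm_apply (τ (φ δ))).symm
      have hs0 : ∀ {T : Pt W QB}, ¬ IsX (W.baseChange QB) (algebraMap ℚ QB a) T → True :=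
        fun _ => trivial
      rw [map_mul, map_mul, hφδ]
      by_cases h3 : IsX (W.baseChange QB) (algebraMap ℚ QB a) T1 <;>
        by_cases h4 : IsX (W.baseChange QB) (algebraMap ℚ QB a) T2
      · rw [t2 h3, t5 h4, hes.2 (hadd.2 ⟨fun _ => h4, fun _ => h3⟩)]
      · have h5 : τ s = -s := hs2.resolve_left fun h6 => h4 ((hadd.1 (hes.1 h6)).1 h3)
        rw [t2 h3, t6 h4, h5, map_neg]
        ring
      · have h5 : τ s = -s := hs2.resolve_left fun h6 => h3 ((hadd.1 (hes.1 h6)).2 h4)
        rw [t3 h3, t5 h4, h5]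
        ring
      · have h5 : τ s = s := hes.2 (hadd.2 ⟨fun h6 => absurd h6 h3, fun h6 => absurd h6 h4⟩)
        rw [t3 h3, t6 h4, h5, map_neg]
        ring
    obtain ⟨y, hy⟩ := hE.fix _ hfix
    refine ⟨x, y, hx, ?_⟩
    apply hji
    beta_reduce
    rw [map_pow, hy, map_mul, map_mul, map_intCast, ← hE.com, ← hδ2, ← hs, map_pow]
    ring

end

end Run7.h318.CH
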