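import Pool.Agent.Run7.h318.CH.B1
import Pool.Agent.Y700.ShaVC

/-!
# The twisted local conditions
-/

set_option autoImplicit false
set_option linter.all false

namespace Run7.h318.CH

open WeierstrassCurve Finset

open scoped Classical

open Pool.Agent.W262.SH (QB Pt act LocSol E LocTriv)
open Pool.Agent.TH841.SH (IsR IsX gf act_gf isX_zero isX_some not_isX act_some act_inj act_act fix_mem)
open Run7.h318.SH (isR_E act_tors loc_cond)
open Pool.Agent.Y700 (VR dL nonsing)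

lemma delta_E {A B : ℤ} (hA : A ≠ 0) (hB : B ≠ 0) (hAB : A ≠ B) : (E A B).Δ ≠ 0 := by
  have e : (E A B).Δ = 16 * (((A * B * (A - B) : ℤ)) : ℚ) ^ 2 := by
    simp only [WeierstrassCurve.Δ, WeierstrassCurve.b₂, WeierstrassCurve.b₄,
      WeierstrassCurve.b₆, WeierstrassCurve.b₈, E]
    push_cast
    ring
  rw [e]
  exact mul_ne_zero (by norm_num) (pow_ne_zero 2 (by
    exact_mod_cast mul_ne_zero (mul_ne_zero hA hB) (sub_ne_zero.2 hAB)))

section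

variable {A B u : ℤ} {L : Type} [Field L] [Algebra ℚ L]

/-- the twist -/
lemma tw {w : L} (hw : w ^ 2 = u) (hw0 : w ≠ 0) :
    VR ((E (u * A) (u * B)).baseChange L) ((E A B).baseChange L) w 0 0 0 where
  u0 := hw0
  e1 := by
    show w * algebraMap ℚ L 0 = algebraMap ℚ L 0 + 2 * 0
    simp
  e2 := by
    show w ^ 2 * algebraMap ℚ L (-((A : ℚ) + B)) = algebraMap ℚ L (-(((u * A : ℤ) : ℚ) +
      ((u * B : ℤ) : ℚ))) - 0 * algebraMap ℚ L 0 + 3 * 0 - 0 ^ 2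
    rw [hw]
    push_cast
    simp only [map_neg, map_add, map_mul, map_intCast, map_zero]
    ring
  e3 := by
    show w ^ 3 * algebraMap ℚ L 0 = algebraMap ℚ L 0 + 0 * algebraMap ℚ L 0 + 2 * 0
    simp
  e4 := by
    show w ^ 4 * algebraMap ℚ L ((A : ℚ) * B) = algebraMap ℚ L (((u * A : ℤ) : ℚ) *
      ((u * B : ℤ) : ℚ)) - 0 * algebraMap ℚ L 0 + 2 * 0 * algebraMap ℚ L (-(((u * A : ℤ) : ℚ) +
      ((u * B : ℤ) : ℚ))) - (0 + 0 * 0) * algebraMap ℚ L 0 + 3 * 0 ^ 2 - 2 * 0 * 0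
    have e : w ^ 4 = (u : L) ^ 2 := by rw [← hw]; ring
    rw [e]
    push_cast
    simp only [map_neg, map_add, map_mul, map_intCast, map_zero]
    ring
  e6 := by
    show w ^ 6 * algebraMap ℚ L 0 = algebraMap ℚ L 0 + 0 * algebraMap ℚ L (((u * A : ℤ) : ℚ) *
      ((u * B : ℤ) : ℚ)) + 0 ^ 2 * algebraMap ℚ L (-(((u * A : ℤ) : ℚ) +
      ((u * B : ℤ) : ℚ))) + 0 ^ 3 - 0 * algebraMap ℚ L 0 - 0 ^ 2 - 0 * 0 * algebraMap ℚ L 0
    simp

/-- the twist of the points -/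
noncomputable def psi (hD : (E A B).Δ ≠ 0) {w : L} (hw : w ^ 2 = u) (hw0 : w ≠ 0) :
    Pt (E A B) L ≃+ Pt (E (u * A) (u * B)) L :=
  (tw (A := A) (B := B) hw hw0).equiv (dL hD L)

lemma psi_some (hD : (E A B).Δ ≠ 0) {w : L} (hw : w ^ 2 = u) (hw0 : w ≠ 0) {x y : L}
    (hn : ((E A B).baseChange L).toAffine.Nonsingular x y) :
    psi hD hw hw0 (.some x y hn) = .some (w ^ 2 * x + 0) (w ^ 3 * y + w ^ 2 * 0 * x + 0)
      (nonsing ((tw (A := A) (B := B) hw hw0).delta_ne (dL hD L))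
        ((tw (A := A) (B := B) hw hw0).eqn.2 hn.1)) := rfl

lemma psi_act (hD : (E A B).Δ ≠ 0) {L' : Type} [Field L'] [Algebra ℚ L'] (φ : L →ₐ[ℚ] L')
    {w : L} (hw : w ^ 2 = u) (hw0 : w ≠ 0) {w' : L'} (hw' : w' ^ 2 = u) (hw0' : w' ≠ 0)
    (hww : φ w = w') (P : Pt (E A B) L) :
    act (E (u * A) (u * B)) φ (psi hD hw hw0 P) = psi hD hw' hw0' (act (E A B) φ P) := by
  subst hww
  rcases P with _ | ⟨x, y, hn⟩
  · have e1 : psi hD hw hw0 (0 : Pt (E A B) L) = 0 := map_zero _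
    have e2 : act (E A B) φ (0 : Pt (E A B) L) = 0 := map_zero _
    show act (E (u * A) (u * B)) φ (psi hD hw hw0 (0 : Pt (E A B) L)) =
      psi hD hw' hw0' (act (E A B) φ (0 : Pt (E A B) L))
    rw [e1, e2, map_zero, map_zero]
  · rw [psi_some, act_some, act_some, psi_some, Affine.Point.some.injEq]
    constructor
    · rw [map_add, map_mul, map_pow, map_zero]
    · rw [map_add, map_add, map_mul, map_mul, map_mul, map_pow, map_pow, map_zero]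

lemma psi_neg (hD : (E A B).Δ ≠ 0) {w : L} (hw : w ^ 2 = u) (hw0 : w ≠ 0) {w' : L}
    (hw' : w' ^ 2 = u) (hw0' : w' ≠ 0) (hww : w' = -w) (P : Pt (E A B) L) :
    psi hD hw' hw0' P = -psi hD hw hw0 P := by
  subst hww
  rcases P with _ | ⟨x, y, hn⟩
  · have e1 : psi hD hw hw0 (0 : Pt (E A B) L) = 0 := map_zero _
    have e2 : psi hD hw' hw0' (0 : Pt (E A B) L) = 0 := map_zero _
    show psi hD hw' hw0' (0 : Pt (E A B) L) = -psi hD hw hw0 (0 : Pt (E A B) L)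
    rw [e1, e2, neg_zero]
  · rw [psi_some, psi_some, Affine.Point.neg_some, Affine.Point.some.injEq]
    have h := ((isR_E (u * A) (u * B)).base L).negY (w ^ 2 * x + 0) (w ^ 3 * y + w ^ 2 * 0 * x + 0)
    constructor
    · ring
    · refine Eq.trans ?_ h.symm
      ring

lemma isX_iff {K : Type*} [Field K] {W : WeierstrassCurve K} {e x y : K}
    (hn : W.toAffine.Nonsingular x y) : IsX W e (.some x y hn) ↔ x = e := by
  constructor
  · intro h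
    by_contra hne
    exact not_isX hn hne h
  · rintro rfl
    exact isX_some hn

lemma psi_isX (hD : (E A B).Δ ≠ 0) {w : L} (hw : w ^ 2 = u) (hw0 : w ≠ 0) {e e' : ℚ}
    (he : e' = u * e) (T : Pt (E A B) L) :
    IsX ((E (u * A) (u * B)).baseChange L) (algebraMap ℚ L e') (psi hD hw hw0 T) ↔
      IsX ((E A B).baseChange L) (algebraMap ℚ L e) T := by
  rcases T with _ | ⟨x, y, hn⟩
  · have e1 : psi hD hw hw0 (0 : Pt (E A B) L) = 0 := map_zero _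
    show IsX ((E (u * A) (u * B)).baseChange L) (algebraMap ℚ L e')
      (psi hD hw hw0 (0 : Pt (E A B) L)) ↔ IsX ((E A B).baseChange L) (algebraMap ℚ L e) 0
    rw [e1]
    exact ⟨fun _ => isX_zero _, fun _ => isX_zero _⟩
  · rw [psi_some, isX_iff, isX_iff, he, map_mul, map_intCast, add_zero, ← hw]
    exact ⟨fun h => mul_left_cancel₀ (pow_ne_zero 2 hw0) h, fun h => by rw [h]⟩

lemma psi_tors (hD : (E A B).Δ ≠ 0) {w : L} (hw : w ^ 2 = u) (hw0 : w ≠ 0) {w' : L}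
    (hw' : w' ^ 2 = u) (hw0' : w' ≠ 0) {T : Pt (E A B) L} (hT : T + T = 0) :
    psi hD hw' hw0' T = psi hD hw hw0 T := by
  have h1 : w' ^ 2 = w ^ 2 := by rw [hw, hw']
  rcases sq_eq_sq_iff_eq_or_eq_neg.1 h1 with h2 | h2
  · subst h2
    rfl
  · rw [psi_neg hD hw hw0 hw' hw0' h2]
    apply neg_eq_of_add_eq_zero_left
    rw [← map_add, hT, map_zero]

end

/-- the twisted homomorphism is locally trivial -/
lemma split_loc {χ : (QB ≃ₐ[ℚ] QB) →* ℂˣ} {g : QB ≃ₐ[ℚ] QB} {ζ : ℂˣ} {h : ℕ}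
    (D : Dat χ g ζ h) (K : Type) [Field K] [Algebra ℚ K] {A B u : ℤ} (hD : (E A B).Δ ≠ 0)
    (huL : ((u : ℤ) : AlgebraicClosure K) ≠ 0) {P Q : Pt (E A B) QB}
    (hP : P ∈ Ms (rG (E A B)) χ) (hQ : Q + Q = Sm (rG (E A B)) g h P) {w0 : QB}
    (hw0 : w0 ^ 2 = u) (hw00 : w0 ≠ 0)
    (hw : ∀ ι : QB →ₐ[ℚ] AlgebraicClosure K, ∃ w : AlgebraicClosure K, w ^ 2 = u ∧
      ∀ (τ : AlgebraicClosure K ≃ₐ[K] AlgebraicClosure K) (σ : QB ≃ₐ[ℚ] QB),
      (τ.toAlgHom.restrictScalars ℚ).comp ι = ι.comp σ.toAlgHom →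
      (χ σ = 1 ∧ τ w = w) ∨ (χ σ = -1 ∧ τ w = -w)) :
    LocTriv (E (u * A) (u * B)) K (fun σ => psi hD hw0 hw00 (D.kap (rG (E A B)) P Q σ)) := by
  set κ := D.kap (rG (E A B)) P Q with hκ
  have hκ2 : ∀ σ, κ σ + κ σ = 0 := D.kap_tors hP hQ
  intro ι
  obtain ⟨w, hw2, hwa⟩ := hw ι
  have hwz : w ≠ 0 := by
    rintro rfl
    apply huL
    rw [← hw2]
    ring
  have hι0 : (ι w0) ^ 2 = u := by rw [← map_pow, hw0, map_intCast]
  have hι1 : ι w0 ≠ 0 := by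
    intro h0
    rw [h0] at hι0
    apply huL
    rw [← hι0]
    ring
  refine ⟨psi hD hw2 hwz (act (E A B) ι Q), fun τ σ hτ => ?_⟩
  have k1 : act (E (u * A) (u * B)) ι (psi hD hw0 hw00 (κ σ)) =
      psi hD hw2 hwz (act (E A B) ι (κ σ)) := by
    rw [psi_act hD ι hw0 hw00 hι0 hι1 rfl]
    apply psi_tors
    rw [← map_add, hκ2, map_zero]
  have k2 : act (E A B) (τ.toAlgHom.restrictScalars ℚ) (act (E A B) ι Q) =
      act (E A B) ι (act (E A B) σ.toAlgHom Q) := by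
    rw [act_act, act_act, hτ]
  have hτw2 : (τ w) ^ 2 = u := by rw [← map_pow, hw2, map_intCast]
  have hτw0 : τ w ≠ 0 := by
    intro h0
    rw [h0] at hτw2
    apply huL
    rw [← hτw2]
    ring
  have k3 : act (E (u * A) (u * B)) (τ.toAlgHom.restrictScalars ℚ)
      (psi hD hw2 hwz (act (E A B) ι Q)) =
      psi hD hτw2 hτw0 (act (E A B) ι (act (E A B) σ.toAlgHom Q)) := by
    rw [psi_act hD (τ.toAlgHom.restrictScalars ℚ) hw2 hwz hτw2 hτw0 rfl, k2]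
  show act (E (u * A) (u * B)) ι (psi hD hw0 hw00 (κ σ)) = _
  rw [k1, k3]
  rcases hwa τ σ hτ with ⟨c1, c2⟩ | ⟨c1, c2⟩
  · have e1 : κ σ = act (E A B) σ.toAlgHom Q - Q := by
      rw [hκ, D.kap_zero_one hP c1, rG_apply]
    have e2 : psi hD hτw2 hτw0 (act (E A B) ι (act (E A B) σ.toAlgHom Q)) =
        psi hD hw2 hwz (act (E A B) ι (act (E A B) σ.toAlgHom Q)) := by
      congr 1
      simp only [c2]
    rw [e2, ← map_sub, ← map_sub, ← e1]
  · have e1 : κ σ = act (E A B) σ.toAlgHom Q + Q := by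
      rw [hκ, D.kap_neg hP hQ c1, rG_apply]
    rw [psi_neg hD hw2 hwz hτw2 hτw0 c2]
    have e3 : -psi hD hw2 hwz (act (E A B) ι (act (E A B) σ.toAlgHom Q)) -
        psi hD hw2 hwz (act (E A B) ι Q) = -psi hD hw2 hwz (act (E A B) ι (κ σ)) := by
      rw [e1, map_add, map_add]
      abel
    rw [e3]
    apply eq_neg_of_add_eq_zero_left
    rw [← map_add, ← map_add, hκ2, map_zero, map_zero]

/-- **the twisted local conditions** -/
theorem split_core {χ : (QB ≃ₐ[ℚ] QB) →* ℂˣ} {g : QB ≃ₐ[ℚ] QB} {ζ : ℂˣ} {h : ℕ}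
    (D : Dat χ g ζ h) {p : ℕ} [hp : Fact p.Prime] (hp2 : p ≠ 2) {A B u : ℤ} (hA : A ≠ 0)
    (hB : B ≠ 0) (hAB : A ≠ B) (hu : u ≠ 0) {P : Pt (E A B) QB} (hP : P ∈ Ms (rG (E A B)) χ)
    {e : ℤ × ℤ} (hatt : Att D A B P e)
    (hw : ∀ ι : QB →ₐ[ℚ] AlgebraicClosure ℚ_[p], ∃ w : AlgebraicClosure ℚ_[p], w ^ 2 = u ∧
      ∀ (τ : AlgebraicClosure ℚ_[p] ≃ₐ[ℚ_[p]] AlgebraicClosure ℚ_[p]) (σ : QB ≃ₐ[ℚ] QB),
      (τ.toAlgHom.restrictScalars ℚ).comp ι = ι.comp σ.toAlgHom →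
      (χ σ = 1 ∧ τ w = w) ∨ (χ σ = -1 ∧ τ w = -w)) :
    LocSol p (u * A) (u * B) e.1 e.2 := by
  obtain ⟨Q, hQ, he1, he2, hs1, hs2⟩ := hatt
  have hD := delta_E hA hB hAB
  have huQ : ((u : ℤ) : QB) ≠ 0 := by exact_mod_cast hu
  have huL : ((u : ℤ) : AlgebraicClosure ℚ_[p]) ≠ 0 := by exact_mod_cast hu
  obtain ⟨w0, hw0⟩ := IsAlgClosed.exists_pow_nat_eq (u : QB) (n := 2) (by norm_num)
  have hw00 : w0 ≠ 0 := by
    rintro rfl
    apply huQ
    rw [← hw0]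
    ring
  have hκ2 : ∀ σ, D.kap (rG (E A B)) P Q σ + D.kap (rG (E A B)) P Q σ = 0 := D.kap_tors hP hQ
  refine loc_cond hp2 (mul_ne_zero hu hA) (mul_ne_zero hu hB)
    (fun h => hAB (mul_left_cancel₀ hu h))
    (h := fun σ => psi hD hw0 hw00 (D.kap (rG (E A B)) P Q σ)) (fun σ => by
      rw [← map_add, hκ2, map_zero]) (split_loc D ℚ_[p] hD huL hP hQ hw0 hw00 hw) he1 he2
    (fun s hs σ => ?_) (fun s hs σ => ?_)
  · rw [hs1 s hs σ]
    exact (psi_isX hD hw0 hw00 (by ring) _).symm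
  · rw [hs2 s hs σ]
    exact (psi_isX hD hw0 hw00 (by push_cast; ring) _).symm

end Run7.h318.CH
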