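import Mathlib

/-!
# The norm on the algebraic closure of `ℚ_p` and number fields unramified at `p`
-/

set_option autoImplicit false
set_option linter.all false

namespace Run7.h318.CH

open Finset Polynomial NumberField

section

variable {p : ℕ} [hp : Fact p.Prime]

variable (p) in
/-- the norm on the algebraic closure -/
noncomputable def nm (x : AlgebraicClosure ℚ_[p]) : ℝ := ‖(x : PadicAlgCl p)‖

lemma nm_mul (x y : AlgebraicClosure ℚ_[p]) : nm p (x * y) = nm p x * nm p y :=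
  norm_mul (α := PadicAlgCl p) x y

lemma nm_pow (x : AlgebraicClosure ℚ_[p]) (n : ℕ) : nm p (x ^ n) = nm p x ^ n :=
  norm_pow (α := PadicAlgCl p) x n

lemma nm_zero : nm p 0 = 0 := norm_zero (E := PadicAlgCl p)

lemma nm_one : nm p 1 = 1 := norm_one (α := PadicAlgCl p)

lemma nm_nonneg (x : AlgebraicClosure ℚ_[p]) : 0 ≤ nm p x := norm_nonneg (E := PadicAlgCl p) x

lemma nm_pos {x : AlgebraicClosure ℚ_[p]} (hx : x ≠ 0) : 0 < nm p x :=
  norm_pos_iff (E := PadicAlgCl p) |>.2 hx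

lemma nm_add (x y : AlgebraicClosure ℚ_[p]) : nm p (x + y) ≤ max (nm p x) (nm p y) :=
  PadicAlgCl.isNonarchimedean p x y

lemma nm_alg (x : ℚ_[p]) : nm p (algebraMap ℚ_[p] (AlgebraicClosure ℚ_[p]) x) = ‖x‖ :=
  PadicAlgCl.norm_extends p x

lemma nm_tau (τ : AlgebraicClosure ℚ_[p] ≃ₐ[ℚ_[p]] AlgebraicClosure ℚ_[p])
    (x : AlgebraicClosure ℚ_[p]) : nm p (τ x) = nm p x :=
  (spectralNorm_eq_of_equiv (K := ℚ_[p]) (L := AlgebraicClosure ℚ_[p]) τ x).symm

lemma nm_int_cast (n : ℤ) : nm p (n : AlgebraicClosure ℚ_[p]) ≤ 1 := by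
  have := nm_alg (p := p) (n : ℚ_[p])
  rw [map_intCast] at this
  rw [this]
  exact Padic.norm_int_le_one n

lemma nm_sum {ι : Type*} (s : Finset ι) (f : ι → AlgebraicClosure ℚ_[p]) {M : ℝ} (hM : 0 ≤ M)
    (h : ∀ i ∈ s, nm p (f i) ≤ M) : nm p (∑ i ∈ s, f i) ≤ M := by
  classical
  induction s using Finset.induction_on with
  | empty => rw [sum_empty, nm_zero]; exact hM
  | insert a s ha ih =>
    rw [sum_insert ha]
    exact (nm_add _ _).trans (max_le (h a (mem_insert_self _ _))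
      (ih fun i hi => h i (mem_insert_of_mem hi)))

/-- integral elements -/
lemma nm_integral {x : AlgebraicClosure ℚ_[p]} (hx : IsIntegral ℤ x) : nm p x ≤ 1 := by
  obtain ⟨P, hP, hPx⟩ := hx
  by_contra hcon
  push Not at hcon
  have h1 : x ^ P.natDegree = -∑ i ∈ range P.natDegree,
      ((P.coeff i : ℤ) : AlgebraicClosure ℚ_[p]) * x ^ i := by
    have h2 := hPx
    rw [eval₂_eq_sum_range, sum_range_succ, hP.coeff_natDegree, map_one, one_mul] at h2
    have h3 : ∀ i, (algebraMap ℤ (AlgebraicClosure ℚ_[p])) (P.coeff i) =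
        ((P.coeff i : ℤ) : AlgebraicClosure ℚ_[p]) := fun i => eq_intCast _ _
    simp only [h3] at h2
    exact eq_neg_of_add_eq_zero_right h2
  rcases Nat.eq_zero_or_pos P.natDegree with h0 | h0
  · rw [h0, pow_zero, range_zero, sum_empty, neg_zero] at h1
    exact one_ne_zero h1
  have h2 : nm p (x ^ P.natDegree) ≤ nm p x ^ (P.natDegree - 1) := by
    rw [h1]
    have h3 : nm p (-∑ i ∈ range P.natDegree,
        ((P.coeff i : ℤ) : AlgebraicClosure ℚ_[p]) * x ^ i) = nm p (∑ i ∈ range P.natDegree,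
        ((P.coeff i : ℤ) : AlgebraicClosure ℚ_[p]) * x ^ i) := norm_neg (E := PadicAlgCl p) _
    rw [h3]
    refine nm_sum _ _ (by positivity) fun i hi => ?_
    rw [mem_range] at hi
    rw [nm_mul, nm_pow]
    calc nm p ((P.coeff i : ℤ) : AlgebraicClosure ℚ_[p]) * nm p x ^ i ≤ 1 * nm p x ^ i :=
          mul_le_mul_of_nonneg_right (nm_int_cast _) (pow_nonneg (nm_nonneg _) _)
      _ ≤ _ := by
        rw [one_mul]
        exact pow_le_pow_right₀ hcon.le (by omega)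
  rw [nm_pow] at h2
  have h4 : nm p x ^ (P.natDegree - 1) < nm p x ^ P.natDegree :=
    pow_lt_pow_right₀ hcon (by omega)
  linarith

variable {F : Type} [Field F] [NumberField F]

/-- **the values of the norm, unramified case** -/
theorem val_unr (k : F →+* AlgebraicClosure ℚ_[p])
    (hunr : ∀ 𝔭 : Ideal (𝓞 F), 𝔭.IsPrime → (p : 𝓞 F) ∉ 𝔭 ^ 2) {x : F} (hx : x ≠ 0) :
    ∃ n : ℤ, nm p (k x) = (p : ℝ) ^ n := by
  have hp1 : 1 < (p : ℝ) := by exact_mod_cast hp.out.one_lt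
  have hp0 : (p : ℝ) ≠ 0 := by linarith
  let K0 : 𝓞 F →+* AlgebraicClosure ℚ_[p] := k.comp (algebraMap (𝓞 F) F)
  have hK0 : ∀ a : 𝓞 F, k (algebraMap (𝓞 F) F a) = K0 a := fun a => rfl
  have hint : ∀ a : 𝓞 F, nm p (K0 a) ≤ 1 := fun a =>
    nm_integral (map_isIntegral_int K0 (RingOfIntegers.isIntegral a))
  let 𝔭 : Ideal (𝓞 F) :=
    { carrier := {a | nm p (K0 a) < 1}
      zero_mem' := by
        show nm p (K0 (0 : 𝓞 F)) < 1
        rw [map_zero, nm_zero]
        exact one_pos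
      add_mem' := by
        intro a b ha hb
        show nm p (K0 (a + b : 𝓞 F)) < 1
        rw [map_add]
        exact (nm_add _ _).trans_lt (max_lt ha hb)
      smul_mem' := by
        intro c a ha
        show nm p (K0 (c * a : 𝓞 F)) < 1
        rw [map_mul, nm_mul]
        have h1 : nm p (K0 a) < 1 := ha
        have h2 := hint c
        have h3 := nm_nonneg (p := p) (K0 a)
        nlinarith [nm_nonneg (p := p) (K0 c)] }
  have hmem : ∀ a : 𝓞 F, a ∈ 𝔭 ↔ nm p (K0 a) < 1 := fun a => Iff.rfl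
  have hone : ∀ a : 𝓞 F, a ∉ 𝔭 → nm p (K0 a) = 1 := by
    intro a ha
    rw [hmem, not_lt] at ha
    exact le_antisymm (hint a) ha
  have hprime : 𝔭.IsPrime := by
    refine ⟨?_, ?_⟩
    · rw [Ne, Ideal.eq_top_iff_one, hmem, map_one, nm_one]
      exact lt_irrefl _
    · intro a b hab
      by_contra hcon
      push Not at hcon
      rw [hmem, map_mul, nm_mul, hone a hcon.1, hone b hcon.2, mul_one] at hab
      exact lt_irrefl _ hab
  have hpn : nm p (K0 (p : 𝓞 F)) = (p : ℝ)⁻¹ := by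
    have h1 : K0 (p : 𝓞 F) = algebraMap ℚ_[p] (AlgebraicClosure ℚ_[p]) (p : ℚ_[p]) := by
      rw [map_natCast, map_natCast]
    rw [h1, nm_alg, Padic.norm_p]
  have hpm : (p : 𝓞 F) ∈ 𝔭 := by
    rw [hmem, hpn]
    exact inv_lt_one_of_one_lt₀ hp1
  obtain ⟨J, hJ⟩ := Ideal.dvd_iff_le.2 (show Ideal.span {(p : 𝓞 F)} ≤ 𝔭 from by
    rw [Ideal.span_singleton_le_iff_mem]
    exact hpm)
  have hJn : ¬ J ≤ 𝔭 := by
    intro h
    apply hunr 𝔭 hprime
    rw [pow_two]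
    have h1 : (p : 𝓞 F) ∈ 𝔭 * J := by
      rw [← hJ]
      exact Ideal.mem_span_singleton_self _
    exact Ideal.mul_mono_right h h1
  obtain ⟨j, hjJ, hj⟩ := SetLike.not_le_iff_exists.1 hJn
  have key : ∀ (n : ℕ) (a : 𝓞 F), ((p : ℝ)⁻¹) ^ n < nm p (K0 a) →
      ∃ m : ℤ, nm p (K0 a) = (p : ℝ) ^ m := by
    intro n
    induction n with
    | zero =>
      intro a ha
      rw [pow_zero] at ha
      exact absurd (hint a) (not_le.2 ha)
    | succ n ih =>
      intro a ha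
      by_cases h1 : a ∈ 𝔭
      · have h2 : a * j ∈ Ideal.span {(p : 𝓞 F)} := by
          rw [hJ]
          exact Ideal.mul_mem_mul h1 hjJ
        obtain ⟨b, hb⟩ := Ideal.mem_span_singleton.1 h2
        have h3 : nm p (K0 a) = (p : ℝ)⁻¹ * nm p (K0 b) := by
          have h4 := congrArg (fun z : 𝓞 F => nm p (K0 z)) hb
          simp only [map_mul, nm_mul] at h4
          rw [hone j hj, mul_one, hpn] at h4
          exact h4
        have h5 : ((p : ℝ)⁻¹) ^ n < nm p (K0 b) := by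
          rw [h3, pow_succ'] at ha
          exact lt_of_mul_lt_mul_left ha (by positivity)
        obtain ⟨m, hm⟩ := ih b h5
        refine ⟨m - 1, ?_⟩
        rw [h3, hm, zpow_sub₀ hp0, zpow_one, div_eq_mul_inv, mul_comm]
      · exact ⟨0, by rw [hone a h1, zpow_zero]⟩
  have key2 : ∀ a : 𝓞 F, algebraMap (𝓞 F) F a ≠ 0 → ∃ m : ℤ, nm p (K0 a) = (p : ℝ) ^ m := by
    intro a ha
    have h1 : 0 < nm p (K0 a) := nm_pos ((map_ne_zero k).2 ha)
    obtain ⟨n, hn⟩ := exists_pow_lt_of_lt_one h1 (inv_lt_one_of_one_lt₀ hp1)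
    exact key n a hn
  obtain ⟨a, b, hb, hab⟩ := IsFractionRing.div_surjective (A := 𝓞 F) x
  have hb0 : (algebraMap (𝓞 F) F b) ≠ 0 := by
    intro h
    apply nonZeroDivisors.ne_zero hb
    exact (FaithfulSMul.algebraMap_eq_zero_iff (𝓞 F) F).1 h
  have ha0 : (algebraMap (𝓞 F) F a) ≠ 0 := by
    intro h
    apply hx
    rw [← hab, h, zero_div]
  obtain ⟨m1, h1⟩ := key2 a ha0
  obtain ⟨m2, h2⟩ := key2 b hb0
  refine ⟨m1 - m2, ?_⟩
  have h3 : nm p (k x) * nm p (K0 b) = nm p (K0 a) := by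
    rw [← hK0, ← hK0, ← nm_mul, ← map_mul, ← hab, div_mul_cancel₀ _ hb0]
  rw [h1, h2] at h3
  rw [zpow_sub₀ hp0]
  exact eq_div_of_mul_eq (zpow_ne_zero _ hp0) h3

end

/-- almost all the primes are unramified -/
theorem exists_unr (F : Type) [Field F] [NumberField F] : ∃ N : ℕ, ∀ p : ℕ, N < p → p.Prime →
    ∀ 𝔭 : Ideal (𝓞 F), 𝔭.IsPrime → (p : 𝓞 F) ∉ 𝔭 ^ 2 := by
  refine ⟨(discr F).natAbs, fun p hpN hp 𝔭 h𝔭 hmem => ?_⟩
  have hp𝔭 : (p : 𝓞 F) ∈ 𝔭 := Ideal.pow_le_self two_ne_zero hmem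
  have : Fact p.Prime := ⟨hp⟩
  have hmax : (Ideal.span {(p : ℤ)}).IsMaximal := by
    apply PrincipalIdealRing.isMaximal_of_irreducible
    exact (Nat.prime_iff_prime_int.1 hp).irreducible
  have hne : Ideal.span {(p : ℤ)} ≠ ⊥ := by
    rw [Ne, Ideal.span_singleton_eq_bot]
    exact_mod_cast hp.ne_zero
  have h1 : 𝔭 ^ 2 ∣ (Ideal.span {(p : ℤ)}).map (algebraMap ℤ (𝓞 F)) := by
    rw [Ideal.dvd_iff_le, Ideal.map_span, Set.image_singleton, Ideal.span_singleton_le_iff_mem]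
    simpa using hmem
  have h2 := pow_sub_one_dvd_differentIdeal ℤ 𝔭 2 hne h1
  rw [show 2 - 1 = 1 from rfl, pow_one, Ideal.dvd_iff_le] at h2
  have h3 : ((discr F : ℤ) : 𝓞 F) ∈ 𝔭 := h2 (discr_mem_differentIdeal F (𝓞 F))
  have h0 : discr F ≠ 0 := discr_ne_zero F
  have hcop : IsCoprime (p : ℤ) (discr F) := by
    rw [Int.isCoprime_iff_gcd_eq_one]
    have h4 : Nat.Coprime p (discr F).natAbs := by
      rw [Nat.Prime.coprime_iff_not_dvd hp]
      intro h5
      have := Nat.le_of_dvd (Int.natAbs_pos.2 h0) h5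
      omega
    exact h4
  obtain ⟨a, b, hab⟩ := hcop
  apply h𝔭.ne_top
  rw [Ideal.eq_top_iff_one]
  have h6 : (1 : 𝓞 F) = (a : 𝓞 F) * (p : 𝓞 F) + (b : 𝓞 F) * ((discr F : ℤ) : 𝓞 F) := by
    exact_mod_cast congrArg (fun z : ℤ => (z : 𝓞 F)) hab.symm
  rw [h6]
  exact 𝔭.add_mem (𝔭.mul_mem_left _ hp𝔭) (𝔭.mul_mem_left _ h3)

end Run7.h318.CH
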