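import Mathlib

/-!
# The field of the squares of a character
-/

set_option autoImplicit false
set_option linter.all false

namespace Run7.h318.CH

open Finset Polynomial NumberField

section

variable {F : Type} [Field F] [NumberField F] [IsGalois ℚ F]

/-- an integral generator of the field fixed by the kernel of `χ ^ 2` -/
theorem exists_theta (χ : (F ≃ₐ[ℚ] F) →* ℂˣ) :
    ∃ θ : F, IsIntegral ℤ θ ∧ ∀ σ : F ≃ₐ[ℚ] F, σ θ = θ ↔ χ σ ^ 2 = 1 := by
  classical
  let H : Subgroup (F ≃ₐ[ℚ] F) := ((powMonoidHom 2).comp χ).ker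
  have hH : ∀ σ, σ ∈ H ↔ χ σ ^ 2 = 1 := fun σ => Iff.rfl
  let K := IntermediateField.fixedField H
  obtain ⟨α, hα⟩ := Field.exists_primitive_element ℚ K
  have halg : IsAlgebraic ℤ (α : F) := by
    have h1 : IsAlgebraic ℚ (α : F) := Algebra.IsAlgebraic.isAlgebraic _
    exact (IsFractionRing.isAlgebraic_iff ℤ ℚ F).2 h1
  obtain ⟨n, hn0, hn⟩ := halg.exists_integral_multiple
  have hn0' : (n : F) ≠ 0 := by exact_mod_cast hn0
  refine ⟨n • (α : F), hn, fun σ => ?_⟩
  have hsm : ∀ x : F, n • x = (n : F) * x := fun x => zsmul_eq_mul x n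
  have h1 : σ (n • (α : F)) = n • (α : F) ↔ σ (α : F) = (α : F) := by
    rw [hsm, map_mul, map_intCast]
    exact ⟨fun h => mul_left_cancel₀ hn0' h, fun h => by rw [h]⟩
  rw [h1, ← hH]
  constructor
  · intro h2
    have h3 : σ ∈ K.fixingSubgroup := by
      rw [IntermediateField.mem_fixingSubgroup_iff]
      intro x hx
      have h4 : (σ.toAlgHom.comp K.val) = K.val := by
        apply AlgHom.ext_of_adjoin_eq_top (s := {α})
        · have h5 := congrArg IntermediateField.toSubalgebra hα
          rw [IntermediateField.adjoin_simple_toSubalgebra_of_isAlgebraic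
            (Algebra.IsAlgebraic.isAlgebraic α)] at h5
          exact h5
        · intro y hy
          rw [Set.mem_singleton_iff] at hy
          subst hy
          exact h2
      exact DFunLike.congr_fun h4 (⟨x, hx⟩ : K)
    rwa [IntermediateField.fixingSubgroup_fixedField] at h3
  · intro h2
    exact α.2 ⟨σ, h2⟩

/-- an element of the field of `χ` on which the elements with `χ = ± 1` act by the sign -/
theorem exists_r (χ : (F ≃ₐ[ℚ] F) →* ℂˣ) :
    ∃ r : F, r ≠ 0 ∧ (∀ σ : F ≃ₐ[ℚ] F, χ σ = 1 → σ r = r) ∧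
      ∀ σ : F ≃ₐ[ℚ] F, χ σ = -1 → σ r = -r := by
  classical
  have hne : (1 : ℂˣ) ≠ -1 := by
    intro h
    have := congrArg (fun x : ℂˣ => (x : ℂ)) h
    norm_num at this
  set c : (F ≃ₐ[ℚ] F) → F := fun σ => if χ σ = 1 then 1 else if χ σ = -1 then -1 else 0 with hc
  have hex : ∃ x : F, ∑ σ : F ≃ₐ[ℚ] F, c σ * σ x ≠ 0 := by
    by_contra hcon
    push Not at hcon
    have hli := linearIndependent_monoidHom F F
    let ψ : (F ≃ₐ[ℚ] F) → (F →* F) := fun σ => (σ : F →+* F).toMonoidHom
    have hψ : Function.Injective ψ := by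
      intro σ τ h
      apply AlgEquiv.ext
      intro x
      exact DFunLike.congr_fun h x
    have h2 := hli.comp ψ hψ
    rw [Fintype.linearIndependent_iff] at h2
    have h3 := h2 c (by
      funext x
      rw [Finset.sum_apply]
      exact hcon x) 1
    rw [hc] at h3
    simp at h3
  obtain ⟨x, hx⟩ := hex
  refine ⟨_, hx, fun k hk => ?_, fun k hk => ?_⟩
  · rw [map_sum]
    refine Fintype.sum_equiv (Equiv.mulLeft k) _ _ fun σ => ?_
    show k (c σ * σ x) = c (k * σ) * (k * σ) x
    have h1 : c (k * σ) = c σ := by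
      rw [hc]
      simp only [map_mul, hk, one_mul]
    have h2 : k (c σ) = c σ := by
      rw [hc]
      simp only
      split_ifs
      · exact map_one k
      · rw [map_neg, map_one]
      · exact map_zero k
    rw [h1, map_mul, h2]
    rfl
  · rw [map_sum, ← Finset.sum_neg_distrib]
    refine Fintype.sum_equiv (Equiv.mulLeft k) _ _ fun σ => ?_
    show k (c σ * σ x) = -(c (k * σ) * (k * σ) x)
    have h1 : c (k * σ) = -c σ := by
      rw [hc]
      simp only [map_mul, hk, neg_one_mul]
      by_cases h3 : χ σ = 1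
      · rw [if_pos h3, if_neg (by rw [h3]; exact hne.symm), if_pos (by rw [h3])]
      · rw [if_neg h3]
        by_cases h4 : χ σ = -1
        · rw [if_pos h4, if_pos (by rw [h4, neg_neg]), neg_neg]
        · rw [if_neg h4, if_neg (fun h5 => h4 (by rw [← h5, neg_neg])),
            if_neg (fun h5 => h3 (neg_injective h5)), neg_zero]
    have h2 : k (c σ) = c σ := by
      rw [hc]
      simp only
      split_ifs
      · exact map_one k
      · rw [map_neg, map_one]
      · exact map_zero k
    rw [h1, map_mul, h2, neg_mul, neg_neg]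
    rfl

end

end Run7.h318.CH
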