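import Pool.Agent.Run7.h318.CH.B2
import Pool.Agent.Run7.h318.CH.B3
import Pool.Agent.Run7.h318.CH.B4
import Pool.Agent.Run7.h318.CH.B5
import Pool.Agent.Run7.h69.Defs

/-!
# The local conditions for the square classes of the points of the eigenlattice
-/

set_option autoImplicit false
set_option linter.all false

namespace Run7.h318.CH

open WeierstrassCurve Finset Polynomial NumberField

open scoped Classical

open Pool.Agent.W262.SH (QB Pt act LocSol E LocTriv)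
open Pool.Agent.TH841.SH (IsR IsX fix_mem exists_restr exists_emb)
open Run7.h318.SH (isR_E sq_near)

/-- restriction of automorphisms -/
lemma restr {K Ω : Type} [Field K] [Field Ω] [Algebra ℚ K] [Algebra K Ω] [Algebra ℚ Ω]
    [IsScalarTower ℚ K Ω] (ι : QB →+* Ω) (τ : Ω ≃ₐ[K] Ω) :
    ∃ σ : QB ≃ₐ[ℚ] QB, ∀ w, τ (ι w) = ι (σ w) := by
  let ι' : QB →ₐ[ℚ] Ω := { ι with
    commutes' := fun r =>
      DFunLike.congr_fun (Subsingleton.elim (ι.comp (algebraMap ℚ QB)) (algebraMap ℚ Ω)) r }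
  obtain ⟨σ, hσ⟩ := exists_restr ι' τ
  exact ⟨σ, fun w => DFunLike.congr_fun hσ w⟩

/-- two embeddings differ by an automorphism -/
lemma emb_conj {Ω : Type} [Field Ω] [Algebra ℚ Ω] (ι0 ι : QB →+* Ω) :
    ∃ γ : QB ≃ₐ[ℚ] QB, ∀ w, ι w = ι0 (γ w) := by
  letI : Algebra QB Ω := ι0.toAlgebra
  haveI : IsScalarTower ℚ QB Ω := IsScalarTower.of_algebraMap_eq (fun x =>
    (DFunLike.congr_fun (Subsingleton.elim (ι0.comp (algebraMap ℚ QB)) (algebraMap ℚ Ω)) x).symm)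
  let ι' : QB →ₐ[ℚ] Ω := { ι with
    commutes' := fun r =>
      DFunLike.congr_fun (Subsingleton.elim (ι.comp (algebraMap ℚ QB)) (algebraMap ℚ Ω)) r }
  refine ⟨ι'.restrictNormal' QB, fun w => ?_⟩
  exact (AlgHom.restrictNormal_commutes ι' QB w).symm

lemma sq_one {x : ℂˣ} (h : x ^ 2 = 1) : x = 1 ∨ x = -1 := by
  have h3 : ((x : ℂˣ) : ℂ) ^ 2 = 1 := by
    have := congrArg (fun x : ℂˣ => (x : ℂ)) h
    simpa using this
  rcases sq_eq_one_iff.1 h3 with h4 | h4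
  · exact Or.inl (Units.ext (by simpa using h4))
  · exact Or.inr (Units.ext (by simpa using h4))

section

variable {p : ℕ} [hp : Fact p.Prime]

/-- the value of an integral polynomial at an integer -/
lemma aeval_int (f : ℤ[X]) (a : ℤ) : aeval (a : ℤ_[p]) f = ((f.eval a : ℤ) : ℤ_[p]) := by
  have h := aeval_algebraMap_apply ℤ_[p] a f
  rw [eq_intCast, eq_intCast] at h
  rw [h]
  rfl

/-- Hensel's lemma -/
lemma hens {f : ℤ[X]} {a : ℤ} (h : (p : ℤ) ∣ f.eval a) (h' : ¬ (p : ℤ) ∣ f.derivative.eval a) :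
    ∃ z : ℤ_[p], aeval z f = 0 ∧ ∀ z' : ℤ_[p], aeval z' f = 0 → ‖z' - a‖ < 1 → z' = z := by
  have h1 : ‖aeval (a : ℤ_[p]) f.derivative‖ = 1 := by
    rw [aeval_int]
    have h2 := mt (PadicInt.norm_int_lt_one_iff_dvd (p := p) (f.derivative.eval a)).1 h'
    exact le_antisymm (PadicInt.norm_le_one _) (not_lt.1 h2)
  have h2 : ‖aeval (a : ℤ_[p]) f‖ < 1 := by
    rw [aeval_int]
    exact (PadicInt.norm_int_lt_one_iff_dvd _).2 h
  obtain ⟨z, hz1, -, -, hz4⟩ := hensels_lemma (F := f) (a := (a : ℤ_[p])) (by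
    rw [h1, one_pow]
    exact h2)
  rw [h1] at hz4
  exact ⟨z, hz1, hz4⟩

/-- the reduction of a root -/
lemma red_root {f : ℤ[X]} {z : ℤ_[p]} (hz : aeval z f = 0) :
    (p : ℤ) ∣ f.eval (z.zmodRepr : ℤ) := by
  have h1 : z - ((z.zmodRepr : ℤ) : ℤ_[p]) ∣ aeval z f - aeval (((z.zmodRepr : ℤ)) : ℤ_[p]) f := by
    have := sub_dvd_eval_sub z ((z.zmodRepr : ℤ) : ℤ_[p]) (f.map (algebraMap ℤ ℤ_[p]))
    rw [eval_map_algebraMap, eval_map_algebraMap] at this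
    exact this
  rw [hz, zero_sub, aeval_int] at h1
  obtain ⟨c, hc⟩ := h1
  rw [← PadicInt.norm_int_lt_one_iff_dvd, ← norm_neg, hc, norm_mul]
  have h2 := z.norm_sub_zmodRepr_lt_one
  have h3 : ‖z - ((z.zmodRepr : ℤ) : ℤ_[p])‖ < 1 := by
    rw [Int.cast_natCast]
    exact h2
  calc ‖z - ((z.zmodRepr : ℤ) : ℤ_[p])‖ * ‖c‖ ≤ ‖z - ((z.zmodRepr : ℤ) : ℤ_[p])‖ * 1 :=
        mul_le_mul_of_nonneg_left (PadicInt.norm_le_one _) (norm_nonneg _)
    _ < 1 := by rwa [mul_one]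

variable {F : Type} [Field F] [NumberField F] [IsGalois ℚ F] {j : F →ₐ[ℚ] QB}
  {res : (QB ≃ₐ[ℚ] QB) →* (F ≃ₐ[ℚ] F)} {χ : (F ≃ₐ[ℚ] F) →* ℂˣ} {θ : F}

lemma minpoly_q (hθ : IsIntegral ℤ θ) :
    minpoly ℚ θ = (minpoly ℤ θ).map (algebraMap ℤ ℚ) :=
  minpoly.isIntegrallyClosed_eq_field_fractions' ℚ hθ

/-- a root in a field is the image of a conjugate -/
lemma root_conj (hθ : IsIntegral ℤ θ) {Ω : Type} [Field Ω] (k : F →+* Ω) {α : Ω}
    (hα : eval₂ (Int.castRingHom Ω) α (minpoly ℤ θ) = 0) :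
    ∃ ρ : F ≃ₐ[ℚ] F, k (ρ θ) = α := by
  have hsp := Normal.splits (F := ℚ) (K := F) inferInstance θ
  have hm0 : (minpoly ℚ θ).map (algebraMap ℚ F) ≠ 0 :=
    Polynomial.map_ne_zero (minpoly.ne_zero (Algebra.IsIntegral.isIntegral θ))
  have he : ((minpoly ℚ θ).map (algebraMap ℚ F)).map k =
      (minpoly ℤ θ).map (Int.castRingHom Ω) := by
    rw [minpoly_q hθ, Polynomial.map_map, Polynomial.map_map]
    congr 1
    exact RingHom.ext_int _ _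
  have hr : (((minpoly ℚ θ).map (algebraMap ℚ F)).map k).IsRoot α := by
    rw [IsRoot.def, he, eval_map]
    exact hα
  obtain ⟨x, hx⟩ := hsp.mem_range_of_isRoot hm0 hr
  have hx0 : aeval x (minpoly ℚ θ) = 0 := by
    apply k.injective
    rw [map_zero, ← eval_map_algebraMap, ← eval_map_apply, hx]
    exact hr
  obtain ⟨ρ, hρ⟩ := minpoly.exists_algEquiv_of_root' (Algebra.IsAlgebraic.isAlgebraic θ) hx0
  exact ⟨ρ, by rw [hρ]; exact hx⟩

/-- the image of a root of the minimal polynomial -/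
lemma conj_root (hθ : IsIntegral ℤ θ) {Ω : Type} [Field Ω] (k : F →+* Ω) (ρ : F ≃ₐ[ℚ] F) :
    eval₂ (Int.castRingHom Ω) (k (ρ θ)) (minpoly ℤ θ) = 0 := by
  have h1 : aeval (ρ θ) (minpoly ℤ θ) = 0 := by
    have h2 : aeval (ρ θ) (minpoly ℚ θ) = 0 := by
      rw [← AlgEquiv.coe_toAlgHom ρ, aeval_algHom_apply, minpoly.aeval, map_zero]
    rw [minpoly_q hθ, aeval_map_algebraMap] at h2
    exact h2
  have h3 := congrArg k h1
  rw [map_zero, aeval_def, hom_eval₂] at h3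
  rw [← h3]
  congr 1
  exact RingHom.ext_int _ _

/-- the `p`-adic value of a polynomial -/
lemma eval_padic (f : ℤ[X]) (z : ℤ_[p]) : eval₂ (Int.castRingHom (AlgebraicClosure ℚ_[p]))
    (algebraMap ℚ_[p] (AlgebraicClosure ℚ_[p]) (z : ℚ_[p])) f =
      algebraMap ℚ_[p] (AlgebraicClosure ℚ_[p]) ((aeval z f : ℤ_[p]) : ℚ_[p]) := by
  have h1 : (algebraMap ℚ_[p] (AlgebraicClosure ℚ_[p])).comp (PadicInt.Coe.ringHom (p := p))
      (aeval z f) = eval₂ (((algebraMap ℚ_[p] (AlgebraicClosure ℚ_[p])).comp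
        (PadicInt.Coe.ringHom (p := p))).comp (algebraMap ℤ ℤ_[p]))
        (((algebraMap ℚ_[p] (AlgebraicClosure ℚ_[p])).comp (PadicInt.Coe.ringHom (p := p))) z) f := by
    rw [aeval_def, hom_eval₂]
  refine Eq.trans ?_ h1.symm
  congr 1

/-- the split primes -/
lemma chi_split (hE : Em j res) (hθ : IsIntegral ℤ θ)
    (hst : ∀ σ : F ≃ₐ[ℚ] F, σ θ = θ ↔ χ σ ^ 2 = 1) {a : ℤ}
    (ha : (p : ℤ) ∣ (minpoly ℤ θ).eval a) (ha' : ¬ (p : ℤ) ∣ (minpoly ℤ θ).derivative.eval a)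
    (ι : QB →+* AlgebraicClosure ℚ_[p])
    (τ : AlgebraicClosure ℚ_[p] ≃ₐ[ℚ_[p]] AlgebraicClosure ℚ_[p]) (σ : QB ≃ₐ[ℚ] QB)
    (hτ : ∀ w, τ (ι w) = ι (σ w)) : χ (res σ) ^ 2 = 1 := by
  obtain ⟨z, hz, -⟩ := hens ha ha'
  obtain ⟨ρ, hρ⟩ := root_conj hθ (ι.comp (j : F →+* QB))
    (α := algebraMap ℚ_[p] (AlgebraicClosure ℚ_[p]) (z : ℚ_[p])) (by
      rw [eval_padic, hz, PadicInt.coe_zero, map_zero])
  have h1 : τ (ι (j (ρ θ))) = ι (j (ρ θ)) := by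
    have h2 : ι (j (ρ θ)) = algebraMap ℚ_[p] (AlgebraicClosure ℚ_[p]) (z : ℚ_[p]) := hρ
    rw [h2]
    exact τ.commutes _
  rw [hτ, hE.com] at h1
  have h3 : res σ (ρ θ) = ρ θ := j.toRingHom.injective (ι.injective h1)
  have h4 : (ρ⁻¹ * res σ * ρ) θ = θ := by
    show ρ.symm (res σ (ρ θ)) = θ
    rw [h3, AlgEquiv.symm_apply_apply]
  have h5 := (hst _).1 h4
  rw [map_mul, map_mul, map_inv, mul_comm (χ ρ)⁻¹ (χ (res σ)), inv_mul_cancel_right] at h5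
  exact h5

/-- the decomposition group -/
def Dec (ι : QB →+* AlgebraicClosure ℚ_[p]) : Subgroup (QB ≃ₐ[ℚ] QB) where
  carrier := {σ | ∀ w, nm p (ι (σ w)) = nm p (ι w)}
  one_mem' := fun w => rfl
  mul_mem' := by
    intro σ τ hσ hτ w
    show nm p (ι (σ (τ w))) = _
    rw [hσ, hτ]
  inv_mem' := by
    intro σ hσ w
    show nm p (ι (σ.symm w)) = _
    have := hσ (σ.symm w)
    rw [AlgEquiv.apply_symm_apply] at this
    exact this.symm

/-- the other primes -/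
lemma chi_nonsplit (hE : Em j res) (hθ : IsIntegral ℤ θ)
    (hst : ∀ σ : F ≃ₐ[ℚ] F, σ θ = θ ↔ χ σ ^ 2 = 1)
    (hno : ¬ ∃ a : ℤ, (p : ℤ) ∣ (minpoly ℤ θ).eval a) (ι : QB →+* AlgebraicClosure ℚ_[p]) :
    ∃ σ ∈ Dec ι, χ (res σ) ^ 2 ≠ 1 := by
  by_contra hcon
  push Not at hcon
  have hfix : ∀ τ : AlgebraicClosure ℚ_[p] ≃ₐ[ℚ_[p]] AlgebraicClosure ℚ_[p],
      τ (ι (j θ)) = ι (j θ) := by
    intro τ
    obtain ⟨σ, hσ⟩ := restr (K := ℚ_[p]) ι τ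
    have h1 : σ ∈ Dec ι := fun w => by rw [← hσ, nm_tau]
    have h2 := (hst _).2 (hcon σ h1)
    rw [hσ, hE.com, h2]
  obtain ⟨c, hc⟩ := fix_mem (K := ℚ_[p]) (ι (j θ)) hfix
  have hcn : ‖c‖ ≤ 1 := by
    rw [← nm_alg, hc]
    apply nm_integral
    exact map_isIntegral_int ι (map_isIntegral_int (j : F →+* QB) hθ)
  let z : ℤ_[p] := ⟨c, hcn⟩
  have h3 : aeval z (minpoly ℤ θ) = 0 := by
    have h4 := conj_root hθ (ι.comp (j : F →+* QB)) 1
    have h5 : (ι.comp (j : F →+* QB)) ((1 : F ≃ₐ[ℚ] F) θ) =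
        algebraMap ℚ_[p] (AlgebraicClosure ℚ_[p]) (z : ℚ_[p]) := hc.symm
    rw [h5, eval_padic] at h4
    have h6 := (map_eq_zero _).1 h4
    exact PadicInt.coe_eq_zero.1 h6
  exact hno ⟨_, red_root h3⟩

end

end Run7.h318.CH
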