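import Pool.Agent.Run7.h318.CH.B6
import Pool.Agent.Run7.h69.UT2

/-!
# The local conditions for the square classes of the points of the eigenlattice: the main statement
-/

set_option autoImplicit false
set_option linter.all false

namespace Run7.h318.CH

open WeierstrassCurve Finset Polynomial NumberField

open scoped Classical

open Pool.Agent.W262.SH (QB Pt act LocSol E LocTriv)
open Pool.Agent.TH841.SH (IsR IsX fix_mem exists_restr exists_emb)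
open Run7.h318.SH (isR_E sq_near)
open Run7.h69 (rho Gd)

section

variable {F : Type} [Field F] [NumberField F] [IsGalois ℚ F] {j : F →ₐ[ℚ] QB}
  {res : (QB ≃ₐ[ℚ] QB) →* (F ≃ₐ[ℚ] F)} {χ : (F ≃ₐ[ℚ] F) →* ℂˣ} {θ : F}
  {g : F ≃ₐ[ℚ] F} {g' : QB ≃ₐ[ℚ] QB} {ζ : ℂˣ} {k : ℕ}

/-- an element of order four -/
lemma four (D : Dat χ g ζ (2 ^ k)) (H : Subgroup (QB ≃ₐ[ℚ] QB)) {σ : QB ≃ₐ[ℚ] QB} (hσ : σ ∈ H)
    (h : χ (res σ) ^ 2 ≠ 1) : ∃ l, k = l + 1 ∧ ∃ φ ∈ H, χ (res φ) = ζ ^ (2 ^ l) := by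
  obtain ⟨i, hi⟩ := D.hs (res σ)
  have hN : 2 * 2 ^ k = 2 ^ (k + 1) := by ring
  have h1 : ¬ 2 ^ (k + 1) ∣ 2 * i := by
    intro hd
    apply h
    rw [hi, ← pow_mul, mul_comm i 2, D.hz.pow_eq_one_iff_dvd, hN]
    exact hd
  obtain ⟨b, hb, hb'⟩ := (Nat.dvd_prime_pow Nat.prime_two).1 (Nat.gcd_dvd_right i (2 ^ (k + 1)))
  have h2 : b < k := by
    by_contra hcon
    push Not at hcon
    apply h1
    have h3 : 2 ^ k ∣ i := (pow_dvd_pow 2 hcon).trans (by rw [← hb']; exact Nat.gcd_dvd_left _ _)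
    rw [← hN]
    exact Nat.mul_dvd_mul_left 2 h3
  obtain ⟨l, rfl⟩ : ∃ l, k = l + 1 := ⟨k - 1, by omega⟩
  refine ⟨l, rfl, ?_⟩
  obtain ⟨c, hc⟩ : ∃ c, 2 ^ l = 2 ^ b * c := by
    refine ⟨2 ^ (l - b), ?_⟩
    rw [← pow_add]
    congr 1
    omega
  have h4 : ((2 ^ b : ℕ) : ℤ) = i * Nat.gcdA i (2 ^ (l + 1 + 1)) +
      ((2 ^ (l + 1 + 1) : ℕ) : ℤ) * Nat.gcdB i (2 ^ (l + 1 + 1)) := by
    rw [← hb']
    exact Nat.gcd_eq_gcd_ab _ _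
  refine ⟨σ ^ (Nat.gcdA i (2 ^ (l + 1 + 1)) * c), H.zpow_mem hσ _, ?_⟩
  rw [map_zpow, map_zpow, hi]
  have h5 : (ζ ^ i) ^ (Nat.gcdA i (2 ^ (l + 1 + 1))) = ζ ^ (2 ^ b) := by
    have h6 : ζ ^ ((2 ^ b : ℕ) : ℤ) = ζ ^ ((i : ℤ) * Nat.gcdA i (2 ^ (l + 1 + 1)) +
      ((2 ^ (l + 1 + 1) : ℕ) : ℤ) * Nat.gcdB i (2 ^ (l + 1 + 1))) := by rw [h4]
    have h7 : ζ ^ (2 ^ (l + 1 + 1)) = 1 := by
      rw [D.hz.pow_eq_one_iff_dvd, hN]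
    rw [zpow_add, zpow_mul, zpow_mul, zpow_natCast, zpow_natCast, zpow_natCast, h7, one_zpow,
      mul_one] at h6
    exact h6.symm
  rw [zpow_mul, h5, zpow_natCast, ← pow_mul, ← hc]

variable {p : ℕ} [hp : Fact p.Prime]

/-- parity -/
lemma not_dvd_of (k0 : F →+* AlgebraicClosure ℚ_[p])
    (hunr : ∀ 𝔭 : Ideal (𝓞 F), 𝔭.IsPrime → (p : 𝓞 F) ∉ 𝔭 ^ 2) {e : ℤ} (he : Squarefree e)
    {x x' y : F} (hx : x ≠ 0) (h : (e : F) * x * x' = y ^ 2) (hn : nm p (k0 x') = nm p (k0 x)) :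
    ¬ (p : ℤ) ∣ e := by
  intro hd
  have hp1 : 1 < (p : ℝ) := by exact_mod_cast hp.out.one_lt
  have hp0 : (p : ℝ) ≠ 0 := by linarith
  have hx' : x' ≠ 0 := by
    rintro rfl
    rw [map_zero, nm_zero] at hn
    have := nm_pos (p := p) ((map_ne_zero k0).2 hx)
    linarith
  have he0 : (e : F) ≠ 0 := by exact_mod_cast he.ne_zero
  have hy : y ≠ 0 := by
    rintro rfl
    rw [zero_pow two_ne_zero] at h
    exact mul_ne_zero (mul_ne_zero he0 hx) hx' h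
  obtain ⟨n, hn1⟩ := val_unr k0 hunr hx
  obtain ⟨l, hl⟩ := val_unr k0 hunr hy
  have hee : nm p (k0 (e : F)) = (p : ℝ) ^ (-1 : ℤ) := by
    rw [map_intCast]
    have h1 := nm_alg (p := p) (e : ℚ_[p])
    rw [map_intCast] at h1
    rw [h1]
    obtain ⟨c, hc⟩ := hd
    have hcp : ¬ (p : ℤ) ∣ c := by
      rintro ⟨c', rfl⟩
      have h2 : (p : ℤ) * p ∣ e := ⟨c', by rw [hc]; ring⟩
      have h3 := he _ h2
      rw [Int.isUnit_iff_natAbs_eq, Int.natAbs_natCast] at h3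
      exact hp.out.one_lt.ne' h3
    have h2 : ‖(c : ℚ_[p])‖ = 1 := by
      refine le_antisymm (Padic.norm_int_le_one c) (not_lt.1 fun h3 => hcp ?_)
      exact Padic.norm_intCast_lt_one_iff.1 h3
    rw [hc]
    push_cast
    rw [norm_mul, h2, mul_one, Padic.norm_p, zpow_neg_one]
  have h1 := congrArg (fun z => nm p (k0 z)) h
  simp only [map_mul, map_pow, nm_mul, nm_pow] at h1
  rw [hn, hn1, hl, hee, ← zpow_add₀ hp0, ← zpow_add₀ hp0, ← zpow_natCast, ← zpow_mul] at h1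
  have h2 := zpow_right_injective₀ (by linarith) hp1.ne' h1
  push_cast at h2
  omega

/-- **the primes that do not split** -/
theorem nonsplit (hE : Em j res) (D : Dat χ g ζ (2 ^ k)) (hg : res g' = g)
    (hθ : IsIntegral ℤ θ) (hst : ∀ σ : F ≃ₐ[ℚ] F, σ θ = θ ↔ χ σ ^ 2 = 1)
    (hunr : ∀ 𝔭 : Ideal (𝓞 F), 𝔭.IsPrime → (p : 𝓞 F) ∉ 𝔭 ^ 2)
    (hno : ¬ ∃ a : ℤ, (p : ℤ) ∣ (minpoly ℤ θ).eval a) {A B : ℤ} (hA : A ≠ 0) (hB : B ≠ 0)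
    (hAB : A ≠ B) {P : Pt (E A B) QB} (hP : P ∈ Ms (rG (E A B)) (χ.comp res)) {e : ℤ × ℤ}
    (hatt : Att (dat_res D hg) A B P e) : ¬ (p : ℤ) ∣ e.1 ∧ ¬ (p : ℤ) ∣ e.2 := by
  obtain ⟨ι⟩ : Nonempty (QB →+* AlgebraicClosure ℚ_[p]) := ⟨(IsAlgClosed.lift (R := ℚ) :
    QB →ₐ[ℚ] AlgebraicClosure ℚ_[p]).toRingHom⟩
  obtain ⟨σ, hσ, hσ'⟩ := chi_nonsplit hE hθ hst hno ι
  obtain ⟨l, rfl, φ, hφ, hφ'⟩ := four D (Dec ι) hσ hσ'
  obtain ⟨Q, hQ, he1, he2, hs1, hs2⟩ := hatt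
  obtain ⟨a1, a2, a3⟩ := ne_of hA hB hAB
  have hD2 : Dat (χ.comp res) g' ζ (2 * 2 ^ l) := by
    have h1 : 2 * 2 ^ l = 2 ^ (l + 1) := by ring
    rw [h1]
    exact dat_res D hg
  have hsm : Sm (rG (E A B)) g' (2 ^ (l + 1)) P = Sm (rG (E A B)) g' (2 * 2 ^ l) P := by
    rw [show 2 ^ (l + 1) = 2 * 2 ^ l by ring]
  have hkap : ∀ σ, hD2.kap (rG (E A B)) P Q σ = (dat_res D hg).kap (rG (E A B)) P Q σ :=
    fun σ => rfl
  rw [hsm] at hQ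
  have hnm : ∀ x : F, nm p ((ι.comp (j : F →+* QB)) (res φ x)) =
      nm p ((ι.comp (j : F →+* QB)) x) := by
    intro x
    show nm p (ι (j (res φ x))) = nm p (ι (j x))
    rw [← hE.com]
    exact hφ _
  constructor
  · obtain ⟨x, y, hx, hxy⟩ := nonsplit_aux hE hD2 (isR_E A B) a1 a2 a3 hP hQ hφ' (e := e.1) hs1
    exact not_dvd_of (ι.comp (j : F →+* QB)) hunr he1 hx hxy (hnm x)
  · obtain ⟨x, y, hx, hxy⟩ := nonsplit_aux hE hD2 (isR_E A B).swap a1.symm a3 a2 hP hQ hφ'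
      (e := e.2) hs2
    exact not_dvd_of (ι.comp (j : F →+* QB)) hunr he2 hx hxy (hnm x)

/-- the twisting number -/
theorem exists_u (hE : Em j res) (hθ : IsIntegral ℤ θ)
    (hst : ∀ σ : F ≃ₐ[ℚ] F, σ θ = θ ↔ χ σ ^ 2 = 1) (hp2 : p ≠ 2)
    (hunr : ∀ 𝔭 : Ideal (𝓞 F), 𝔭.IsPrime → (p : 𝓞 F) ∉ 𝔭 ^ 2) {a : ℤ}
    (ha : (p : ℤ) ∣ (minpoly ℤ θ).eval a) (ha' : ¬ (p : ℤ) ∣ (minpoly ℤ θ).derivative.eval a) :
    ∃ u : ℤ, ¬ (p : ℤ) ∣ u ∧ ∀ ι : QB →+* AlgebraicClosure ℚ_[p],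
      ∃ w : AlgebraicClosure ℚ_[p], w ^ 2 = u ∧
      ∀ (τ : AlgebraicClosure ℚ_[p] ≃ₐ[ℚ_[p]] AlgebraicClosure ℚ_[p]) (σ : QB ≃ₐ[ℚ] QB),
      (∀ w, τ (ι w) = ι (σ w)) → (χ (res σ) = 1 ∧ τ w = w) ∨ (χ (res σ) = -1 ∧ τ w = -w) := by
  obtain ⟨r, hr0, hr1, hr2⟩ := exists_r χ
  obtain ⟨ι0⟩ : Nonempty (QB →+* AlgebraicClosure ℚ_[p]) := ⟨(IsAlgClosed.lift (R := ℚ) :
    QB →ₐ[ℚ] AlgebraicClosure ℚ_[p]).toRingHom⟩
  have hp1 : 1 < (p : ℝ) := by exact_mod_cast hp.out.one_lt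
  have hp0 : (p : ℝ) ≠ 0 := by linarith
  have hpp : (p : ℚ_[p]) ≠ 0 := by exact_mod_cast hp.out.ne_zero
  set v : AlgebraicClosure ℚ_[p] := ι0 (j r) with hv
  have hv0 : v ≠ 0 := (map_ne_zero ι0).2 ((map_ne_zero j).2 hr0)
  have hact : ∀ (τ : AlgebraicClosure ℚ_[p] ≃ₐ[ℚ_[p]] AlgebraicClosure ℚ_[p])
      (σ : QB ≃ₐ[ℚ] QB), (∀ w, τ (ι0 w) = ι0 (σ w)) →
      (χ (res σ) = 1 ∧ τ v = v) ∨ (χ (res σ) = -1 ∧ τ v = -v) := by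
    intro τ σ hτ
    have h1 : τ v = ι0 (j (res σ r)) := by rw [hv, hτ, hE.com]
    rcases sq_one (chi_split hE hθ hst ha ha' ι0 τ σ hτ) with h2 | h2
    · left
      exact ⟨h2, by rw [h1, hr1 _ h2]⟩
    · right
      exact ⟨h2, by rw [h1, hr2 _ h2, map_neg, map_neg]⟩
  obtain ⟨c0, hc0⟩ := fix_mem (K := ℚ_[p]) (v ^ 2) (fun τ => by
    obtain ⟨σ, hσ⟩ := restr (K := ℚ_[p]) ι0 τ
    rw [map_pow]
    rcases hact τ σ hσ with ⟨-, h2⟩ | ⟨-, h2⟩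
    · rw [h2]
    · rw [h2, neg_sq])
  obtain ⟨n, hn⟩ := val_unr (ι0.comp (j : F →+* QB)) hunr hr0
  have hnv : nm p v = (p : ℝ) ^ n := hn
  set q : ℚ_[p] := (p : ℚ_[p]) ^ n with hq
  have hq0 : q ≠ 0 := zpow_ne_zero _ hpp
  have hqn : ‖q‖ = (p : ℝ) ^ (-n) := by
    rw [hq, norm_zpow, Padic.norm_p, inv_zpow, zpow_neg]
  set c1 : ℚ_[p] := c0 * q ^ 2 with hc1
  have hc0n : ‖c0‖ = ((p : ℝ) ^ n) ^ 2 := by
    rw [← nm_alg, hc0, nm_pow, hnv]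
  have hc1n : ‖c1‖ = 1 := by
    rw [hc1, norm_mul, norm_pow, hc0n, hqn, ← mul_pow, ← zpow_add₀ hp0, add_neg_cancel, zpow_zero,
      one_pow]
  let z : ℤ_[p] := ⟨c1, hc1n.le⟩
  have hc10 : c1 ≠ 0 := by
    intro h
    rw [h, norm_zero] at hc1n
    exact zero_ne_one hc1n
  set u : ℤ := (z.zmodRepr : ℤ) with hu
  have hun : ‖(u : ℚ_[p]) - c1‖ < ‖c1‖ := by
    rw [hc1n, ← norm_neg, neg_sub]
    have := z.norm_sub_zmodRepr_lt_one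
    rw [PadicInt.norm_def] at this
    push_cast at this
    rw [hu]
    push_cast
    exact this
  have hup : ¬ (p : ℤ) ∣ u := by
    intro h
    have h1 := Padic.norm_intCast_lt_one_iff.2 h
    have h2 : ‖c1‖ ≤ max ‖(u : ℚ_[p]) - c1‖ ‖(u : ℚ_[p])‖ := by
      have h3 : c1 = -((u : ℚ_[p]) - c1) + (u : ℚ_[p]) := by ring
      calc ‖c1‖ = ‖-((u : ℚ_[p]) - c1) + (u : ℚ_[p])‖ := by rw [← h3]
        _ ≤ max ‖-((u : ℚ_[p]) - c1)‖ ‖(u : ℚ_[p])‖ := Padic.nonarchimedean _ _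
        _ = _ := by rw [norm_neg]
    rw [hc1n] at h2 hun
    exact absurd (h2.trans_lt (max_lt hun h1)) (lt_irrefl _)
  obtain ⟨t, ht⟩ := sq_near hp2 (c := c1) hc10 hun (IsSquare.mul_self _)
  set w0 : AlgebraicClosure ℚ_[p] := algebraMap ℚ_[p] _ t / (v * algebraMap ℚ_[p] _ q) with hw0
  have hw0s : w0 ^ 2 = u := by
    have h1 : (algebraMap ℚ_[p] (AlgebraicClosure ℚ_[p]) t) ^ 2 =
        (u : AlgebraicClosure ℚ_[p]) * (v ^ 2 * (algebraMap ℚ_[p] _ q) ^ 2) := by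
      rw [← hc0, ← map_pow, ← map_pow, ← map_mul, ← hc1,
        ← map_intCast (algebraMap ℚ_[p] (AlgebraicClosure ℚ_[p])), ← map_mul, ht, pow_two]
    rw [hw0, div_pow, h1, mul_pow]
    apply mul_div_cancel_right₀
    exact mul_ne_zero (pow_ne_zero 2 hv0) (pow_ne_zero 2 ((_root_.map_ne_zero _).2 hq0))
  refine ⟨u, hup, fun ι => ?_⟩
  obtain ⟨γ, hγ⟩ := emb_conj ι0 ι
  refine ⟨w0, hw0s, fun τ σ hτ => ?_⟩
  have h1 : ∀ w, τ (ι0 w) = ι0 ((γ * σ * γ⁻¹) w) := by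
    intro w
    have h2 := hτ (γ.symm w)
    rw [hγ, hγ, AlgEquiv.apply_symm_apply] at h2
    exact h2
  have h3 : χ (res (γ * σ * γ⁻¹)) = χ (res σ) := by
    rw [map_mul, map_mul, map_mul, map_mul, map_inv, map_inv, mul_right_comm, mul_inv_cancel,
      one_mul]
  have hτw : ∀ ε : AlgebraicClosure ℚ_[p], ε = 1 ∨ ε = -1 → τ v = ε * v → τ w0 = ε * w0 := by
    intro ε hε h4
    rw [hw0, map_div₀, map_mul, τ.commutes, τ.commutes, h4]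
    rcases hε with rfl | rfl
    · rw [one_mul, one_mul]
    · rw [neg_one_mul, neg_mul, div_neg, neg_one_mul]
  rcases hact τ _ h1 with ⟨h4, h5⟩ | ⟨h4, h5⟩
  · left
    rw [h3] at h4
    have := hτw 1 (Or.inl rfl) (by rw [one_mul]; exact h5)
    rw [one_mul] at this
    exact ⟨h4, this⟩
  · right
    rw [h3] at h4
    have := hτw (-1) (Or.inr rfl) (by rw [neg_one_mul]; exact h5)
    rw [neg_one_mul] at this
    exact ⟨h4, this⟩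

end

end Run7.h318.CH
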