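import Pool.Agent.Run7.h318.CH.B7

/-!
# The local conditions for the square classes of the points of the eigenlattice: summary
-/

set_option autoImplicit false
set_option linter.all false

namespace Run7.h318.CH

open WeierstrassCurve Finset Polynomial NumberField

open scoped Classical

open Pool.Agent.W262.SH (QB Pt act LocSol E LocTriv)
open Pool.Agent.TH841.SH (IsR IsX fix_mem exists_restr exists_emb)
open Run7.h318.SH (isR_E sq_near)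
open Run7.h69 (rho Gd)

section

variable {F : Type} [Field F] [NumberField F] [IsGalois ℚ F] {j : F →ₐ[ℚ] QB}
  {res : (QB ≃ₐ[ℚ] QB) →* (F ≃ₐ[ℚ] F)} {χ : (F ≃ₐ[ℚ] F) →* ℂˣ} {θ : F}
  {g : F ≃ₐ[ℚ] F} {g' : QB ≃ₐ[ℚ] QB} {ζ : ℂˣ} {k : ℕ}

/-- all the roots exist modulo a split prime -/
theorem rho_split {p : ℕ} [hp : Fact p.Prime] (hE : Em j res) (hθ : IsIntegral ℤ θ)
    (hst : ∀ σ : F ≃ₐ[ℚ] F, σ θ = θ ↔ χ σ ^ 2 = 1)
    (hs : ∀ t : ℤ, (p : ℤ) ∣ (minpoly ℤ θ).eval t → ¬ (p : ℤ) ∣ (minpoly ℤ θ).derivative.eval t)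
    {a : ℤ} (ha : (p : ℤ) ∣ (minpoly ℤ θ).eval a) :
    (minpoly ℤ θ).natDegree ≤ rho (minpoly ℤ θ) p := by
  obtain ⟨ι⟩ : Nonempty (QB →+* AlgebraicClosure ℚ_[p]) := ⟨(IsAlgClosed.lift (R := ℚ) :
    QB →ₐ[ℚ] AlgebraicClosure ℚ_[p]).toRingHom⟩
  set k : F →+* AlgebraicClosure ℚ_[p] := ι.comp (j : F →+* QB) with hk
  have hkj : ∀ x, k x = ι (j x) := fun x => rfl
  have hsp := Normal.splits (F := ℚ) (K := F) inferInstance θ
  have hcard := card_rootSet_eq_natDegree (Algebra.IsSeparable.isSeparable ℚ θ) hsp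
  have hdeg : (minpoly ℚ θ).natDegree = (minpoly ℤ θ).natDegree := by
    rw [minpoly_q hθ]
    exact natDegree_map_eq_of_injective (algebraMap ℤ ℚ).injective_int _
  have hex : ∀ x : (minpoly ℚ θ).rootSet F, ∃ z : ℤ_[p],
      k x.1 = algebraMap ℚ_[p] (AlgebraicClosure ℚ_[p]) (z : ℚ_[p]) ∧ aeval z (minpoly ℤ θ) = 0 := by
    rintro ⟨x, hx⟩
    have hx0 : aeval x (minpoly ℚ θ) = 0 := (mem_rootSet.1 hx).2
    obtain ⟨ρ, hρ⟩ := minpoly.exists_algEquiv_of_root' (Algebra.IsAlgebraic.isAlgebraic θ) hx0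
    subst hρ
    have hfix : ∀ τ : AlgebraicClosure ℚ_[p] ≃ₐ[ℚ_[p]] AlgebraicClosure ℚ_[p],
        τ (k (ρ θ)) = k (ρ θ) := by
      intro τ
      obtain ⟨σ, hσ⟩ := restr (K := ℚ_[p]) ι τ
      have h1 := chi_split hE hθ hst ha (hs a ha) ι τ σ hσ
      have h2 : (ρ⁻¹ * res σ * ρ) θ = θ := by
        rw [hst, map_mul, map_mul, map_inv, mul_comm (χ ρ)⁻¹ (χ (res σ)), inv_mul_cancel_right]
        exact h1
      have h3 : res σ (ρ θ) = ρ θ := by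
        have h4 : ρ.symm (res σ (ρ θ)) = θ := h2
        have h5 := congrArg ρ h4
        rwa [AlgEquiv.apply_symm_apply] at h5
      rw [hkj, hσ, hE.com, h3]
    obtain ⟨c, hc⟩ := fix_mem (K := ℚ_[p]) (k (ρ θ)) hfix
    have hcn : ‖c‖ ≤ 1 := by
      rw [← nm_alg, hc]
      apply nm_integral
      exact map_isIntegral_int k (map_isIntegral_int (ρ : F →+* F) hθ)
    let z : ℤ_[p] := ⟨c, hcn⟩
    refine ⟨z, hc.symm, ?_⟩
    have h4 := conj_root hθ k ρ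
    have h5 : k (ρ θ) = algebraMap ℚ_[p] (AlgebraicClosure ℚ_[p]) (z : ℚ_[p]) := hc.symm
    rw [h5, eval_padic] at h4
    have h6 := (_root_.map_eq_zero _).1 h4
    exact PadicInt.coe_eq_zero.1 h6
  choose z hz1 hz2 using hex
  have hinj : Function.Injective (fun x => (z x).zmodRepr) := by
    intro x y hxy
    have hxy' : (z x).zmodRepr = (z y).zmodRepr := hxy
    have hr := red_root (hz2 x)
    obtain ⟨z0, -, h1⟩ := hens hr (hs _ hr)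
    have e1 : z x = z0 := h1 _ (hz2 x) (by
      rw [Int.cast_natCast]
      exact (z x).norm_sub_zmodRepr_lt_one)
    have e2 : z y = z0 := h1 _ (hz2 y) (by
      rw [Int.cast_natCast, hxy']
      exact (z y).norm_sub_zmodRepr_lt_one)
    have e3 : k x.1 = k y.1 := by rw [hz1, hz1, e1, e2]
    exact Subtype.ext (k.injective e3)
  rw [← hdeg, ← hcard]
  unfold rho Pool.Agent.H474R2.PG.rho
  rw [← Fintype.card_coe]
  refine Fintype.card_le_of_injective (fun x => ⟨(z x).zmodRepr, ?_⟩) fun x y h => hinj ?_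
  · rw [mem_filter, mem_range]
    exact ⟨(z x).zmodRepr_lt_p, red_root (hz2 x)⟩
  · exact congrArg Subtype.val h

/-- **the local conditions** -/
theorem local_main (hE : Em j res) (D : Dat χ g ζ (2 ^ k)) (hg : res g' = g) :
    ∃ (f : ℤ[X]) (z0 : ℕ) (u : ℕ → ℤ), Irreducible f ∧ 0 < f.natDegree ∧
      (∀ p : ℕ, p.Prime → z0 < p → (∃ a : ℤ, (p : ℤ) ∣ f.eval a) → rho f p = f.natDegree) ∧
      (∀ p : ℕ, p.Prime → z0 < p → (∃ a : ℤ, (p : ℤ) ∣ f.eval a) → ¬ (p : ℤ) ∣ u p) ∧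
      ∀ (p : ℕ) [Fact p.Prime], z0 < p → ∀ (A B : ℤ), A ≠ 0 → B ≠ 0 → A ≠ B →
        ∀ P ∈ Ms (rG (E A B)) (χ.comp res), ∀ e : ℤ × ℤ, Att (dat_res D hg) A B P e →
        ((∃ a : ℤ, (p : ℤ) ∣ f.eval a) → LocSol p (u p * A) (u p * B) e.1 e.2) ∧
        ((¬ ∃ a : ℤ, (p : ℤ) ∣ f.eval a) → ¬ (p : ℤ) ∣ e.1 ∧ ¬ (p : ℤ) ∣ e.2) := by
  obtain ⟨θ, hθ, hst⟩ := exists_theta χ
  obtain ⟨N, hN⟩ := exists_unr F
  set f := minpoly ℤ θ with hf
  have hirr : Irreducible f := minpoly.irreducible hθ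
  have hdeg : 0 < f.natDegree := minpoly.natDegree_pos hθ
  have hsep := Run7.h69.UT.irr_sep f hirr
  obtain ⟨z1, hz1⟩ := Run7.h69.UT.good f hirr.ne_zero hsep
  set z0 := N + z1 + 2 with hz0
  have hgd := hz1 z0 (by omega)
  have hu : ∀ p : ℕ, ∃ u : ℤ, ∀ hp : p.Prime, z0 < p → (∃ a : ℤ, (p : ℤ) ∣ f.eval a) →
      ¬ (p : ℤ) ∣ u ∧ ∀ (hp' : Fact p.Prime) (ι : QB →+* AlgebraicClosure ℚ_[p]),
      ∃ w : AlgebraicClosure ℚ_[p], w ^ 2 = u ∧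
      ∀ (τ : AlgebraicClosure ℚ_[p] ≃ₐ[ℚ_[p]] AlgebraicClosure ℚ_[p]) (σ : QB ≃ₐ[ℚ] QB),
      (∀ w, τ (ι w) = ι (σ w)) →
        (χ (res σ) = 1 ∧ τ w = w) ∨ (χ (res σ) = -1 ∧ τ w = -w) := by
    intro p
    by_cases h : p.Prime ∧ z0 < p ∧ ∃ a : ℤ, (p : ℤ) ∣ f.eval a
    · obtain ⟨hp, hzp, a, ha⟩ := h
      have hpf : Fact p.Prime := ⟨hp⟩
      obtain ⟨u, hu1, hu2⟩ := exists_u hE hθ hst (by omega) (hN p (by omega) hp) ha
        (hgd.simp p hp hzp a ha)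
      exact ⟨u, fun _ _ _ => ⟨hu1, fun _ ι => hu2 ι⟩⟩
    · exact ⟨0, fun h1 h2 h3 => absurd ⟨h1, h2, h3⟩ h⟩
  choose u hu using hu
  refine ⟨f, z0, u, hirr, hdeg, ?_, ?_, ?_⟩
  · rintro p hp hzp ⟨a, ha⟩
    have hpf : Fact p.Prime := ⟨hp⟩
    exact le_antisymm (hgd.few p hp hzp) (rho_split hE hθ hst (hgd.simp p hp hzp) ha)
  · intro p hp hzp h
    exact (hu p hp hzp h).1
  · intro p hpf hzp A B hA hB hAB P hP e hatt
    refine ⟨fun hs => ?_, fun hs => nonsplit hE D hg hθ hst (hN p (by omega) hpf.out) hs hA hB hAB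
      hP hatt⟩
    obtain ⟨h1, h2⟩ := hu p hpf.out hzp hs
    refine split_core (dat_res D hg) (by omega) hA hB hAB (fun h0 => h1 (by rw [h0]; exact dvd_zero _))
      hP hatt fun ι => ?_
    obtain ⟨w, hw1, hw2⟩ := h2 hpf ι.toRingHom
    refine ⟨w, hw1, fun τ σ hτ => ?_⟩
    exact hw2 τ σ fun x => DFunLike.congr_fun hτ x

end

end Run7.h318.CH
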