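import Pool.Agent.Run7.h318.SH.Desc5

/-!
# The count of the square classes: abstract version
-/

set_option autoImplicit false
set_option linter.all false

namespace Run7.h318.CH

open Finset Pool.Agent.W262.RK Pool.Agent.W262.SH Pool.Agent.W214.RK2 Pool.Agent.W599.RK
open Run7.h318.SH (oute sqf_eq)

/-- the count of the pairs of square classes with given local conditions -/
theorem desc_abs (m : ℕ) (L : ℕ → Bool → Bool → Bool → Bool → Prop) (S : Set (ℤ × ℤ))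
    (OP : Finset ℕ) (hm : Squarefree m) (hL : ∀ p, p.Prime → p ∣ m → XC (L p))
    (hsqf : ∀ e ∈ S, Squarefree e.1 ∧ Squarefree e.2)
    (hout : ∀ q : ℕ, q.Prime → ¬ q ∣ m → q ∉ OP → ∀ e ∈ S, ¬ (q : ℤ) ∣ e.1 ∧ ¬ (q : ℤ) ∣ e.2)
    (hloc : ∀ p : ℕ, p.Prime → p ∣ m → ∀ e ∈ S, L p (dv p e.1) (dv p e.2) (sgn p e.1)
      (sgn p e.2)) :
    S.Finite ∧ S.ncard ≤ 4 ^ (OP.card + 2) * NL m L := by
  classical
  set F : Finset (ℕ × ℕ) := (m.divisors ×ˢ m.divisors).filter (fun d : ℕ × ℕ =>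
    ∀ p ∈ m.primeFactors, L p (dv p d.1) (dv p d.2) (sgn p d.1) (sgn p d.2)) with hF
  have hFcard : F.card = NL m L := by
    unfold NL
    rw [hF]
  -- comparison
  have hcmp : ∀ e ∈ S, ∀ f ∈ S, oute OP e = oute OP f →
      (0 < (e.1 : ℚ) ↔ 0 < (f.1 : ℚ)) ∧ (0 < (e.2 : ℚ) ↔ 0 < (f.2 : ℚ)) ∧
      (∀ q : ℕ, q.Prime → ¬ q ∣ m →
        (Even (padicValRat q e.1) ↔ Even (padicValRat q f.1)) ∧
        (Even (padicValRat q e.2) ↔ Even (padicValRat q f.2))) := by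
    intro e he f hf ho
    have h1 : decide (0 < e.1) = decide (0 < f.1) := congrArg Prod.fst ho
    have h23 := congrArg Prod.snd ho
    have h2 : decide (0 < e.2) = decide (0 < f.2) := congrArg Prod.fst h23
    have h3 := congrArg Prod.snd h23
    refine ⟨?_, ?_, fun q hq hqm => ?_⟩
    · have := decide_eq_decide.mp h1
      exact_mod_cast this
    · have := decide_eq_decide.mp h2
      exact_mod_cast this
    · have hqf : Fact q.Prime := ⟨hq⟩
      have hval : ∀ a : ℤ, Squarefree a → (Even (padicValRat q (a : ℚ)) ↔ dv q a = false) := by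
        intro a ha
        apply Pool.Agent.W342.RK2.par (p := q) (by exact_mod_cast ha.ne_zero)
          (Pool.Agent.W342.RK2.not_sq_of_squarefree ha)
        refine ⟨(a : ℚ_[q]), ?_⟩
        push_cast
        ring
      rw [hval _ (hsqf e he).1, hval _ (hsqf e he).2, hval _ (hsqf f hf).1, hval _ (hsqf f hf).2]
      by_cases hD : q ∈ OP
      · have h4 := congrFun h3 ⟨q, hD⟩
        have h5 : dv q e.1 = dv q f.1 := congrArg Prod.fst h4
        have h6 : dv q e.2 = dv q f.2 := congrArg Prod.snd h4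
        rw [h5, h6]
        exact ⟨Iff.rfl, Iff.rfl⟩
      · obtain ⟨a1, a2⟩ := hout q hq hqm hD e he
        obtain ⟨b1, b2⟩ := hout q hq hqm hD f hf
        unfold dv
        simp [a1, a2, b1, b2]
  have hsqs : ∀ e ∈ S, ∀ f ∈ S, oute OP e = oute OP f →
      IsSquare ((e.1 : ℚ) * f.1 * (dd m e.1 f.1 : ℚ)) ∧
      IsSquare ((e.2 : ℚ) * f.2 * (dd m e.2 f.2 : ℚ)) := by
    intro e he f hf ho
    obtain ⟨c1, c2, c3⟩ := hcmp e he f hf ho
    have n1 : ((e.1 : ℤ) : ℚ) ≠ 0 := by exact_mod_cast (hsqf e he).1.ne_zero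
    have n2 : ((e.2 : ℤ) : ℚ) ≠ 0 := by exact_mod_cast (hsqf e he).2.ne_zero
    have n3 : ((f.1 : ℤ) : ℚ) ≠ 0 := by exact_mod_cast (hsqf f hf).1.ne_zero
    have n4 : ((f.2 : ℤ) : ℚ) ≠ 0 := by exact_mod_cast (hsqf f hf).2.ne_zero
    exact ⟨dd_sq m hm _ _ n1 n3 c1 (fun q hq hqm => (c3 q hq hqm).1),
      dd_sq m hm _ _ n2 n4 c2 (fun q hq hqm => (c3 q hq hqm).2)⟩
  have hFmem : ∀ e ∈ S, ∀ f ∈ S, oute OP e = oute OP f →
      (dd m e.1 f.1, dd m e.2 f.2) ∈ F := by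
    intro e he f hf ho
    obtain ⟨s1, s2⟩ := hsqs e he f hf ho
    have n1 : ((e.1 : ℤ) : ℚ) ≠ 0 := by exact_mod_cast (hsqf e he).1.ne_zero
    have n2 : ((e.2 : ℤ) : ℚ) ≠ 0 := by exact_mod_cast (hsqf e he).2.ne_zero
    have n3 : ((f.1 : ℤ) : ℚ) ≠ 0 := by exact_mod_cast (hsqf f hf).1.ne_zero
    have n4 : ((f.2 : ℤ) : ℚ) ≠ 0 := by exact_mod_cast (hsqf f hf).2.ne_zero
    rw [hF, Finset.mem_filter, Finset.mem_product]
    refine ⟨⟨Nat.mem_divisors.mpr ⟨dd_dvd m hm _ _, hm.ne_zero⟩,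
      Nat.mem_divisors.mpr ⟨dd_dvd m hm _ _, hm.ne_zero⟩⟩, fun p hp => ?_⟩
    rw [Nat.mem_primeFactors] at hp
    have hpf : Fact p.Prime := ⟨hp.1⟩
    have l1 := hloc p hp.1 hp.2.1 e he
    have l2 := hloc p hp.1 hp.2.1 f hf
    obtain ⟨k1, k2⟩ := dd_key m hm _ _ n1 n3 s1 e.1 f.1 (hsqf e he).1 (hsqf f hf).1 (IsSquare.mul_self _)
      (IsSquare.mul_self _) p hp.1
    obtain ⟨k3, k4⟩ := dd_key m hm _ _ n2 n4 s2 e.2 f.2 (hsqf e he).2 (hsqf f hf).2 (IsSquare.mul_self _)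
      (IsSquare.mul_self _) p hp.1
    show L p (dv p (dd m e.1 f.1)) (dv p (dd m e.2 f.2)) (sgn p (dd m e.1 f.1))
      (sgn p (dd m e.2 f.2))
    rw [k1, k2, k3, k4]
    exact (hL p hp.1 hp.2.1).2 _ _ _ _ _ _ _ _ l1 l2
  -- representatives
  obtain ⟨rep, hrep⟩ : ∃ rep : Out OP → ℤ × ℤ, ∀ e ∈ S, rep (oute OP e) ∈ S ∧
      oute OP (rep (oute OP e)) = oute OP e := by
    refine ⟨fun o => if h : ∃ e ∈ S, oute OP e = o then h.choose else 0, fun e he => ?_⟩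
    have h : ∃ e' ∈ S, oute OP e' = oute OP e := ⟨e, he, rfl⟩
    dsimp only
    rw [dif_pos h]
    exact h.choose_spec
  set key' : ℤ × ℤ → Out OP × (ℕ × ℕ) := fun e =>
    (oute OP e, (dd m e.1 (rep (oute OP e)).1, dd m e.2 (rep (oute OP e)).2)) with hkey'
  have hmaps : ∀ e ∈ S, key' e ∈ (((Finset.univ : Finset (Out OP)) ×ˢ F :
      Finset (Out OP × (ℕ × ℕ))) : Set (Out OP × (ℕ × ℕ))) := by
    intro e he
    rw [Finset.mem_coe, Finset.mem_product]
    exact ⟨Finset.mem_univ _, hFmem e he _ (hrep e he).1 (hrep e he).2.symm⟩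
  have hinj : Set.InjOn key' (S) := by
    intro e he f hf hef
    have ho : oute OP e = oute OP f := congrArg Prod.fst hef
    have h1 : dd m e.1 (rep (oute OP e)).1 = dd m f.1 (rep (oute OP f)).1 :=
      congrArg (fun z => z.2.1) hef
    have h2 : dd m e.2 (rep (oute OP e)).2 = dd m f.2 (rep (oute OP f)).2 :=
      congrArg (fun z => z.2.2) hef
    obtain ⟨r1, r2⟩ := hrep e he
    set R := rep (oute OP e) with hR
    rw [← ho] at h1 h2
    obtain ⟨s1, s2⟩ := hsqs e he R r1 r2.symm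
    obtain ⟨s3, s4⟩ := hsqs f hf R r1 (ho.symm.trans r2.symm)
    rw [← h1] at s3
    rw [← h2] at s4
    have canc : ∀ a b r : ℤ, ∀ d : ℕ, r ≠ 0 → d ≠ 0 → IsSquare ((a : ℚ) * r * (d : ℚ)) →
        IsSquare ((b : ℚ) * r * (d : ℚ)) → IsSquare (a * b) := by
      intro a b r d hr hd h1 h2
      have hd' : (d : ℚ) ≠ 0 := by exact_mod_cast hd
      have hr' : (r : ℚ) ≠ 0 := by exact_mod_cast hr
      rw [← Rat.isSquare_intCast_iff]
      apply Pool.Agent.W599.RK.IsSquare.cancel (a := ((r : ℚ) * d) ^ 2) (IsSquare.sq _)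
      · have h3 := h1.mul h2
        have e : ((r : ℚ) * (d : ℚ)) ^ 2 * ((a * b : ℤ) : ℚ) = a * r * d * (b * r * d) := by
          push_cast
          ring
        rw [e]; exact h3
      · exact pow_ne_zero 2 (mul_ne_zero hr' hd')
    have hd1 : dd m e.1 R.1 ≠ 0 := (hm.squarefree_of_dvd (dd_dvd m hm _ _)).ne_zero
    have hd2 : dd m e.2 R.2 ≠ 0 := (hm.squarefree_of_dvd (dd_dvd m hm _ _)).ne_zero
    have q1 := canc _ _ _ _ (hsqf _ r1).1.ne_zero hd1 s1 s3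
    have q2 := canc _ _ _ _ (hsqf _ r1).2.ne_zero hd2 s2 s4
    exact Prod.ext (sqf_eq (hsqf e he).1 (hsqf f hf).1 q1) (sqf_eq (hsqf e he).2 (hsqf f hf).2 q2)
  have hfin : (S).Finite :=
    Set.Finite.of_injOn (f := key') hmaps hinj (Finset.finite_toSet _)
  refine ⟨hfin, ?_⟩
  have hcard := Set.ncard_le_ncard_of_injOn key' hmaps hinj (Finset.finite_toSet _)
  rw [Set.ncard_coe_finset, Finset.card_product, Finset.card_univ, card_out, hFcard] at hcard
  refine hcard.trans (Nat.mul_le_mul_right _ (Nat.pow_le_pow_right (by norm_num) (by omega)))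

end Run7.h318.CH
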