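import Pool.Agent.Run7.h318.CH.C1
import Pool.Agent.Run7.h69.UA4

/-!
# The number of the pairs and the local count at the split primes
-/

set_option autoImplicit false
set_option linter.all false

namespace Run7.h318.CH

open Finset Polynomial
open Pool.Agent.W262.RK hiding lk ff s1 s2
open Pool.Agent.W262.SH (LocSol)
open Run7.h69
open NA (T1 T2)
open Run7.h69.UF hiding rank

open scoped Classical

/-- the polynomial has a zero modulo `p` -/
def Sp (f : ℤ[X]) (p : ℕ) : Prop := ∃ a : ℤ, (p : ℤ) ∣ f.eval a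

/-- the part of `s` in the primes with the property -/
noncomputable def spl (P : ℕ → Prop) (s : ℕ) : ℕ := ∏ p ∈ s.primeFactors.filter P, p

section

variable {P : ℕ → Prop} {s : ℕ}

lemma spl_prime : ∀ p ∈ s.primeFactors.filter P, p.Prime := fun p hp =>
  Nat.prime_of_mem_primeFactors (mem_filter.1 hp).1

lemma spl_pf (P : ℕ → Prop) (s : ℕ) : (spl P s).primeFactors = s.primeFactors.filter P :=
  Nat.primeFactors_prod spl_prime

lemma spl_dvd (P : ℕ → Prop) (s : ℕ) : spl P s ∣ s :=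
  (prod_dvd_prod_of_subset _ _ _ (filter_subset _ _)).trans (Nat.prod_primeFactors_dvd _)

lemma mem_spl {p : ℕ} (hp : p.Prime) (hs : s ≠ 0) : p ∣ spl P s ↔ p ∣ s ∧ P p := by
  have h0 : spl P s ≠ 0 := fun h => hs (by
    have := spl_dvd P s
    rw [h] at this
    exact Nat.eq_zero_of_zero_dvd this)
  have h1 : p ∣ spl P s ↔ p ∈ (spl P s).primeFactors := by
    rw [Nat.mem_primeFactors]
    exact ⟨fun h => ⟨hp, h, h0⟩, fun h => h.2.1⟩
  rw [h1, spl_pf, mem_filter, Nat.mem_primeFactors]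
  exact ⟨fun h => ⟨h.1.2.1, h.2⟩, fun h => ⟨⟨hp, h.1, hs⟩, h.2⟩⟩

end

/-- the local conditions for the set of the pairs -/
structure LocD (f : ℤ[X]) (u : ℕ → ℤ) (z : ℕ) (S : Set (ℤ × ℤ)) (A B : ℤ) : Prop where
  sqf : ∀ e ∈ S, Squarefree e.1 ∧ Squarefree e.2
  spt : ∀ (p : ℕ) [Fact p.Prime], z < p → Sp f p → ∀ e ∈ S,
    LocSol p (u p * A) (u p * B) e.1 e.2
  nsp : ∀ p : ℕ, p.Prime → z < p → ¬ Sp f p → ∀ e ∈ S, ¬ (p : ℤ) ∣ e.1 ∧ ¬ (p : ℤ) ∣ e.2

/-- the twisted types -/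
noncomputable def tyu (u : ℕ → ℤ) (t : ℤ × ℤ) (p : ℕ) : Fin 3 × Bool :=
  (cl p t, xor (sg0 p (u p)) (sg0 p (kp (cl p t) t)))

lemma cl_mul {p : ℕ} (hp : p.Prime) {v : ℤ} (hv : ¬ (p : ℤ) ∣ v) (t : ℤ × ℤ) :
    cl p (v * t.1, v * t.2) = cl p t := by
  have hpi : Prime (p : ℤ) := Nat.prime_iff_prime_int.1 hp
  have h : ∀ x : ℤ, (p : ℤ) ∣ v * x ↔ (p : ℤ) ∣ x := fun x =>
    ⟨fun h => (hpi.dvd_or_dvd h).resolve_left hv, fun h => h.mul_left _⟩
  unfold cl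
  simp only [h]

lemma kp_mul (c : Fin 3) (v : ℤ) (t : ℤ × ℤ) : kp c (v * t.1, v * t.2) = v * kp c t := by
  unfold kp
  split_ifs <;> ring

lemma ty_mul {p : ℕ} [hp : Fact p.Prime] (u : ℕ → ℤ) (hv : ¬ (p : ℤ) ∣ u p) {t : ℤ × ℤ}
    (h1 : (p : ℤ) ∣ FF t) (h2 : ¬ (p : ℤ) ^ 2 ∣ FF t) :
    ty (u p * t.1, u p * t.2) p = tyu u t p := by
  unfold ty tyu
  rw [cl_mul hp.out hv, kp_mul, Pool.Agent.W342.RK2.sg0_mul hv (kp_ndvd hp.out h1 h2)]

lemma FF_mul {p : ℕ} (hp : p.Prime) {v : ℤ} (hv : ¬ (p : ℤ) ∣ v) {t : ℤ × ℤ}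
    (h1 : (p : ℤ) ∣ FF t) (h2 : ¬ (p : ℤ) ^ 2 ∣ FF t) :
    (p : ℤ) ∣ FF (v * t.1, v * t.2) ∧ ¬ (p : ℤ) ^ 2 ∣ FF (v * t.1, v * t.2) := by
  have hpi : Prime (p : ℤ) := Nat.prime_iff_prime_int.1 hp
  have e : FF (v * t.1, v * t.2) = v ^ 3 * FF t := by unfold FF; ring
  rw [e]
  refine ⟨h1.mul_left _, fun h => h2 ?_⟩
  have hc : IsCoprime ((p : ℤ) ^ 2) (v ^ 3) := by
    apply IsCoprime.pow
    exact (Prime.coprime_iff_not_dvd hpi).2 hv
  exact hc.dvd_of_dvd_mul_left h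

/-- **the number of the pairs is bounded by the local count at the split primes** -/
lemma rankS {f : ℤ[X]} {u : ℕ → ℤ} {z : ℕ} (hz : 2 ≤ z)
    (hu : ∀ p : ℕ, p.Prime → z < p → Sp f p → ¬ (p : ℤ) ∣ u p) {t : ℤ × ℤ} {y N : ℕ} (hy : 1 ≤ y)
    (h0 : FF t ≠ 0) (hN : (FF t).natAbs < (y + 1) ^ N) {S : Set (ℤ × ℤ)}
    (hS : LocD f u z S t.1 t.2) :
    S.Finite ∧ S.ncard ≤ 4 ^ (2 * z + 3) * 4 ^ N * 4 ^ ((T2 z y (FF t)).primeFactors.card) *
        NL (spl (Sp f) (T1 z y (FF t))) (LT (tyu u t)) := by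
  set s := T1 z y (FF t) with hs
  have hsd : s ∣ PP z y := NA.T1_dvd z y _
  have hs0 : s ≠ 0 := Nat.one_le_iff_ne_zero.1 (NX.dpos hsd)
  have hsq : Squarefree s := (PP_squarefree z y).squarefree_of_dvd hsd
  set m := spl (Sp f) s with hm
  have hmsq : Squarefree m := hsq.squarefree_of_dvd (spl_dvd _ _)
  set OP : Finset ℕ := ((2 * t.1 * t.2 * (t.1 - t.2)).natAbs.primeFactors.filter
        (fun q => ¬ q ∣ s)) ∪ range (z + 1) with hOP
  have hne : t.1 ≠ 0 ∧ t.2 ≠ 0 ∧ t.1 ≠ t.2 := by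
    unfold FF at h0
    refine ⟨left_ne_zero_of_mul (left_ne_zero_of_mul h0),
      right_ne_zero_of_mul (left_ne_zero_of_mul h0), ?_⟩
    have := right_ne_zero_of_mul h0
    exact sub_ne_zero.1 this
  have hD0 : 2 * t.1 * t.2 * (t.1 - t.2) ≠ 0 :=
    mul_ne_zero (mul_ne_zero (mul_ne_zero two_ne_zero hne.1) hne.2.1) (sub_ne_zero.mpr hne.2.2)
  obtain ⟨h1, h2⟩ := desc_abs m (LT (tyu u t)) S OP hmsq (fun p hp hpd => xcl _ p) hS.sqf
    (by
      intro q hq hqm hqO e he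
      rw [hOP, mem_union, not_or, mem_range, mem_filter, not_and, not_not] at hqO
      obtain ⟨hq1, hq2⟩ := hqO
      have hzq : z < q := by omega
      by_cases hsp : Sp f q
      · have hqf : Fact q.Prime := ⟨hq⟩
        have hqi : Prime (q : ℤ) := Nat.prime_iff_prime_int.1 hq
        have hqs : ¬ q ∣ s := fun h => hqm ((mem_spl hq hs0).2 ⟨h, hsp⟩)
        have hnd : ¬ (q : ℤ) ∣ 2 * t.1 * t.2 * (t.1 - t.2) := by
          intro hd
          exact hqs (hq1 (Nat.mem_primeFactors.2 ⟨hq, Int.natCast_dvd.1 hd,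
            Int.natAbs_ne_zero.2 hD0⟩))
        have huq := hu q hq hzq hsp
        have hnd2 : ¬ (q : ℤ) ∣ 2 * (u q * t.1) * (u q * t.2) * (u q * t.1 - u q * t.2) := by
          have e1 : 2 * (u q * t.1) * (u q * t.2) * (u q * t.1 - u q * t.2) =
              (u q) ^ 3 * (2 * t.1 * t.2 * (t.1 - t.2)) := by ring
          rw [e1]
          intro h
          rcases hqi.dvd_or_dvd h with h3 | h3
          · exact huq (hqi.dvd_of_dvd_pow h3)
          · exact hnd h3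
        obtain ⟨k1, k2⟩ := hS.sqf e he
        exact Run7.h318.SH.good2 q _ _ hnd2 e.1 e.2 k1 k2 (hS.spt q hzq hsp e he)
      · exact hS.nsp q hq hzq hsp e he)
    (by
      intro p hp hpm e he
      have hpf : Fact p.Prime := ⟨hp⟩
      obtain ⟨hps, hsp⟩ := (mem_spl hp hs0).1 hpm
      obtain ⟨hzp, g1, g2⟩ := T1_facts hp hps
      have hup := hu p hp hzp hsp
      obtain ⟨k1, k2⟩ := hS.sqf e he
      obtain ⟨g3, g4⟩ := FF_mul hp hup g1 g2
      have h3 := LL_LE _ _ _ _ _ _ _ (Run7.h318.SH.locl2 _ _ _ p _ _ (by omega)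
        (fun _ => kp_ndvd hp g3 g4) (locH hp g3 g4) e.1 e.2 k1 k2 (hS.spt p hzp hsp e he))
      unfold UF.LT
      rw [← ty_mul u hup g1 g2]
      exact h3)
  refine ⟨h1, h2.trans (Nat.mul_le_mul_right _ ?_)⟩
  have hc := bad hz hy h0 hN
  rw [← hs] at hc
  have hO : OP.card ≤ (z + N + (T2 z y (FF t)).primeFactors.card) + (z + 1) := by
    refine (card_union_le _ _).trans (add_le_add hc ?_)
    rw [card_range]
  calc _ ≤ 4 ^ ((2 * z + 3) + N + (T2 z y (FF t)).primeFactors.card) :=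
        Nat.pow_le_pow_right (by norm_num) (by omega)
    _ = _ := by rw [pow_add, pow_add]

end Run7.h318.CH
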