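import Pool.Agent.Run7.h318.CH.C2
import Pool.Agent.Run7.h69.UT2
import Pool.Agent.Run7.h69.BU

/-!
# The sums over the split primes
-/

set_option autoImplicit false
set_option linter.all false

namespace Run7.h318.CH

open Finset Polynomial
open Pool.Agent.W262.RK hiding lk ff s1 s2 LL
open Pool.Agent.W655.RK (PS_prime PS_lt PS_le prod_primes_squarefree sum_mult prod_le_exp
  sum_inv_sq chr chr_prod chr_abs exp_small)
open Run7.h69.AT (dv_pf log_pos' log_ge1)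
open Run7.h69

open scoped Classical

/-- the indicator of the split primes -/
noncomputable def ind (f : ℤ[X]) (p : ℕ) : ℝ := if Sp f p then 1 else 0

lemma ind_nonneg (f : ℤ[X]) (p : ℕ) : 0 ≤ ind f p := by
  unfold ind
  split_ifs <;> norm_num

lemma ind_le (f : ℤ[X]) (p : ℕ) : ind f p ≤ 1 := by
  unfold ind
  split_ifs <;> norm_num

/-- the bounds for the sums over the split primes -/
structure SD (f : ℤ[X]) (z : ℕ) (δ : ℝ) : Prop where
  d0 : 0 < δ
  d1 : δ ≤ 1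
  up : ∃ C : ℝ, ∀ y : ℕ, z < y → ∑ p ∈ PS z y, ind f p / p ≤ δ * Real.log (Real.log y) + C
  lo : ∃ C : ℝ, ∀ y : ℕ, z < y → ∑ p ∈ PS z y, (1 - ind f p) / p ≤
    (1 - δ) * Real.log (Real.log y) + C
  tw : ∃ B C : ℝ, ∀ (y r : ℕ) (x : Bool), z < y → 1 < r → Squarefree r →
    (∀ p : ℕ, p.Prime → p ∣ r → z < p) →
    ∑ p ∈ PS z y, ind f p / p * (Jr p r * x4 x p) ≤ B * Real.log (Real.log r) + C

lemma PS_sub (z y : ℕ) : PS z y ⊆ (Icc 1 y).filter Nat.Prime := by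
  intro p hp
  rw [mem_filter, mem_Icc]
  exact ⟨⟨(PS_prime hp).one_lt.le, PS_le hp⟩, PS_prime hp⟩

lemma mer_up {f : ℤ[X]} {g : ℕ} (h : Mer f g) : ∃ C : ℝ, ∀ z y : ℕ, 3 ≤ y →
    ∑ p ∈ PS z y, (rho f p : ℝ) / p ≤ g * Real.log (Real.log y) + C := by
  obtain ⟨C, hC⟩ := h
  refine ⟨C, fun z y hy => ?_⟩
  have h1 := (abs_le.1 (hC y hy)).2
  have h2 : ∑ p ∈ PS z y, (rho f p : ℝ) / p ≤ ∑ p ∈ (Icc 1 y).filter Nat.Prime, (rho f p : ℝ) / p :=
    sum_le_sum_of_subset_of_nonneg (PS_sub z y) fun _ _ _ => by positivity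
  linarith

lemma mer_lo {f : ℤ[X]} {g : ℕ} (h : Mer f g) : ∃ C : ℝ, ∀ z y : ℕ, 3 ≤ y →
    g * Real.log (Real.log y) - (C + z) ≤ ∑ p ∈ PS z y, (rho f p : ℝ) / p := by
  obtain ⟨C, hC⟩ := h
  refine ⟨C, fun z y hy => ?_⟩
  have h1 := (abs_le.1 (hC y hy)).1
  have h2 : ∑ p ∈ (Icc 1 y).filter Nat.Prime, (rho f p : ℝ) / p ≤
      ∑ p ∈ PS z y, (rho f p : ℝ) / p + z := by
    have hsub : (Icc 1 y).filter Nat.Prime ⊆ PS z y ∪ Icc 1 z := by
      intro p hp
      rw [mem_filter, mem_Icc] at hp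
      rw [mem_union, mem_Icc, mem_PS]
      rcases Nat.lt_or_ge z p with h | h
      · exact Or.inl ⟨⟨h, hp.1.2⟩, hp.2⟩
      · exact Or.inr ⟨hp.1.1, h⟩
    have h3 : ∑ p ∈ (Icc 1 y).filter Nat.Prime, (rho f p : ℝ) / p ≤
        ∑ p ∈ PS z y ∪ Icc 1 z, (rho f p : ℝ) / p :=
      sum_le_sum_of_subset_of_nonneg hsub fun _ _ _ => by positivity
    have h4 : ∑ p ∈ PS z y ∪ Icc 1 z, (rho f p : ℝ) / p ≤
        ∑ p ∈ PS z y, (rho f p : ℝ) / p + ∑ p ∈ Icc 1 z, (rho f p : ℝ) / p := by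
      have := sum_union_inter (s₁ := PS z y) (s₂ := Icc 1 z) (f := fun p => (rho f p : ℝ) / p)
      have h5 : 0 ≤ ∑ p ∈ PS z y ∩ Icc 1 z, (rho f p : ℝ) / p := sum_nonneg fun _ _ => by positivity
      linarith
    have h5 : ∑ p ∈ Icc 1 z, (rho f p : ℝ) / p ≤ z := by
      refine (sum_le_sum fun p _ => UT.rho_div_le_one f p).trans ?_
      rw [sum_const, nsmul_eq_mul, mul_one, Nat.card_Icc]
      simp
    linarith
  linarith

lemma rho_X {p : ℕ} (hp : p.Prime) : rho (X : ℤ[X]) p = 1 := by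
  unfold rho Pool.Agent.H474R2.PG.rho
  rw [card_eq_one]
  refine ⟨0, ?_⟩
  ext a
  rw [mem_filter, mem_range, mem_singleton, eval_X]
  constructor
  · rintro ⟨h1, h2⟩
    have h3 : p ∣ a := Int.natCast_dvd_natCast.1 h2
    exact Nat.eq_zero_of_dvd_of_lt h3 h1
  · rintro rfl
    exact ⟨hp.pos, by simp⟩

lemma rho_zero {f : ℤ[X]} {p : ℕ} (h : ¬ Sp f p) : rho f p = 0 := by
  unfold rho Pool.Agent.H474R2.PG.rho
  rw [card_eq_zero, filter_eq_empty_iff]
  intro a _ ha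
  exact h ⟨a, ha⟩

/-- the bounds hold -/
theorem exists_SD {f : ℤ[X]} (hf : Irreducible f) (hd : 0 < f.natDegree) {z0 : ℕ}
    (hrho : ∀ p : ℕ, p.Prime → z0 < p → Sp f p → rho f p = f.natDegree) :
    ∃ (z1 : ℕ) (δ : ℝ), ∀ z, z1 ≤ z → SD f z δ := by
  obtain ⟨g, z2, hg1, hg2, hM, hU⟩ := UT.irr f hf
  obtain ⟨g', z3, hg1', hg2', hM', -⟩ := UT.irr (X : ℤ[X]) irreducible_X
  have hX : (X : ℤ[X]).natDegree = 1 := natDegree_X
  have hg' : g' = 1 := le_antisymm (by rw [← hX]; exact hg2') (hg1' (by rw [hX]; norm_num))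
  subst hg'
  set n : ℝ := (f.natDegree : ℝ) with hn
  have hn0 : 0 < n := by rw [hn]; exact_mod_cast hd
  have hgn : (g : ℝ) ≤ n := by rw [hn]; exact_mod_cast hg2
  have hg0 : (0 : ℝ) < g := by exact_mod_cast hg1 hd
  refine ⟨z0 + z2 + 3, g / n, fun z hz => ?_⟩
  have hind : ∀ y, ∀ p ∈ PS z y, ind f p / p = (1 / n) * ((rho f p : ℝ) / p) := by
    intro y p hp
    unfold ind
    split_ifs with h
    · rw [hrho p (PS_prime hp) (by have := PS_lt hp; omega) h, ← hn]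
      field_simp
    · rw [rho_zero h]
      simp
  refine ⟨by positivity, by rw [div_le_one hn0]; exact hgn, ?_, ?_, ?_⟩
  · obtain ⟨C, hC⟩ := mer_up hM
    refine ⟨C / n, fun y hy => ?_⟩
    rw [sum_congr rfl (hind y), ← mul_sum]
    have h1 := mul_le_mul_of_nonneg_left (hC z y (by omega)) (by positivity : (0 : ℝ) ≤ 1 / n)
    refine h1.trans (le_of_eq ?_)
    field_simp
  · obtain ⟨C, hC⟩ := mer_lo hM
    obtain ⟨C', hC'⟩ := mer_up hM'
    refine ⟨C' + (C + z) / n, fun y hy => ?_⟩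
    have h0 : ∑ p ∈ PS z y, (1 - ind f p) / p = ∑ p ∈ PS z y, (rho (X : ℤ[X]) p : ℝ) / p -
        (1 / n) * ∑ p ∈ PS z y, (rho f p : ℝ) / p := by
      rw [mul_sum, ← sum_sub_distrib]
      refine sum_congr rfl fun p hp => ?_
      rw [sub_div, hind y p hp, rho_X (PS_prime hp), Nat.cast_one]
    rw [h0]
    have h1 := mul_le_mul_of_nonneg_left (hC z y (by omega)) (by positivity : (0 : ℝ) ≤ 1 / n)
    have h2 := hC' z y (by omega)
    have h3 : 1 / n * (g * Real.log (Real.log y) - (C + z)) =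
        g / n * Real.log (Real.log y) - (C + z) / n := by
      field_simp
    rw [h3] at h1
    push_cast at h2
    linarith
  · obtain ⟨B, C, hBC⟩ := hU z (by omega) 1 one_ne_zero (by simp; omega)
    refine ⟨B / n, C / n, fun y r x hy hr hrs hrp => ?_⟩
    have h1 := mul_le_mul_of_nonneg_left (hBC y r x hy hr hrs hrp)
      (by positivity : (0 : ℝ) ≤ 1 / n)
    have h2 : ∑ p ∈ PS z y, ind f p / p * (Jr p r * x4 x p) =
        1 / n * ∑ p ∈ PS z y, (rho f p : ℝ) / p * (Jr p r * Jr 1 p * x4 x p) := by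
      rw [mul_sum]
      refine sum_congr rfl fun p hp => ?_
      have h3 : Jr 1 p = 1 := by
        unfold Jr
        rw [jacobiSym.one_left]
        norm_num
      rw [hind y p hp, h3, mul_one]
      ring
    rw [h2]
    refine h1.trans (le_of_eq ?_)
    field_simp

end Run7.h318.CH
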