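import Pool.Agent.Run7.h318.CH.C3
import Pool.Agent.Run7.h69.UA2

/-!
# The average of the square of the local count at the split primes
-/

set_option autoImplicit false
set_option linter.all false

namespace Run7.h318.CH

open Finset Polynomial
open Pool.Agent.W262.RK hiding lk ff s1 s2 LL
open Pool.Agent.W655.RK (PS_prime PS_lt PS_le prod_primes_squarefree sum_mult prod_le_exp
  sum_inv_sq chr chr_prod chr_abs exp_small)
open Run7.h69.AT (dv_pf log_pos' log_ge1 k1)
open Run7.h69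
open Run7.h69.UF
open EX (Bk dot ch LX)

open scoped Classical

lemma jx_abs (p r : ℕ) (x : Bool) : |Jr p r * x4 x p| ≤ 1 := by
  have h1 : |Jr p r| ≤ 1 := by
    unfold Jr
    rcases jacobiSym.trichotomy p r with h | h | h <;> rw [h] <;> norm_num
  have h2 : |x4 x p| ≤ 1 := by
    unfold x4
    split_ifs
    · rcases ZMod.isQuadratic_χ₄ (p : ZMod 4) with h | h | h <;> rw [h] <;> norm_num
    · norm_num
  rw [abs_mul]
  exact mul_le_one₀ h1 (abs_nonneg _) h2

lemma err {p : ℕ} (hp : 6 ≤ p) : 0 ≤ 1 / 4 / ((p : ℝ) - 3) - 1 / 4 / p ∧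
    1 / 4 / ((p : ℝ) - 3) - 1 / 4 / p ≤ 2 * (1 / (p : ℝ) ^ 2) := by
  have h : (6 : ℝ) ≤ p := by exact_mod_cast hp
  have h0 : (0 : ℝ) < p := by linarith
  have h3 : (0 : ℝ) < (p : ℝ) - 3 := by linarith
  have e : 1 / 4 / ((p : ℝ) - 3) - 1 / 4 / p = (3 / 4) / (p * (p - 3)) := by
    field_simp
    ring
  rw [e]
  refine ⟨by positivity, ?_⟩
  rw [mul_one_div, div_le_div_iff₀ (by positivity) (by positivity)]
  nlinarith

variable {f : ℤ[X]} {z : ℕ} {δ : ℝ}

/-- the weights -/
noncomputable def aS (f : ℤ[X]) (p : ℕ) : ℝ := ind f p * (1 / 4 / ((p : ℝ) - 3))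

lemma aS_nonneg {p : ℕ} (hp : 6 ≤ p) : 0 ≤ aS f p := by
  have h : (6 : ℝ) ≤ p := by exact_mod_cast hp
  exact mul_nonneg (ind_nonneg f p) (div_nonneg (by norm_num) (by linarith))

lemma aS_le {p : ℕ} (hp : 6 ≤ p) : aS f p ≤ 1 / (p : ℝ) := by
  have h : (6 : ℝ) ≤ p := by exact_mod_cast hp
  have h1 : 1 / 4 / ((p : ℝ) - 3) ≤ 1 / p := by
    rw [div_div, div_le_div_iff₀ (by nlinarith) (by linarith)]
    linarith
  calc aS f p ≤ 1 * (1 / 4 / ((p : ℝ) - 3)) :=
        mul_le_mul_of_nonneg_right (ind_le f p) (div_nonneg (by norm_num) (by linarith))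
    _ ≤ _ := by rwa [one_mul]

lemma aS_S (h : SD f z δ) (hz : 6 ≤ z) : ∃ C0 : ℝ, ∀ y, z < y →
    ∑ p ∈ PS z y, aS f p ≤ δ / 4 * Real.log (Real.log y) + C0 := by
  obtain ⟨C, hC⟩ := h.up
  obtain ⟨K, hK, hsq⟩ := sum_inv_sq
  refine ⟨C / 4 + 2 * K, fun y hy => ?_⟩
  have h1 : ∀ p ∈ PS z y, aS f p ≤ 1 / 4 * (ind f p / p) + 2 * (1 / (p : ℝ) ^ 2) := by
    intro p hp
    have hp6 : 6 ≤ p := by have := PS_lt hp; omega
    obtain ⟨e1, e2⟩ := err hp6
    have h2 := ind_nonneg f p
    have h3 := ind_le f p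
    unfold aS
    have e3 : ind f p * (1 / 4 / ((p : ℝ) - 3)) = 1 / 4 * (ind f p / p) +
        ind f p * (1 / 4 / ((p : ℝ) - 3) - 1 / 4 / p) := by ring
    rw [e3]
    have h4 : ind f p * (1 / 4 / ((p : ℝ) - 3) - 1 / 4 / p) ≤
        1 * (1 / 4 / ((p : ℝ) - 3) - 1 / 4 / p) := mul_le_mul_of_nonneg_right h3 e1
    linarith
  have h2 := sum_le_sum h1
  rw [sum_add_distrib, ← mul_sum, ← mul_sum] at h2
  have h3 := hC y hy
  have h4 := hsq (PS z y)
  linarith

lemma aS_TT (h : SD f z δ) (hz : 6 ≤ z) : ∃ B0 C1 : ℝ, BT.TT (aS f) z B0 C1 := by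
  obtain ⟨B, C, hC⟩ := h.tw
  obtain ⟨K, hK, hsq⟩ := sum_inv_sq
  refine ⟨B / 4, C / 4 + 2 * K, fun y r x hy hr hrs hrp => ?_⟩
  have h1 : ∀ p ∈ PS z y, aS f p * (Jr p r * x4 x p) ≤
      1 / 4 * (ind f p / p * (Jr p r * x4 x p)) + 2 * (1 / (p : ℝ) ^ 2) := by
    intro p hp
    have hp6 : 6 ≤ p := by have := PS_lt hp; omega
    obtain ⟨e1, e2⟩ := err hp6
    have h2 := ind_nonneg f p
    have h3 := ind_le f p
    have h5 := jx_abs p r x
    have e3 : aS f p * (Jr p r * x4 x p) = 1 / 4 * (ind f p / p * (Jr p r * x4 x p)) +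
        (ind f p * (Jr p r * x4 x p)) * (1 / 4 / ((p : ℝ) - 3) - 1 / 4 / p) := by
      unfold aS
      ring
    rw [e3]
    have h6 : ind f p * (Jr p r * x4 x p) ≤ 1 := by
      have h7 : |ind f p * (Jr p r * x4 x p)| ≤ 1 := by
        rw [abs_mul, abs_of_nonneg h2]
        exact mul_le_one₀ h3 (abs_nonneg _) h5
      exact (le_abs_self _).trans h7
    have h4 := mul_le_mul_of_nonneg_right h6 e1
    linarith
  have h2 := sum_le_sum h1
  rw [sum_add_distrib, ← mul_sum, ← mul_sum] at h2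
  have h3 := hC y r x hy hr hrs hrp
  have h4 := hsq (PS z y)
  linarith

/-- the combinatorial condition -/
lemma hK_all (hδ : 0 < δ) (U T : Finset IX) (hd : Disjoint U T)
    (hU : ∀ i ∈ U, ∀ j ∈ U, LX vec chr i j = LX vec chr j i) :
    (T = ∅ ∧ ∑ i ∈ U, (fun _ : IX => δ / 4) i ≤ 3 * δ) ∨
      ∃ J ⊆ U, (∀ j ∈ J, ∃ t ∈ T, LX vec chr j t ≠ LX vec chr t j) ∧
        (∀ i ∈ J, ∀ j ∈ J, LX vec chr i j = false) ∧
        ∑ i ∈ U \ J, (fun _ : IX => δ / 4) i < 3 * δ := by
  have hc := comb U hU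
  have hself : ∀ i : IX, LX vec chr i i = false := by
    intro i
    unfold LX
    rw [hdot i]
    simp
  have hsum : ∀ V : Finset IX, ∑ i ∈ V, (fun _ : IX => δ / 4) i = V.card * (δ / 4) := by
    intro V
    rw [sum_const, nsmul_eq_mul]
  rcases eq_or_ne T ∅ with hT | hT
  · left
    refine ⟨hT, ?_⟩
    rw [hsum]
    have h' : ((U.card : ℕ) : ℝ) ≤ 12 := by exact_mod_cast hc
    nlinarith
  · right
    by_cases h11 : U.card ≤ 11
    · refine ⟨∅, empty_subset _, by simp, by simp, ?_⟩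
      rw [hsum, sdiff_empty]
      have h' : ((U.card : ℕ) : ℝ) ≤ 11 := by exact_mod_cast h11
      nlinarith
    · obtain ⟨t, ht⟩ := nonempty_iff_ne_empty.2 hT
      have htU : t ∉ U := fun h => (disjoint_left.1 hd h) ht
      have hex : ∃ j ∈ U, LX vec chr j t ≠ LX vec chr t j := by
        by_contra hcon
        push Not at hcon
        have h13 := comb (insert t U) (by
          intro i hi j hj
          rw [mem_insert] at hi hj
          rcases hi with rfl | hi <;> rcases hj with rfl | hj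
          · rfl
          · exact (hcon j hj).symm
          · exact hcon i hi
          · exact hU i hi j hj)
        rw [card_insert_of_notMem htU] at h13
        omega
      obtain ⟨j, hj, hjt⟩ := hex
      refine ⟨{j}, singleton_subset_iff.2 hj, ?_, ?_, ?_⟩
      · intro i hi
        rw [mem_singleton] at hi
        subst hi
        exact ⟨t, ht, hjt⟩
      · intro i hi i' hi'
        rw [mem_singleton] at hi hi'
        subst hi hi'
        exact hself _
      · rw [hsum, card_sdiff_of_subset (singleton_subset_iff.2 hj), card_singleton]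
        have h' : ((U.card - 1 : ℕ) : ℝ) ≤ 11 := by exact_mod_cast (by omega : U.card - 1 ≤ 11)
        nlinarith

/-- the local function -/
noncomputable def TS (f : ℤ[X]) (p : ℕ) (v h : Bk 4) : ℝ := ind f p * TF p v h

lemma GS_expandS (s : ℕ) : GS s * gm (fun p => ind f p * bb p) s =
    ∑ d ∈ Fintype.piFinset (fun _ : Fin 4 => s.divisors), ∏ p ∈ s.primeFactors,
      TS f p (fun l => dv p (d l)) (fun l => sgn p (d l)) := by
  have h1 : gm (fun p => ind f p * bb p) s = gm (ind f) s * gm bb s := by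
    unfold gm
    rw [prod_mul_distrib]
  rw [h1, mul_left_comm, GS_expand, mul_sum]
  refine sum_congr rfl fun d _ => ?_
  unfold TS gm
  rw [prod_mul_distrib]

/-- **the average over the split primes** -/
theorem avgS (h : SD f z δ) (hz : 6 ≤ z) (hz2 : Fintype.card IX ≤ z) :
    ∃ C : ℝ, ∀ y : ℕ, z < y →
    ∑ s ∈ (PP z y).divisors, GS s * gm (fun p => ind f p * bb p) s ≤
      C * (Real.log y) ^ (3 * δ) := by
  have hδ := h.d0
  have hδ1 := h.d1
  obtain ⟨C, hB⟩ := BT.bb_of (ι := IX) (e := fun _ => δ / 4) (a := fun _ => aS f)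
    (b := fun _ => aS f) (z := z) (Fintype.card IX) (by omega) (fun _ => by positivity)
    (fun _ => by linarith) (fun _ h0 => absurd h0 (by positivity))
    (fun _ p _ hp => by rw [abs_of_nonneg (aS_nonneg (by omega))])
    (fun _ p _ hp => aS_le (by omega)) (fun _ => aS_S h hz)
  obtain ⟨C', hC'⟩ := BT.main2 (Pool.Agent.W655.RK.blw_of
      (_root_.W37.RK.bl_of Pool.Agent.W505.RK.ls)) hB (L := LX vec chr)
    (fun i => by
      unfold LX
      rw [hdot i]
      simp) le_rfl hz2 (fun i _ => aS_TT h hz) (K := 3 * δ) (by positivity) (fun _ => True)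
    (fun U T h1 _ h3 _ => hK_all hδ U T h1 h3)
  refine ⟨C', fun y hy => ?_⟩
  have h1 : ∑ s ∈ (PP z y).divisors, GS s * gm (fun p => ind f p * bb p) s =
      ∑ s ∈ (PP z y).divisors, ∑ d ∈ Fintype.piFinset (fun _ : Fin 4 => s.divisors),
      (if EX.okD (κ := PEmpty) (fun _ _ => True) s d then ∏ p ∈ s.primeFactors,
        TS f p (fun l => dv p (d l)) (fun l => sgn p (d l)) else 0) := by
    refine sum_congr rfl fun s hs => ?_
    rw [GS_expandS s]
    refine sum_congr rfl fun d _ => ?_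
    rw [if_pos]
    intro m
    exact m.elim
  rw [h1, EX.expand (κ := PEmpty) (fun _ _ => True) (vec := vec) (chr := chr) hdot
    (a := fun _ => aS f) (T := TS f) (z := z)
    (fun p _ _ v h => by
      unfold TS
      rw [TF_eq, mul_sum]
      refine sum_congr rfl fun i _ => ?_
      split_ifs
      · unfold aS
        ring
      · rw [mul_zero]) y]
  have h2 : (Tup IX z y).filter (fun d => EX.okU (κ := PEmpty) (fun _ _ => True) vec
      (BT.supp d)) = Tup IX z y := by
    apply filter_true_of_mem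
    intro d _ m
    exact m.elim
  have h4 := hC' y hy
  simp only [Finset.filter_true] at h4
  rw [h2]
  exact (le_abs_self _).trans h4

end Run7.h318.CH
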