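import Pool.Agent.Run7.h318.CH.C4
import Pool.Agent.Run7.h69.UA7

/-!
# The average of the square of the local count of the split part
-/

set_option autoImplicit false
set_option linter.all false

namespace Run7.h318.CH

open Finset Polynomial
open Pool.Agent.W262.RK hiding lk ff s1 s2 LL
open Pool.Agent.W655.RK (PS_prime PS_lt PS_le prod_primes_squarefree sum_mult prod_le_exp
  sum_inv_sq)
open Run7.h69.AT (dv_pf log_pos' log_ge1 k1)
open Run7.h69
open Run7.h69.UF

open scoped Classical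

variable {f : ℤ[X]} {z : ℕ} {δ : ℝ}

/-- the average over the types of the split part -/
noncomputable def GX (f : ℤ[X]) (s : ℕ) : ℝ := GS (spl (Sp f) s)

lemma GX_nonneg (f : ℤ[X]) (s : ℕ) : 0 ≤ GX f s := GS_nonneg _

lemma spl_mul {P : ℕ → Prop} {s e : ℕ} (h : Nat.Coprime s e) :
    spl P (s * e) = spl P s * spl P e := by
  unfold spl
  rw [h.primeFactors_mul, filter_union, prod_union]
  exact disjoint_filter_filter h.disjoint_primeFactors

lemma spl_card (P : ℕ → Prop) (s : ℕ) : (spl P s).primeFactors.card ≤ s.primeFactors.card := by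
  rw [spl_pf]
  exact card_filter_le _ _

/-- submultiplicativity -/
theorem subX {y s e : ℕ} (h : s * e ∣ PP z y) :
    GX f (s * e) ≤ 16 ^ e.primeFactors.card * GX f s := by
  have hse : s * e ∈ (PP z y).divisors := Nat.mem_divisors.2 ⟨h, PP_ne_zero z y⟩
  have hsq := dv_squarefree hse
  have hcop := Nat.coprime_of_squarefree_mul hsq
  unfold GX
  rw [spl_mul hcop]
  refine (subG (z := z) (y := y) ?_).trans ?_
  · exact (mul_dvd_mul (spl_dvd _ _) (spl_dvd _ _)).trans h
  · exact mul_le_mul_of_nonneg_right (pow_le_pow_right₀ (by norm_num) (spl_card _ _))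
      (GS_nonneg _)

lemma bbn {p : ℕ} (hp : 6 ≤ p) : 0 ≤ bb p := by
  have h : (6 : ℝ) ≤ p := by exact_mod_cast hp
  unfold bb
  exact div_nonneg (by norm_num) (by linarith)

lemma bb_le {p : ℕ} (hp : 6 ≤ p) : bb p ≤ 3 * (1 / p) + 18 * (1 / (p : ℝ) ^ 2) := by
  have h : (6 : ℝ) ≤ p := by exact_mod_cast hp
  have h0 : (0 : ℝ) < p := by linarith
  have h3 : (0 : ℝ) < (p : ℝ) - 3 := by linarith
  unfold bb
  have e : 3 * (1 / (p : ℝ)) + 18 * (1 / (p : ℝ) ^ 2) = (3 * p + 18) / (p : ℝ) ^ 2 := by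
    field_simp
  rw [e, div_le_div_iff₀ h3 (by positivity)]
  nlinarith

/-- the other primes -/
def Ns (f : ℤ[X]) (p : ℕ) : Prop := ¬ Sp f p

lemma gm_split (φ : ℕ → ℝ) (s : ℕ) : gm φ s =
    gm (fun p => ind f p * φ p) (spl (Sp f) s) *
      gm (fun p => (1 - ind f p) * φ p) (spl (Ns f) s) := by
  unfold gm
  rw [spl_pf, spl_pf, ← prod_filter_mul_prod_filter_not s.primeFactors (Sp f)]
  congr 1
  · refine prod_congr rfl fun p hp => ?_
    have h1 := (mem_filter.1 hp).2
    simp only [ind, if_pos h1, one_mul]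
  · refine prod_congr (by ext; rw [mem_filter, mem_filter]; rfl) fun p hp => ?_
    have h1 : ¬ Sp f p := by
      have := (mem_filter.1 hp).2
      exact this
    simp only [ind, if_neg h1, sub_zero, one_mul]

lemma nonsplit_sum (h : SD f z δ) (hz : 6 ≤ z) : ∃ C : ℝ, 0 ≤ C ∧ ∀ y : ℕ, z < y →
    ∑ s ∈ (PP z y).divisors, gm (fun p => (1 - ind f p) * bb p) s ≤
      C * (Real.log y) ^ (3 * (1 - δ)) := by
  obtain ⟨C, hC⟩ := h.lo
  obtain ⟨K, hK, hsq⟩ := sum_inv_sq
  refine ⟨Real.exp (3 * C + 18 * K), (Real.exp_pos _).le, fun y hy => ?_⟩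
  have h0 : ∑ s ∈ (PP z y).divisors, gm (fun p => (1 - ind f p) * bb p) s =
      ∏ p ∈ PS z y, (1 + (1 - ind f p) * bb p) := by
    unfold gm PP
    exact sum_mult (PS z y) (fun p hp => PS_prime hp) _
  have hpos : ∀ p ∈ PS z y, 0 ≤ (1 - ind f p) * bb p := fun p hp =>
    mul_nonneg (by have := ind_le f p; linarith) (bbn (by have := PS_lt hp; omega))
  have h1 : ∑ p ∈ PS z y, (1 - ind f p) * bb p ≤
      3 * ((1 - δ) * Real.log (Real.log y) + C) + 18 * K := by
    have h2 : ∀ p ∈ PS z y, (1 - ind f p) * bb p ≤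
        3 * ((1 - ind f p) / p) + 18 * (1 / (p : ℝ) ^ 2) := by
      intro p hp
      have h3 := bb_le (p := p) (by have := PS_lt hp; omega)
      have h4 : 0 ≤ 1 - ind f p := by have := ind_le f p; linarith
      have h5 : 1 - ind f p ≤ 1 := by have := ind_nonneg f p; linarith
      have h6 := mul_le_mul_of_nonneg_left h3 h4
      have h7 : (1 - ind f p) * (18 * (1 / (p : ℝ) ^ 2)) ≤ 1 * (18 * (1 / (p : ℝ) ^ 2)) :=
        mul_le_mul_of_nonneg_right h5 (by positivity)
      have h8 : (1 - ind f p) * (3 * (1 / (p : ℝ)) + 18 * (1 / (p : ℝ) ^ 2)) =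
          3 * ((1 - ind f p) / p) + (1 - ind f p) * (18 * (1 / (p : ℝ) ^ 2)) := by ring
      linarith
    have h3 := sum_le_sum h2
    rw [sum_add_distrib, ← mul_sum, ← mul_sum] at h3
    have h4 := hC y hy
    have h5 := hsq (PS z y)
    linarith
  rw [h0]
  refine (prod_le_exp (PS z y) _ fun p hp => by have := hpos p hp; linarith).trans ?_
  refine (Real.exp_le_exp.2 h1).trans (le_of_eq ?_)
  have hl : 0 < Real.log y := by
    apply Real.log_pos
    exact_mod_cast (by omega : 1 < y)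
  rw [Real.rpow_def_of_pos hl, ← Real.exp_add]
  congr 1
  ring

/-- **the average of the split part** -/
theorem avgX (h : SD f z δ) (hz : 6 ≤ z) (hz2 : Fintype.card IX ≤ z) :
    ∃ C : ℝ, ∀ y : ℕ, z < y →
    ∑ s ∈ (PP z y).divisors, GX f s * gm bb s ≤ C * (Real.log y) ^ 3 := by
  obtain ⟨C1, h1⟩ := avgS h hz hz2
  obtain ⟨C2, hC2, h2⟩ := nonsplit_sum h hz
  refine ⟨C1 * C2, fun y hy => ?_⟩
  set D := (PP z y).divisors with hD
  set F : ℕ → ℝ := fun a => GS a * gm (fun p => ind f p * bb p) a with hF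
  set G : ℕ → ℝ := fun b => gm (fun p => (1 - ind f p) * bb p) b with hG
  have hp6 : ∀ s ∈ D, ∀ p ∈ s.primeFactors, 6 ≤ p := by
    intro s hs p hp
    have h3 := Nat.dvd_of_mem_primeFactors hp
    have h4 : p ∣ PP z y := h3.trans (Nat.mem_divisors.1 hs).1
    unfold PP at h4
    obtain ⟨q, hq, hpq⟩ := ((Nat.prime_of_mem_primeFactors hp).prime.dvd_finset_prod_iff _).1 h4
    have h5 := (Nat.prime_dvd_prime_iff_eq (Nat.prime_of_mem_primeFactors hp) (PS_prime hq)).1 hpq
    have := PS_lt hq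
    omega
  have hF0 : ∀ a ∈ D, 0 ≤ F a := by
    intro a ha
    refine mul_nonneg (GS_nonneg _) (prod_nonneg fun p hp => mul_nonneg (ind_nonneg f p) ?_)
    exact bbn (hp6 a ha p hp)
  have hG0 : ∀ b ∈ D, 0 ≤ G b := by
    intro b hb
    refine prod_nonneg fun p hp => mul_nonneg ?_ ?_
    · have := ind_le f p
      linarith
    · exact bbn (hp6 b hb p hp)
  set φ : ℕ → ℕ × ℕ := fun s => (spl (Sp f) s, spl (Ns f) s) with hφ
  have hinj : Set.InjOn φ (D : Set ℕ) := by
    intro s hs s' hs' hss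
    have e1 : spl (Sp f) s = spl (Sp f) s' := congrArg Prod.fst hss
    have e2 : spl (Ns f) s = spl (Ns f) s' := congrArg Prod.snd hss
    have hsq := dv_squarefree (mem_coe.1 hs)
    have hsq' := dv_squarefree (mem_coe.1 hs')
    have e1' := congrArg Nat.primeFactors e1
    have e2' := congrArg Nat.primeFactors e2
    rw [spl_pf, spl_pf] at e1' e2'
    have h3 : s.primeFactors = s'.primeFactors := by
      ext p
      have g1 := Finset.ext_iff.1 e1' p
      have g2 := Finset.ext_iff.1 e2' p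
      rw [mem_filter, mem_filter] at g1 g2
      unfold Ns at g2
      tauto
    rw [← Nat.prod_primeFactors_of_squarefree hsq, ← Nat.prod_primeFactors_of_squarefree hsq', h3]
  have hl : 0 < Real.log y := by
    apply Real.log_pos
    exact_mod_cast (by omega : 1 < y)
  calc ∑ s ∈ D, GX f s * gm bb s = ∑ s ∈ D, F (φ s).1 * G (φ s).2 := by
        refine sum_congr rfl fun s _ => ?_
        rw [gm_split (f := f) bb s]
        unfold GX
        rw [hF, hG, hφ]
        ring
    _ = ∑ x ∈ D.image φ, F x.1 * G x.2 := by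
        rw [sum_image hinj]
    _ ≤ ∑ x ∈ D ×ˢ D, F x.1 * G x.2 := by
        apply sum_le_sum_of_subset_of_nonneg
        · intro x hx
          obtain ⟨s, hs, rfl⟩ := mem_image.1 hx
          rw [mem_product, hφ]
          have hs' := Nat.mem_divisors.1 hs
          exact ⟨Nat.mem_divisors.2 ⟨(spl_dvd _ _).trans hs'.1, hs'.2⟩,
            Nat.mem_divisors.2 ⟨(spl_dvd _ _).trans hs'.1, hs'.2⟩⟩
        · intro x hx _
          rw [mem_product] at hx
          exact mul_nonneg (hF0 _ hx.1) (hG0 _ hx.2)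
    _ = (∑ a ∈ D, F a) * ∑ b ∈ D, G b := by
        rw [sum_product, sum_mul_sum]
    _ ≤ (C1 * (Real.log y) ^ (3 * δ)) * (C2 * (Real.log y) ^ (3 * (1 - δ))) := by
        have h3 := h1 y hy
        have h4 := h2 y hy
        have h5 : 0 ≤ ∑ a ∈ D, F a := sum_nonneg hF0
        have h6 : 0 ≤ ∑ b ∈ D, G b := sum_nonneg hG0
        exact mul_le_mul h3 h4 h6 (h5.trans h3)
    _ = C1 * C2 * (Real.log y) ^ 3 := by
        rw [show (C1 * (Real.log y) ^ (3 * δ)) * (C2 * (Real.log y) ^ (3 * (1 - δ))) =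
          C1 * C2 * ((Real.log y) ^ (3 * δ) * (Real.log y) ^ (3 * (1 - δ))) by ring,
          ← Real.rpow_add hl]
        congr 1
        rw [show 3 * δ + 3 * (1 - δ) = ((3 : ℕ) : ℝ) by push_cast; ring, Real.rpow_natCast]

end Run7.h318.CH
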