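import Pool.Agent.Run7.h318.CH.C5

/-!
# The average over the squares

As `Pool/Agent/Run7/h69/UA4.lean` and `UA7.lean` of helper69, with the local conditions at the split
primes only.
-/

set_option autoImplicit false
set_option linter.all false

namespace Run7.h318.CH

open Finset Polynomial
open Pool.Agent.W262.RK hiding lk ff s1 s2 LL
open Pool.Agent.W125.RK2 (NL_congr)
open Pool.Agent.W655.RK (PS_prime PS_lt PS_le)
open Run7.h69
open NA (T1 T2)
open Run7.h69.UF hiding RR RR_nonneg box0 box rank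

open scoped Classical

variable {f : ℤ[X]} {u : ℕ → ℤ} {z : ℕ} {δ : ℝ}

/-- the change of the types by the twist -/
noncomputable def fl (u : ℕ → ℤ) (τ : ℕ → Fin 3 × Bool) (p : ℕ) : Fin 3 × Bool :=
  ((τ p).1, xor (sg0 p (u p)) (τ p).2)

lemma fl_ty (u : ℕ → ℤ) (t : ℤ × ℤ) (p : ℕ) : fl u (ty t) p = tyu u t p := rfl

lemma fl_inj {u : ℕ → ℤ} {τ τ' : ℕ → Fin 3 × Bool} {p : ℕ} (h : fl u τ p = fl u τ' p) :
    τ p = τ' p := by
  unfold fl at h
  have h1 := congrArg Prod.fst h
  have h2 := congrArg Prod.snd h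
  simp only at h1 h2
  refine Prod.ext h1 ?_
  revert h2
  generalize sg0 p (u p) = a
  generalize (τ p).2 = b
  generalize (τ' p).2 = c
  revert a b c
  decide

lemma exf_mem {s : ℕ} (τ : s.primeFactors → Fin 3 × Bool) {p : ℕ} (hp : p ∈ s.primeFactors) :
    exf s τ p = τ ⟨p, hp⟩ := by
  unfold exf
  rw [dif_pos hp]

/-- the sum over the types -/
lemma fl_sum (f : ℤ[X]) (u : ℕ → ℤ) (s : ℕ) :
    ∑ τ : s.primeFactors → Fin 3 × Bool, (NL (spl (Sp f) s) (UF.LT (fl u (exf s τ))) : ℝ) ^ 2 ≤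
      6 ^ (spl (Ns f) s).primeFactors.card *
        ∑ σ : (spl (Sp f) s).primeFactors → Fin 3 × Bool,
          (NL (spl (Sp f) s) (UF.LT (exf (spl (Sp f) s) σ)) : ℝ) ^ 2 := by
  set m := spl (Sp f) s with hm
  set e := spl (Ns f) s with he
  have hms : ∀ p ∈ m.primeFactors, p ∈ s.primeFactors := by
    intro p hp
    rw [hm, spl_pf] at hp
    exact (mem_filter.1 hp).1
  have hes : ∀ p ∈ e.primeFactors, p ∈ s.primeFactors := by
    intro p hp
    rw [he, spl_pf] at hp
    exact (mem_filter.1 hp).1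
  set rs : (s.primeFactors → Fin 3 × Bool) → (m.primeFactors → Fin 3 × Bool) :=
    fun τ p => fl u (exf s τ) p.1 with hrs
  set re : (s.primeFactors → Fin 3 × Bool) → (e.primeFactors → Fin 3 × Bool) :=
    fun τ p => exf s τ p.1 with hre
  set F : (m.primeFactors → Fin 3 × Bool) → ℝ := fun σ => (NL m (UF.LT (exf m σ)) : ℝ) ^ 2 with hF
  have hF0 : ∀ σ, 0 ≤ F σ := fun σ => by rw [hF]; positivity
  have h1 : ∀ τ : s.primeFactors → Fin 3 × Bool, (NL m (UF.LT (fl u (exf s τ))) : ℝ) ^ 2 =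
      F (rs τ) := by
    intro τ
    have h3 : NL m (UF.LT (fl u (exf s τ))) = NL m (UF.LT (exf m (rs τ))) := by
      apply NL_congr
      intro p hp
      have h4 : fl u (exf s τ) p = exf m (rs τ) p := by
        rw [exf_mem (rs τ) hp]
      unfold UF.LT
      rw [h4]
    rw [h3, hF]
  rw [sum_congr rfl fun τ _ => h1 τ]
  have hinj : Function.Injective (fun τ : s.primeFactors → Fin 3 × Bool => (rs τ, re τ)) := by
    intro τ τ' heq
    have e1 : rs τ = rs τ' := congrArg Prod.fst heq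
    have e2 : re τ = re τ' := congrArg Prod.snd heq
    funext p
    have h3 : exf s τ p.1 = exf s τ' p.1 := by
      by_cases hsp : Sp f p.1
      · have hp : p.1 ∈ m.primeFactors := by
          rw [hm, spl_pf, mem_filter]
          exact ⟨p.2, hsp⟩
        have h4 := congrFun e1 ⟨p.1, hp⟩
        exact fl_inj h4
      · have hp : p.1 ∈ e.primeFactors := by
          rw [he, spl_pf, mem_filter]
          exact ⟨p.2, hsp⟩
        exact congrFun e2 ⟨p.1, hp⟩
    rwa [exf_mem τ p.2, exf_mem τ' p.2] at h3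
  calc ∑ τ : s.primeFactors → Fin 3 × Bool, F (rs τ)
      = ∑ x ∈ univ.image (fun τ : s.primeFactors → Fin 3 × Bool => (rs τ, re τ)), F x.1 := by
        rw [sum_image (fun a _ b _ hab => hinj hab)]
    _ ≤ ∑ x : (m.primeFactors → Fin 3 × Bool) × (e.primeFactors → Fin 3 × Bool), F x.1 :=
        sum_le_sum_of_subset_of_nonneg (subset_univ _) (fun x _ _ => hF0 _)
    _ = _ := by
        rw [Fintype.sum_prod_type]
        simp only [sum_const, card_univ, nsmul_eq_mul]
        rw [← mul_sum, Fintype.card_fun, Fintype.card_prod, Fintype.card_fin, Fintype.card_bool,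
          Fintype.card_coe]
        push_cast
        norm_num

lemma spl_card_add (f : ℤ[X]) (s : ℕ) : (spl (Sp f) s).primeFactors.card +
    (spl (Ns f) s).primeFactors.card = s.primeFactors.card := by
  rw [spl_pf, spl_pf]
  have h := card_filter_add_card_filter_not (s := s.primeFactors) (Sp f)
  rw [← h]
  congr 2
  ext
  rw [mem_filter, mem_filter]
  rfl

lemma GX_sum (f : ℤ[X]) (u : ℕ → ℤ) {s : ℕ} (hs : ∀ p ∈ s.primeFactors, 6 ≤ p) :
    gm (fun p => 1 / (2 * ((p : ℝ) - 3))) s *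
      ∑ τ : s.primeFactors → Fin 3 × Bool, (NL (spl (Sp f) s) (UF.LT (fl u (exf s τ))) : ℝ) ^ 2 ≤
      GX f s * gm bb s := by
  have hb0 : 0 ≤ gm bb s := prod_nonneg fun p hp => bbn (hs p hp)
  have h0 : gm (fun p => 1 / (2 * ((p : ℝ) - 3))) s = (1 / 6 : ℝ) ^ s.primeFactors.card * gm bb s := by
    unfold gm
    rw [← prod_const, ← prod_mul_distrib]
    refine prod_congr rfl fun p _ => ?_
    unfold bb
    beta_reduce
    rw [one_div, one_div, mul_inv, div_eq_mul_inv, ← mul_assoc]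
    norm_num
  rw [h0]
  set Q := ∑ σ : (spl (Sp f) s).primeFactors → Fin 3 × Bool,
          (NL (spl (Sp f) s) (UF.LT (exf (spl (Sp f) s) σ)) : ℝ) ^ 2 with hQ
  have h1 := fl_sum f u s
  rw [← hQ] at h1
  have h2 : GX f s = (1 / 6) ^ (spl (Sp f) s).primeFactors.card * Q := rfl
  rw [h2]
  calc (1 / 6 : ℝ) ^ s.primeFactors.card * gm bb s * _
      ≤ (1 / 6 : ℝ) ^ s.primeFactors.card * gm bb s *
        (6 ^ (spl (Ns f) s).primeFactors.card * Q) :=
        mul_le_mul_of_nonneg_left h1 (by positivity)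
    _ = ((1 / 6 : ℝ) ^ (spl (Ns f) s).primeFactors.card * 6 ^ (spl (Ns f) s).primeFactors.card) *
        ((1 / 6 : ℝ) ^ (spl (Sp f) s).primeFactors.card * Q * gm bb s) := by
        rw [← spl_card_add f s, pow_add]
        ring
    _ = _ := by
        rw [← mul_pow]
        norm_num

/-- **the average over the large squares** -/
theorem box0 (h : SD f z δ) (hz6 : 6 ≤ z) (hz2 : Fintype.card IX ≤ z)
    (hu : ∀ p : ℕ, p.Prime → z < p → Sp f p → ¬ (p : ℤ) ∣ u p) (S : ℤ × ℤ → Set (ℤ × ℤ))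
    (hS : ∀ t, FF t ≠ 0 → LocD f u z (S t) t.1 t.2) (L : ℕ) :
    ∃ (X0 : ℕ) (B : ℝ), ∀ (x : ℤ × ℤ) (X : ℕ), x.1.natAbs ≤ X ^ L →
    x.2.natAbs ≤ X ^ L → X0 ≤ X → ∑ t ∈ SS x X, ((S t).ncard : ℝ) ^ 2 ≤ B * (X : ℝ) ^ 2 := by
  obtain ⟨C', havg⟩ := avgX h hz6 hz2
  obtain ⟨C, K, y0, hC0, hK1, hcn⟩ := count hz6
  set L1 : ℕ := 3 * L + 7 with hL1
  set y1 : ℕ := y0 + 2 with hy1
  have hp7 : ∀ p : ℕ, z < p → (7 : ℝ) ≤ p := fun p hp => by exact_mod_cast (by omega : 7 ≤ p)
  obtain ⟨X0, B, hB⟩ := NA.nt (F := FF) (S := SS) (N := fun X => (X : ℝ) ^ 2) (b := bb) (bv := bv)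
    (r := bu) (z := z) (G := GX f) (R := fun t => ((S t).ncard : ℝ) ^ 2)
    (Q := fun x X => (x.1.natAbs ≤ X ^ L ∧ x.2.natAbs ≤ X ^ L) ∧ y1 ≤ X)
    (A := 16) (C := C * 16 ^ (2 * z + 3)) (D := 16 ^ L1) (C' := C') (M := 7) (g := 3) (K := K)
    (y0 := y1) (by omega) (by norm_num)
    (fun p _ hp => by
      have h := hp7 p hp
      unfold bb
      exact ⟨div_nonneg (by norm_num) (by linarith), by
        rw [div_le_div_iff₀ (by linarith) (by linarith)]
        linarith⟩)
    (fun p _ hp => by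
      have h := hp7 p hp
      unfold bv
      exact ⟨div_nonneg (by norm_num) (by linarith), by
        rw [div_le_div_iff₀ (by linarith) (by linarith)]
        linarith⟩)
    (fun p _ hp => by
      have h := hp7 p hp
      unfold bu
      exact ⟨by positivity, by gcongr; norm_num⟩)
    (fun X => by positivity) (GX_nonneg f) (fun t => by positivity) (by norm_num) (by positivity)
    (one_le_pow₀ (by norm_num)) (fun y s e hse => subX hse) havg (by
      intro x X y Y k hQ hy0 hzy hyK hXk s v u' hs hv hu' hsvu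
      obtain ⟨⟨hx1, hx2⟩, hX⟩ := hQ
      have hy00 : y0 ≤ y := by omega
      have hpd : ∀ {d : ℕ}, d ∣ PP z y → ∀ p ∈ d.primeFactors, z < p := by
        intro d hd p hp
        have h4 : p ∣ PP z y := (Nat.dvd_of_mem_primeFactors hp).trans hd
        unfold PP at h4
        obtain ⟨q, hq, hpq⟩ :=
          ((Nat.prime_of_mem_primeFactors hp).prime.dvd_finset_prod_iff _).1 h4
        have h5 := (Nat.prime_dvd_prime_iff_eq (Nat.prime_of_mem_primeFactors hp)
          (PS_prime hq)).1 hpq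
        have := PS_lt hq
        omega
      set S' := (SS x X).filter (fun t : ℤ × ℤ => T1 z y (FF t) = s ∧ T2 z y (FF t) = v ∧
        (u' : ℤ) ∣ FF t) with hS'
      set Gt : (s.primeFactors → Fin 3 × Bool) → ℝ :=
        fun τ => (NL (spl (Sp f) s) (UF.LT (fl u (exf s τ))) : ℝ) ^ 2 with hG
      have hG0 : ∀ τ, 0 ≤ Gt τ := fun τ => by rw [hG]; positivity
      set tt : ℤ × ℤ → (s.primeFactors → Fin 3 × Bool) := fun t p => ty t p.1 with htt
      have hex : ∀ t, NL (spl (Sp f) s) (UF.LT (fl u (exf s (tt t)))) =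
          NL (spl (Sp f) s) (UF.LT (tyu u t)) := by
        intro t
        apply NL_congr
        intro p hp
        have hps : p ∈ s.primeFactors := by
          rw [spl_pf] at hp
          exact (mem_filter.1 hp).1
        have : fl u (exf s (tt t)) p = tyu u t p := by
          rw [← fl_ty]
          unfold fl
          rw [exf_mem (tt t) hps]
        unfold UF.LT
        rw [this]
      have h1 : ∀ t ∈ S', ((S t).ncard : ℝ) ^ 2 ≤
          16 ^ (2 * z + 3) * (16 ^ L1) ^ k * 16 ^ v.primeFactors.card * Gt (tt t) := by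
        intro t ht
        rw [hS', mem_filter] at ht
        obtain ⟨ht1, hts, htv, _⟩ := ht
        unfold SS at ht1
        rw [mem_filter] at ht1
        have hN : (FF t).natAbs < (y + 1) ^ (k * L1) := by
          calc (FF t).natAbs ≤ X ^ L1 := size (by omega) hx1 hx2 ht1.1
            _ < ((y + 1) ^ k) ^ L1 := Nat.pow_lt_pow_left hXk (by omega)
            _ = _ := by rw [← pow_mul]
        have hr := (rankS (f := f) (u := u) (z := z) (by omega) hu (t := t) (y := y)
          (N := k * L1) (by omega) ht1.2 hN (hS t ht1.2)).2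
        rw [hts, htv] at hr
        have hr' : ((S t).ncard : ℝ) ≤
            4 ^ (2 * z + 3) * 4 ^ (k * L1) * 4 ^ (v.primeFactors.card) *
              (NL (spl (Sp f) s) (UF.LT (tyu u t)) : ℝ) := by exact_mod_cast hr
        refine (pow_le_pow_left₀ (by positivity) hr' 2).trans (le_of_eq ?_)
        rw [hG]
        simp only
        rw [hex, mul_pow, mul_pow, mul_pow, ← pow_mul, ← pow_mul, ← pow_mul,
          mul_comm (2 * z + 3) 2, mul_comm (k * L1) 2, mul_comm v.primeFactors.card 2,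
          pow_mul, pow_mul (4 : ℝ) 2 (k * L1), pow_mul (4 : ℝ) 2 v.primeFactors.card,
          ← pow_mul (16 : ℝ) L1 k, mul_comm L1 k]
        norm_num
      have h2 : ∑ t ∈ S', Gt (tt t) = ∑ τ : s.primeFactors → Fin 3 × Bool,
            ((S'.filter (fun t : ℤ × ℤ => tt t = τ)).card : ℝ) * Gt τ := by
        rw [← sum_fiberwise_of_maps_to (t := univ) (g := tt) (fun t _ => mem_univ _)]
        refine sum_congr rfl fun E _ => ?_
        rw [← nsmul_eq_mul, ← sum_const]
        refine sum_congr rfl fun t ht => ?_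
        rw [(mem_filter.1 ht).2]
      set W : ℝ := C * X ^ 2 * gm (fun p => 1 / (2 * ((p : ℝ) - 3))) s * (gm bv v / v) * gm bu u' /
        (Real.log y) ^ 3 with hW
      have h3 : ∀ τ : s.primeFactors → Fin 3 × Bool,
          ((S'.filter (fun t : ℤ × ℤ => tt t = τ)).card : ℝ) * Gt τ ≤ W * Gt τ := by
        intro τ
        refine mul_le_mul_of_nonneg_right ?_ (hG0 τ)
        refine le_trans ?_ (hcn x X y Y hy00 hzy hyK s v u' hs hv hu' hsvu (exf s τ))
        have h4 : S'.filter (fun t : ℤ × ℤ => tt t = τ) ⊆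
            (Bx x X).filter (fun t : ℤ × ℤ => (T1 z y (FF t) = s ∧ T2 z y (FF t) = v ∧
              (u' : ℤ) ∣ FF t) ∧ ∀ p ∈ s.primeFactors, ty t p = exf s τ p) := by
          intro t ht
          rw [mem_filter, hS', mem_filter] at ht
          unfold SS at ht
          rw [mem_filter] at ht
          obtain ⟨⟨⟨h5, h6⟩, h7⟩, h10⟩ := ht
          rw [mem_filter]
          refine ⟨h5, h7, fun p hp => ?_⟩
          unfold exf
          rw [dif_pos hp, ← h10]
        exact_mod_cast card_le_card h4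
      have hgs : gm (fun p => 1 / (2 * ((p : ℝ) - 3))) s *
          ∑ τ : s.primeFactors → Fin 3 × Bool, Gt τ ≤ GX f s * gm bb s :=
        GX_sum f u fun p hp => by have := hpd hs p hp; omega
      have hbv : 0 ≤ gm bv v := prod_nonneg fun p hp => by
        have h := hp7 p (hpd hv p hp)
        unfold bv
        exact div_nonneg (by norm_num) (by linarith)
      have hbu : 0 ≤ gm bu u' := prod_nonneg fun p hp => by
        unfold bu
        positivity
      have hlog : 0 ≤ Real.log y := Real.log_natCast_nonneg y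
      have hE : 0 ≤ C * 16 ^ (2 * z + 3) * (16 ^ L1) ^ k * (X : ℝ) ^ 2 *
          (16 ^ v.primeFactors.card * (gm bv v / v)) * gm bu u' / (Real.log y) ^ 3 := by
        positivity
      calc ∑ t ∈ S', ((S t).ncard : ℝ) ^ 2
          ≤ ∑ t ∈ S', 16 ^ (2 * z + 3) * (16 ^ L1) ^ k * 16 ^ v.primeFactors.card * Gt (tt t) :=
            sum_le_sum h1
        _ = 16 ^ (2 * z + 3) * (16 ^ L1) ^ k * 16 ^ v.primeFactors.card *
              ∑ τ : s.primeFactors → Fin 3 × Bool,
                ((S'.filter (fun t : ℤ × ℤ => tt t = τ)).card : ℝ) * Gt τ := by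
            rw [← mul_sum, h2]
        _ ≤ 16 ^ (2 * z + 3) * (16 ^ L1) ^ k * 16 ^ v.primeFactors.card *
              ∑ τ : s.primeFactors → Fin 3 × Bool, W * Gt τ :=
            mul_le_mul_of_nonneg_left (sum_le_sum fun τ _ => h3 τ) (by positivity)
        _ = (C * 16 ^ (2 * z + 3) * (16 ^ L1) ^ k * (X : ℝ) ^ 2 *
              (16 ^ v.primeFactors.card * (gm bv v / v)) * gm bu u' / (Real.log y) ^ 3) *
              (gm (fun p => 1 / (2 * ((p : ℝ) - 3))) s *
                ∑ τ : s.primeFactors → Fin 3 × Bool, Gt τ) := by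
            rw [← mul_sum, hW]
            ring
        _ ≤ (C * 16 ^ (2 * z + 3) * (16 ^ L1) ^ k * (X : ℝ) ^ 2 *
              (16 ^ v.primeFactors.card * (gm bv v / v)) * gm bu u' / (Real.log y) ^ 3) *
              (GX f s * gm bb s) := mul_le_mul_of_nonneg_left hgs hE
        _ = _ := by
            have e2 : NA.bV bv 16 v = 16 ^ v.primeFactors.card * (gm bv v / v) := rfl
            rw [e2]
            ring)
  refine ⟨X0 + y1, B, fun x X hx1 hx2 hX => ?_⟩
  exact hB x X ⟨⟨hx1, hx2⟩, by omega⟩ (by omega)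

/-- **the average over all the squares** -/
theorem box (h : SD f z δ) (hz6 : 6 ≤ z) (hz2 : Fintype.card IX ≤ z)
    (hu : ∀ p : ℕ, p.Prime → z < p → Sp f p → ¬ (p : ℤ) ∣ u p) (S : ℤ × ℤ → Set (ℤ × ℤ))
    (hS : ∀ t, FF t ≠ 0 → LocD f u z (S t) t.1 t.2) (L : ℕ) :
    ∃ C : ℝ, 0 ≤ C ∧ ∀ (x : ℤ × ℤ) (X : ℕ), 1 ≤ X → x.1.natAbs ≤ X ^ L →
    x.2.natAbs ≤ X ^ L → ∑ t ∈ SS x X, ((S t).ncard : ℝ) ^ 2 ≤ C * (X : ℝ) ^ 2 := by
  obtain ⟨X0, B, hB⟩ := box0 h hz6 hz2 hu S hS L
  set P := (Icc (-((X0 ^ L + X0 : ℕ) : ℤ)) ((X0 ^ L + X0 : ℕ) : ℤ)) ×ˢ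
    (Icc (-((X0 ^ L + X0 : ℕ) : ℤ)) ((X0 ^ L + X0 : ℕ) : ℤ)) with hP
  set D : ℝ := ∑ t ∈ P, ((S t).ncard : ℝ) ^ 2 with hD
  have hD0 : 0 ≤ D := sum_nonneg fun t _ => by positivity
  refine ⟨|B| + D, by positivity, fun x X hX h1 h2 => ?_⟩
  have hXr : (1 : ℝ) ≤ (X : ℝ) ^ 2 := one_le_pow₀ (by exact_mod_cast hX)
  have hX0 : (0 : ℝ) ≤ (X : ℝ) ^ 2 := by positivity
  rcases Nat.lt_or_ge X X0 with h | h
  · have hsub : SS x X ⊆ P := by
      intro t ht
      unfold SS Bx at ht
      rw [mem_filter, mem_product, mem_Ioc, mem_Ioc] at ht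
      rw [hP, mem_product, mem_Icc, mem_Icc]
      have h3 : X ^ L ≤ X0 ^ L := Nat.pow_le_pow_left h.le L
      refine ⟨⟨?_, ?_⟩, ?_, ?_⟩ <;> omega
    calc ∑ t ∈ SS x X, ((S t).ncard : ℝ) ^ 2 ≤ D :=
          sum_le_sum_of_subset_of_nonneg hsub fun t _ _ => by positivity
      _ ≤ D * (X : ℝ) ^ 2 := le_mul_of_one_le_right hD0 hXr
      _ ≤ (|B| + D) * (X : ℝ) ^ 2 := by
          apply mul_le_mul_of_nonneg_right _ hX0
          have := abs_nonneg B
          linarith
  · refine (hB x X h1 h2 h).trans ?_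
    apply mul_le_mul_of_nonneg_right _ hX0
    have := le_abs_self B
    linarith

end Run7.h318.CH
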