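import Pool.Agent.Run7.h318.CH.C6
import Pool.Agent.Run7.h318.CH.B8
import Pool.Agent.Run7.h318.BK.T2
import Pool.Agent.H64R2.DD_MWK

/-!
# The points over `F` and the embedding of the points
-/

set_option autoImplicit false
set_option linter.all false

namespace Run7.h318.CH

open WeierstrassCurve Finset

open scoped Classical

open Pool.Agent.W262.SH (QB Pt act LocSol E)
open Pool.Agent.TH841.SH (IsR IsX act_some act_inj act_act fix_mem)
open Pool.Agent.Y700 (VR eL eL_act)

section

variable {F : Type} [Field F] [NumberField F] [IsGalois ℚ F]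

/-- the action of the Galois group of `F` -/
noncomputable def rF (F : Type) [Field F] [NumberField F] (W : WeierstrassCurve ℚ) :
    (F ≃ₐ[ℚ] F) →* AddMonoid.End (Pt W F) where
  toFun σ := act W σ.toAlgHom
  map_one' := by
    apply AddMonoidHom.ext
    intro P
    rcases P with _ | ⟨u, v, hn⟩
    · rfl
    · rfl
  map_mul' σ τ := by
    apply AddMonoidHom.ext
    intro P
    show act W (σ * τ).toAlgHom P = act W σ.toAlgHom (act W τ.toAlgHom P)
    rw [act_act]
    rfl

variable {j : F →ₐ[ℚ] QB} {res : (QB ≃ₐ[ℚ] QB) →* (F ≃ₐ[ℚ] F)}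

/-- the embedding of the points -/
theorem pe_base (hE : Em j res) (W : WeierstrassCurve ℚ) : PE res W (rF F W) (act W j) where
  inj := act_inj W j
  eqv := by
    intro τ P
    show act W τ.toAlgHom (act W j P) = act W j (act W (res τ).toAlgHom P)
    have h1 : (τ.toAlgHom).comp j = j.comp (res τ).toAlgHom := AlgHom.ext fun x => hE.com τ x
    rw [act_act, act_act, h1]
  fix := by
    intro Q hQ
    rcases Q with _ | ⟨u, v, hn⟩
    · exact ⟨0, map_zero _⟩
    · have h1 : ∀ τ, res τ = 1 → τ u = u ∧ τ v = v := by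
        intro τ hτ
        have h2 := hQ τ hτ
        rw [act_some, Affine.Point.some.injEq] at h2
        exact h2
      obtain ⟨u0, hu⟩ := hE.fix u fun τ hτ => (h1 τ hτ).1
      obtain ⟨v0, hv⟩ := hE.fix v fun τ hτ => (h1 τ hτ).2
      subst hu hv
      have hn0 : (W.baseChange F).toAffine.Nonsingular u0 v0 :=
        (Affine.baseChange_nonsingular W j.injective ..).mp hn
      exact ⟨.some u0 v0 hn0, rfl⟩

theorem pe_vr {W W' : WeierstrassCurve ℚ} {u r s t : ℚ} (h : VR W W' u r s t) (hD : W'.Δ ≠ 0)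
    {M : Type} [AddCommGroup M] {ρ : (F ≃ₐ[ℚ] F) →* AddMonoid.End M} {i : M →+ Pt W' QB}
    (hi : PE res W' ρ i) : PE res W ρ ((eL h hD QB : Pt W' QB →+ Pt W QB).comp i) where
  inj := (eL h hD QB).injective.comp hi.inj
  eqv := by
    intro τ P
    show act W τ.toAlgHom (eL h hD QB (i P)) = eL h hD QB (i (ρ (res τ) P))
    rw [← hi.eqv, eL_act]
  fix := by
    intro Q hQ
    obtain ⟨P, hP⟩ := hi.fix ((eL h hD QB).symm Q) fun τ hτ => by
      apply (eL h hD QB).injective
      rw [eL_act, AddEquiv.apply_symm_apply]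
      exact hQ τ hτ
    refine ⟨P, ?_⟩
    show eL h hD QB (i P) = Q
    rw [hP, AddEquiv.apply_symm_apply]

end

/-- the Mordell-Weil theorem -/
theorem fin_pts (F : Type) [Field F] [NumberField F] {a b : ℤ}
    (hD : 4 * a ^ 3 + 27 * b ^ 2 ≠ 0) :
    Module.Finite ℤ (Pt (Pool.Agent.W307.RT.Sh a b) F) := by
  rw [Module.Finite.iff_addGroup_fg]
  refine Pool.Agent.H64R2.DDMWK.fg_of_eq ?_ (Pool.Agent.H64R2.DDMWK.mwk F a b hD)
  unfold Pool.Agent.H925R3.DC.crv Pool.Agent.W307.RT.Sh
  apply WeierstrassCurve.ext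
  · exact (map_zero (algebraMap ℚ F)).symm
  · exact (map_zero (algebraMap ℚ F)).symm
  · exact (map_zero (algebraMap ℚ F)).symm
  · exact (map_intCast (algebraMap ℚ F) a).symm
  · exact (map_intCast (algebraMap ℚ F) b).symm

end Run7.h318.CH
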