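import Pool.Agent.Run7.h318.CH.D1
import Pool.Agent.Run7.h69.UA9
import Pool.Agent.Run7.h318.SH.Ht

/-!
# The average by height
-/

set_option autoImplicit false
set_option linter.all false

namespace Run7.h318.CH

open Finset Pool.Agent.W307.RT WeierstrassCurve Polynomial
open Pool.Agent.W262.SH (QB Pt act)
open Pool.Agent.W262.RK (EAB)
open Run7.h69
open Run7.h69.UH (BT F F_spec Rel rel_inj rel_size low)

open scoped Classical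

/-- a character of order a power of two -/
theorem exists_dat {G : Type} [Group G] [Finite G] (χ : G →* ℂˣ) {n : ℕ}
    (hn : ∀ σ, χ σ ^ (2 ^ n) = 1) (h1 : χ ≠ 1) : ∃ (g : G) (ζ : ℂˣ) (k : ℕ), Dat χ g ζ (2 ^ k) := by
  have hf : Finite χ.range := Set.finite_range χ
  obtain ⟨⟨ζ, g, hg⟩, hgen⟩ := IsCyclic.exists_generator (α := χ.range)
  have hgen' : ∀ τ : G, χ τ ∈ Subgroup.zpowers ζ := by
    intro τ
    have h2 := hgen ⟨χ τ, τ, rfl⟩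
    rw [Subgroup.mem_zpowers_iff] at h2 ⊢
    obtain ⟨i, hi⟩ := h2
    exact ⟨i, congrArg Subtype.val hi⟩
  have hζ : ζ ^ (2 ^ n) = 1 := by rw [← hg]; exact hn g
  have hfin : IsOfFinOrder ζ := isOfFinOrder_iff_pow_eq_one.2 ⟨2 ^ n, by positivity, hζ⟩
  have hd : orderOf ζ ∣ 2 ^ n := orderOf_dvd_of_pow_eq_one hζ
  obtain ⟨m, -, hm⟩ := (Nat.dvd_prime_pow Nat.prime_two).1 hd
  have hm0 : m ≠ 0 := by
    rintro rfl
    rw [pow_zero, orderOf_eq_one_iff] at hm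
    apply h1
    apply MonoidHom.ext
    intro τ
    have h2 := hgen' τ
    rw [hm, Subgroup.zpowers_one_eq_bot, Subgroup.mem_bot] at h2
    exact h2
  obtain ⟨k, rfl⟩ := Nat.exists_eq_succ_of_ne_zero hm0
  refine ⟨g, ζ, k, hg, ?_, by positivity, fun τ => ?_⟩
  · have h2 := IsPrimitiveRoot.orderOf ζ
    rw [hm, Nat.succ_eq_add_one, pow_succ'] at h2
    exact h2
  · have h2 := hgen' τ
    rw [← hfin.mem_powers_iff_mem_zpowers] at h2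
    obtain ⟨i, hi⟩ := h2
    exact ⟨i, hi.symm⟩

section

variable {f : ℤ[X]} {u : ℕ → ℤ} {z : ℕ} {δ : ℝ}

lemma boxT (h : SD f z δ) (hz6 : 6 ≤ z) (hz2 : Fintype.card Run7.h69.UF.IX ≤ z)
    (hu : ∀ p : ℕ, p.Prime → z < p → Sp f p → ¬ (p : ℤ) ∣ u p) (S : ℤ × ℤ → Set (ℤ × ℤ))
    (hS : ∀ t, UF.FF t ≠ 0 → LocD f u z (S t) t.1 t.2) :
    ∃ C : ℝ, 0 ≤ C ∧ ∀ T : ℕ, 1 ≤ T → ∑ t ∈ BT T, ((S t).ncard : ℝ) ^ 2 ≤ C * (T : ℝ) ^ 2 := by
  obtain ⟨C, hC, h⟩ := box h hz6 hz2 hu S hS 1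
  refine ⟨9 * C, by positivity, fun T hT => ?_⟩
  have h1 := h (-(T : ℤ) - 1, -(T : ℤ) - 1) (2 * T + 1) (by omega)
    (by rw [pow_one]; simp only; omega) (by rw [pow_one]; simp only; omega)
  have hsub : BT T ⊆ UF.SS (-(T : ℤ) - 1, -(T : ℤ) - 1) (2 * T + 1) := by
    intro t ht
    unfold BT at ht
    rw [mem_filter, mem_product, mem_Icc, mem_Icc] at ht
    unfold UF.SS UF.Bx
    rw [mem_filter, mem_product, mem_Ioc, mem_Ioc]
    simp only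
    obtain ⟨⟨⟨a1, a2⟩, a3, a4⟩, a5⟩ := ht
    refine ⟨⟨⟨by omega, by push_cast; omega⟩, ⟨by omega, by push_cast; omega⟩⟩, a5⟩
  refine (sum_le_sum_of_subset_of_nonneg hsub fun t _ _ => by positivity).trans (h1.trans ?_)
  have hTr : (1 : ℝ) ≤ T := by exact_mod_cast hT
  push_cast
  have e : (2 * (T : ℝ) + 1) ^ 2 ≤ 9 * (T : ℝ) ^ 2 := by nlinarith
  calc C * (2 * (T : ℝ) + 1) ^ 2 ≤ C * (9 * (T : ℝ) ^ 2) := mul_le_mul_of_nonneg_left e hC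
    _ = _ := by ring

/-- the average by height -/
theorem height (h : SD f z δ) (hz6 : 6 ≤ z) (hz2 : Fintype.card Run7.h69.UF.IX ≤ z)
    (hu : ∀ p : ℕ, p.Prime → z < p → Sp f p → ¬ (p : ℤ) ∣ u p) (S : ℤ × ℤ → Set (ℤ × ℤ))
    (hS : ∀ t, UF.FF t ≠ 0 → LocD f u z (S t) t.1 t.2) (Q : ℤ × ℤ → ℕ)
    (hQ : ∀ c t, UH.Rel c t → 4 * c.1 ^ 3 + 27 * c.2 ^ 2 ≠ 0 → Q c ≤ (S t).ncard) :
    ∃ C : ℝ, ∀ H : ℕ, ∑ c ∈ Cv 2 H, (Q c : ℝ) ^ 2 ≤ C * (Cv 2 H).card := by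
  obtain ⟨C, hC, hb⟩ := boxT h hz6 hz2 hu S hS
  obtain ⟨k, hk⟩ : ∃ k : ℕ, k = 6 := ⟨_, rfl⟩
  obtain ⟨c, hc'⟩ : ∃ c : ℝ, c = 1 / 24 := ⟨_, rfl⟩
  have hc : 0 < c := by rw [hc']; norm_num
  obtain ⟨C1, hC1⟩ : ∃ C1 : ℕ, C1 = 108 := ⟨_, rfl⟩
  obtain ⟨T0, hT0⟩ : ∃ T0 : ℕ, T0 = 5 := ⟨_, rfl⟩
  have hlow : ∀ T H : ℕ, T0 ≤ T → C1 * T ^ k ≤ H → c * T ^ 2 ≤ ((Cv 2 H).card : ℝ) := by
    subst hk hc' hC1 hT0
    exact low
  obtain ⟨C0, hC0⟩ : ∃ C0 : ℕ, C0 = 16 := ⟨_, rfl⟩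
  have hF' : ∀ H : ℕ, ∀ x ∈ Cv 2 H, (F x).1.natAbs ^ k ≤ C0 * H ∧ (F x).2.natAbs ^ k ≤ C0 * H := by
    intro H x hx
    have h1 := F_spec hx
    unfold Cv at hx
    rw [mem_filter] at hx
    rw [hk, hC0]
    exact rel_size h1 hx.2.2.1
  set D := C0 * C1 + 1 with hD
  have hD1 : 1 ≤ D := by omega
  -- the sum is at most `C T ^ 2`
  have hsum : ∀ H T : ℕ, 1 ≤ T → (∀ x ∈ Cv 2 H, (F x).1.natAbs ≤ T ∧ (F x).2.natAbs ≤ T) →
      ∑ x ∈ Cv 2 H, (Q x : ℝ) ^ 2 ≤ C * (T : ℝ) ^ 2 := by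
    intro H T hT hx
    refine le_trans ?_ (hb T hT)
    have hinj : Set.InjOn F (Cv 2 H : Set (ℤ × ℤ)) := by
      intro x hx x' hx' h
      have r := F_spec (mem_coe.1 hx)
      have r' := F_spec (mem_coe.1 hx')
      rw [← h] at r'
      exact rel_inj r r'
    have h3 : ∑ x ∈ Cv 2 H, (Q x : ℝ) ^ 2 ≤
        ∑ t ∈ (Cv 2 H).image F, ((S t).ncard : ℝ) ^ 2 := by
      rw [sum_image hinj]
      apply sum_le_sum
      intro x hx'
      have hD' : 4 * x.1 ^ 3 + 27 * x.2 ^ 2 ≠ 0 := by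
        unfold Cv at hx'
        rw [mem_filter] at hx'
        exact hx'.2.1
      have h5 : (Q x : ℝ) ≤ ((S (F x)).ncard : ℝ) := by
        exact_mod_cast hQ x (F x) (F_spec hx') hD'
      exact pow_le_pow_left₀ (Nat.cast_nonneg _) h5 2
    refine h3.trans ?_
    apply sum_le_sum_of_subset_of_nonneg
    · intro t ht
      obtain ⟨x, hx', rfl⟩ := mem_image.1 ht
      obtain ⟨_, _, _, _, a1, a2, a3⟩ := F_spec hx'
      obtain ⟨b1, b2⟩ := hx x hx'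
      unfold BT
      rw [mem_filter, mem_product, mem_Icc, mem_Icc]
      refine ⟨⟨⟨by omega, by omega⟩, ⟨by omega, by omega⟩⟩, ?_⟩
      unfold UF.FF
      exact mul_ne_zero (mul_ne_zero a1 a2) (sub_ne_zero.2 a3)
    · intro t _ _
      positivity
  refine ⟨C * ((D * (T0 + 1) : ℕ) : ℝ) ^ 2 + C * (2 * (D : ℝ)) ^ 2 / c, fun H => ?_⟩
  set K := (Cv 2 H).card with hK
  by_cases hK0 : K = 0
  · have : Cv 2 H = ∅ := card_eq_zero.1 hK0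
    rw [this, sum_empty, hK0]
    simp
  have hK1 : (1 : ℝ) ≤ K := by exact_mod_cast Nat.one_le_iff_ne_zero.2 hK0
  have hq0 : 0 ≤ C * (2 * (D : ℝ)) ^ 2 / c := by positivity
  have hr0 : 0 ≤ C * ((D * (T0 + 1) : ℕ) : ℝ) ^ 2 := by positivity
  set T := Nat.findGreatest (fun t => t ^ k ≤ C0 * H) (C0 * H) with hT
  have hle : ∀ x : ℕ, x ^ k ≤ C0 * H → x ≤ T := by
    intro x hx
    apply Nat.le_findGreatest
    · exact (Nat.le_self_pow (by omega) x).trans hx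
    · exact hx
  have hTk : T ^ k ≤ C0 * H := by
    have : (fun t => t ^ k ≤ C0 * H) T :=
      Nat.findGreatest_spec (P := fun t => t ^ k ≤ C0 * H) (Nat.zero_le _)
        (by rw [zero_pow (by omega)]; exact Nat.zero_le _)
    exact this
  have hxT : ∀ x ∈ Cv 2 H, (F x).1.natAbs ≤ T ∧ (F x).2.natAbs ≤ T := fun x hx =>
    ⟨hle _ (hF' H x hx).1, hle _ (hF' H x hx).2⟩
  rcases Nat.lt_or_ge T (D * (T0 + 1)) with hlt | hge
  · have h1 := hsum H (D * (T0 + 1)) (Nat.mul_pos hD1 (Nat.succ_pos _)) fun x hx =>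
      ⟨(hxT x hx).1.trans hlt.le, (hxT x hx).2.trans hlt.le⟩
    calc _ ≤ C * ((D * (T0 + 1) : ℕ) : ℝ) ^ 2 := h1
      _ ≤ C * ((D * (T0 + 1) : ℕ) : ℝ) ^ 2 * K := le_mul_of_one_le_right hr0 hK1
      _ ≤ _ := by
        apply mul_le_mul_of_nonneg_right _ (by linarith)
        linarith
  · have hT1 : 1 ≤ T := (Nat.mul_pos hD1 (Nat.succ_pos _)).trans_le hge
    have h1 := hsum H T hT1 hxT
    set T' := T / D with hT'
    have hT'0 : T0 + 1 ≤ T' := by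
      rw [hT', Nat.le_div_iff_mul_le hD1, mul_comm]
      exact hge
    have h2 : T' * D ≤ T := Nat.div_mul_le_self T D
    have h3 : C1 * T' ^ k ≤ H := by
      have a1 : (T' * D) ^ k ≤ C0 * H := (Nat.pow_le_pow_left h2 k).trans hTk
      rw [mul_pow] at a1
      have a2 : D ≤ D ^ k := Nat.le_self_pow (by omega) D
      have a3 : T' ^ k * (C0 * C1) ≤ C0 * H :=
        (Nat.mul_le_mul_left _ (by omega : C0 * C1 ≤ D ^ k)).trans a1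
      have a4 : C0 * (C1 * T' ^ k) ≤ C0 * H := by
        calc C0 * (C1 * T' ^ k) = T' ^ k * (C0 * C1) := by ring
          _ ≤ _ := a3
      exact Nat.le_of_mul_le_mul_left a4 (by omega)
    have h4 := hlow T' H (by omega) h3
    have h5 : T ≤ 2 * D * T' := by
      have a1 : T < D * (T' + 1) := by
        rw [mul_comm]
        exact Nat.lt_mul_of_div_lt (by rw [← hT']; omega) hD1
      have a2 : D * (T' + 1) ≤ 2 * D * T' := by nlinarith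
      omega
    have h6 : (T : ℝ) ≤ 2 * D * T' := by exact_mod_cast h5
    calc _ ≤ C * (T : ℝ) ^ 2 := h1
      _ ≤ C * (2 * D * T') ^ 2 := by
        apply mul_le_mul_of_nonneg_left _ hC
        exact pow_le_pow_left₀ (Nat.cast_nonneg T) h6 2
      _ = C * (2 * (D : ℝ)) ^ 2 / c * (c * (T' : ℝ) ^ 2) := by
        field_simp
      _ ≤ C * (2 * (D : ℝ)) ^ 2 / c * K := mul_le_mul_of_nonneg_left h4 hq0
      _ ≤ _ := by
        apply mul_le_mul_of_nonneg_right _ (by linarith)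
        linarith

end

/-- the comparison of the models -/
lemma rel_vr {c t : ℤ × ℤ} (h : UH.Rel c t) : t.1 ≠ 0 ∧ t.2 ≠ 0 ∧ t.1 ≠ t.2 ∧
    ∃ r : ℚ, Pool.Agent.Y700.VR (Pool.Agent.W262.SH.E t.1 t.2) (Sh c.1 c.2) 1⁻¹ (-r / 1 ^ 2) 0 0 := by
  obtain ⟨E1, E2, ht, hc, h1, h2, h3⟩ := h
  refine ⟨h1, h2, h3, (E1 : ℚ), ?_⟩
  have hv := Run7.h318.SH.vr_shift (a2 := 0) (a4 := (c.1 : ℚ)) (a6 := (c.2 : ℚ)) (r := (E1 : ℚ))
    (u := 1) one_ne_zero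
  have hW : (⟨0, ((0 : ℚ) + 3 * E1) / (1 : ℚ) ^ 2, 0,
      ((c.1 : ℚ) + 2 * E1 * 0 + 3 * (E1 : ℚ) ^ 2) / (1 : ℚ) ^ 4,
      ((c.2 : ℚ) + E1 * c.1 + (E1 : ℚ) ^ 2 * 0 + (E1 : ℚ) ^ 3) / (1 : ℚ) ^ 6⟩ : WeierstrassCurve ℚ)
      = Pool.Agent.W262.SH.E t.1 t.2 := by
    unfold Pool.Agent.W262.SH.E
    simp only [WeierstrassCurve.mk.injEq, true_and]
    rw [ht, hc]
    push_cast
    refine ⟨?_, ?_, ?_⟩ <;> ring
  rw [hW] at hv
  exact hv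

/-- **the multiplicities of a character, by height** -/
theorem main (L : Type) [Field L] [NumberField L] [IsGalois ℚ L] (χ : (L ≃ₐ[ℚ] L) →* ℂˣ) {n : ℕ}
    (hn : ∀ σ, χ σ ^ (2 ^ n) = 1) (h1 : χ ≠ 1) :
    ∃ C : ℝ, ∀ H : ℕ, ∑ c ∈ Cv 2 H,
      ((2 : ℝ) ^ Module.finrank ℂ (Eig (rF L (Sh c.1 c.2)) χ)) ^ 2 ≤ C * (Cv 2 H).card := by
  obtain ⟨g, ζ, k, D⟩ := exists_dat χ hn h1
  obtain ⟨j, res, hE⟩ := exists_em L
  obtain ⟨g', hg⟩ := hE.sur g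
  obtain ⟨f, z0, u, hf, hd, hrho, hu, hloc⟩ := local_main hE D hg
  obtain ⟨z1, δ, hSD⟩ := exists_SD hf hd hrho
  set z := z0 + z1 + Fintype.card Run7.h69.UF.IX + 6 with hz
  set S : ℤ × ℤ → Set (ℤ × ℤ) := fun t => {e | ∃ P ∈ Ms (rG (Pool.Agent.W262.SH.E t.1 t.2))
    (χ.comp res), Att (dat_res D hg) t.1 t.2 P e} with hS
  have hne : ∀ t : ℤ × ℤ, UF.FF t ≠ 0 → t.1 ≠ 0 ∧ t.2 ≠ 0 ∧ t.1 ≠ t.2 := by
    intro t h0
    unfold UF.FF at h0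
    refine ⟨left_ne_zero_of_mul (left_ne_zero_of_mul h0),
      right_ne_zero_of_mul (left_ne_zero_of_mul h0), ?_⟩
    have := right_ne_zero_of_mul h0
    exact sub_ne_zero.1 this
  have hL : ∀ t, UF.FF t ≠ 0 → LocD f u z (S t) t.1 t.2 := by
    intro t ht
    obtain ⟨a1, a2, a3⟩ := hne t ht
    refine ⟨?_, ?_, ?_⟩
    · rintro e ⟨P, hP, Q, hQ, e1, e2, -⟩
      exact ⟨e1, e2⟩
    · rintro p hp hzp hsp e ⟨P, hP, he⟩
      exact (hloc p (by omega) t.1 t.2 a1 a2 a3 P hP e he).1 hsp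
    · rintro p hp hzp hsp e ⟨P, hP, he⟩
      haveI : Fact p.Prime := ⟨hp⟩
      exact (hloc p (by omega) t.1 t.2 a1 a2 a3 P hP e he).2 hsp
  have hu' : ∀ p : ℕ, p.Prime → z < p → Sp f p → ¬ (p : ℤ) ∣ u p := fun p hp hzp hsp =>
    hu p hp (by omega) hsp
  obtain ⟨C, hC⟩ := height (hSD z (by omega)) (by omega) (by omega) hu' S hL
    (fun c => 2 ^ Module.finrank ℂ (Eig (rF L (Sh c.1 c.2)) χ)) (by
      intro c t hr hD
      obtain ⟨a1, a2, a3, r, hv⟩ := rel_vr hr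
      have hFF : UF.FF t ≠ 0 := by
        unfold UF.FF
        exact mul_ne_zero (mul_ne_zero a1 a2) (sub_ne_zero.2 a3)
      have hfin := (rankS (f := f) (u := u) (z := z) (by omega) hu' (t := t) (y := 1)
        (N := (UF.FF t).natAbs) le_rfl hFF Nat.lt_two_pow_self (hL t hFF)).1
      haveI : Fintype (L ≃ₐ[ℚ] L) := Fintype.ofFinite _
      refine dim_pairs hE D hg a1 a2 a3 (fin_pts L hD)
        (pe_vr hv (Run7.h318.SH.delta_Sh hD) (pe_base hE (Sh c.1 c.2))) hfin fun P hP e he => ?_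
      exact ⟨_, ms_of (pe_vr hv (Run7.h318.SH.delta_Sh hD) (pe_base hE (Sh c.1 c.2))) hP, he⟩)
  refine ⟨C, fun H => ?_⟩
  have h2 := hC H
  push_cast at h2
  exact h2

end Run7.h318.CH
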