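import Pool.Agent.Run7.h318.CH.D2

/-!
# The trivial character and the abelian extensions
-/

set_option autoImplicit false
set_option linter.all false

namespace Run7.h318.CH

open Finset TensorProduct

open scoped Classical

section

variable {G B : Type} [Group G] [AddCommGroup B] [Fintype G] {ρ : G →* AddMonoid.End B}

lemma finrank_tensor (B : Type) [AddCommGroup B] :
    Module.finrank ℂ (ℂ ⊗[ℤ] B) = Module.finrank ℤ B :=
  (TensorProduct.isBaseChange ℤ B ℂ).finrank_eq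

/-- the trivial character -/
theorem eig_one {B0 : Type} [AddCommGroup B0] (hB0 : Module.Finite ℤ B0) (i : B0 →+ B)
    (hi : ∀ P : B, (∀ σ, ρ σ P = P) → ∃ P0, i P0 = P) :
    Module.finrank ℂ (Eig ρ 1) ≤ Module.finrank ℤ B0 := by
  rw [← finrank_tensor]
  set f : (ℂ ⊗[ℤ] B0) →ₗ[ℂ] (ℂ ⊗[ℤ] B) := LinearMap.baseChange ℂ i.toIntLinearMap with hf
  have hfin : Module.Finite ℂ (ℂ ⊗[ℤ] B0) := inferInstance
  have h1 : ∀ v : ℂ ⊗[ℤ] B, pr ρ 1 v ∈ LinearMap.range f := by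
    intro v
    induction v using TensorProduct.induction_on with
    | zero => rw [map_zero]; exact Submodule.zero_mem _
    | add x y hx hy => rw [map_add]; exact Submodule.add_mem _ hx hy
    | tmul c P =>
      obtain ⟨P0, hP0⟩ := hi (∑ σ : G, ρ σ P) (by
        intro τ
        rw [map_sum]
        refine Fintype.sum_equiv (Equiv.mulLeft τ) _ _ fun σ => ?_
        rw [← rho_mul]
        rfl)
      refine ⟨c ⊗ₜ[ℤ] P0, ?_⟩
      have h2 : f (c ⊗ₜ[ℤ] P0) = c ⊗ₜ[ℤ] (i P0) := rfl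
      rw [h2, hP0]
      unfold pr
      rw [LinearMap.sum_apply, tmul_sum]
      refine sum_congr rfl fun σ _ => ?_
      rw [LinearMap.smul_apply, gl_tmul, MonoidHom.one_apply, Units.val_one, inv_one, one_smul]
  have h2 : Eig ρ 1 ≤ LinearMap.range f := by
    intro v hv
    have h3 := h1 v
    rw [pr_eig hv] at h3
    have hc : (Fintype.card G : ℂ) ≠ 0 := by exact_mod_cast Fintype.card_ne_zero
    have h4 := Submodule.smul_mem _ (Fintype.card G : ℂ)⁻¹ h3
    rwa [smul_smul, inv_mul_cancel₀ hc, one_smul] at h4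
  exact (Submodule.finrank_mono h2).trans (LinearMap.finrank_range_le f)

end

section

variable {G B : Type} [CommGroup G] [AddCommGroup B] [Fintype G] {ρ : G →* AddMonoid.End B}

lemma pr_mem (χ : G →* ℂˣ) (v : ℂ ⊗[ℤ] B) : pr ρ χ v ∈ Eig ρ χ := by
  intro τ
  unfold pr
  rw [LinearMap.sum_apply, map_sum, smul_sum]
  refine Fintype.sum_equiv (Equiv.mulLeft τ) _ _ fun σ => ?_
  rw [LinearMap.smul_apply, LinearMap.smul_apply, map_smul, smul_smul]
  have h1 : gl ρ τ (gl ρ σ v) = gl ρ (τ * σ) v := by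
    induction v using TensorProduct.induction_on with
    | zero => simp only [map_zero]
    | add x y hx hy => simp only [map_add, hx, hy]
    | tmul c P => rw [gl_tmul, gl_tmul, gl_tmul, rho_mul]
  rw [h1, Equiv.coe_mulLeft, map_mul]
  congr 1
  push_cast
  rw [mul_inv, ← mul_assoc, mul_inv_cancel₀ (Units.ne_zero (χ τ)), one_mul]

/-- the sum over the characters -/
lemma sum_char [Fintype (G →* ℂˣ)] {σ : G} (h : σ ≠ 1) :
    ∑ χ : G →* ℂˣ, ((χ σ : ℂˣ) : ℂ)⁻¹ = 0 := by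
  obtain ⟨φ, hφ⟩ := CommGroup.exists_apply_ne_one_of_hasEnoughRootsOfUnity G ℂ h
  have h1 : ((φ σ : ℂˣ) : ℂ)⁻¹ * ∑ χ : G →* ℂˣ, ((χ σ : ℂˣ) : ℂ)⁻¹ =
      ∑ χ : G →* ℂˣ, ((χ σ : ℂˣ) : ℂ)⁻¹ := by
    rw [mul_sum]
    refine Fintype.sum_equiv (Equiv.mulLeft φ) _ _ fun χ => ?_
    rw [Equiv.coe_mulLeft, MonoidHom.mul_apply]
    push_cast
    rw [mul_inv]
  have h2 : ((φ σ : ℂˣ) : ℂ)⁻¹ ≠ 1 := by
    intro h3
    apply hφ
    apply Units.ext
    rw [Units.val_one, ← inv_inv ((φ σ : ℂˣ) : ℂ), h3, inv_one]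
  have h3 : (((φ σ : ℂˣ) : ℂ)⁻¹ - 1) * ∑ χ : G →* ℂˣ, ((χ σ : ℂˣ) : ℂ)⁻¹ = 0 := by
    rw [sub_mul, h1, one_mul, sub_self]
  exact (mul_eq_zero.1 h3).resolve_left (sub_ne_zero.2 h2)

/-- the dimension is the sum over the characters -/
theorem sum_eig [Fintype (G →* ℂˣ)] (hB : Module.Finite ℤ B) :
    Module.finrank ℤ B ≤ ∑ χ : G →* ℂˣ, Module.finrank ℂ (Eig ρ χ) := by
  rw [← finrank_tensor]
  have hfin : Module.Finite ℂ (ℂ ⊗[ℤ] B) := inferInstance
  let f : ((χ : G →* ℂˣ) → Eig ρ χ) →ₗ[ℂ] (ℂ ⊗[ℤ] B) :=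
    ∑ χ : G →* ℂˣ, (Eig ρ χ).subtype ∘ₗ LinearMap.proj χ
  have hf : ∀ x, f x = ∑ χ, (x χ : ℂ ⊗[ℤ] B) := by
    intro x
    simp [f]
  have hsur : Function.Surjective f := by
    intro v
    have hc : (Fintype.card (G →* ℂˣ) : ℂ) ≠ 0 := by exact_mod_cast Fintype.card_ne_zero
    refine ⟨(Fintype.card (G →* ℂˣ) : ℂ)⁻¹ • fun χ => ⟨pr ρ χ v, pr_mem χ v⟩, ?_⟩
    rw [map_smul, hf]
    have h1 : ∑ χ : G →* ℂˣ, pr ρ χ v = (Fintype.card (G →* ℂˣ) : ℂ) • v := by
      unfold pr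
      simp only [LinearMap.sum_apply, LinearMap.smul_apply]
      rw [sum_comm, sum_eq_single (1 : G)]
      · have h2 : gl ρ 1 v = v := by
          induction v using TensorProduct.induction_on with
          | zero => simp only [map_zero]
          | add x y hx hy => rw [map_add, hx, hy]
          | tmul c P => rw [gl_tmul, rho_one]
        have h3 : ∀ χ ∈ (univ : Finset (G →* ℂˣ)), ((χ 1 : ℂˣ) : ℂ)⁻¹ • gl ρ 1 v = v := by
          intro χ _
          rw [map_one, Units.val_one, inv_one, one_smul, h2]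
        rw [sum_congr rfl h3, sum_const, card_univ, Nat.cast_smul_eq_nsmul]
      · intro σ _ hσ
        rw [← sum_smul, sum_char hσ, zero_smul]
      · intro h
        exact absurd (mem_univ _) h
    rw [h1, smul_smul, inv_mul_cancel₀ hc, one_smul]
  have h1 := LinearMap.finrank_le_finrank_of_surjective hsur
  rwa [Module.finrank_pi_fintype] at h1

end

end Run7.h318.CH
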