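import Pool.Agent.Run7.h318.CH.C5
import Pool.Agent.Run7.h69.AV
import Pool.Agent.Run7.h69.RK

/-!
# The average of the moments of the local count of twists, over the split primes
-/

set_option autoImplicit false
set_option linter.all false

namespace Run7.h318.CH

open Finset Polynomial
open Pool.Agent.W262.RK hiding lk ff s1 s2 LL
open Pool.Agent.W655.RK (PS_prime PS_lt PS_le prod_primes_squarefree sum_mult prod_le_exp
  sum_inv_sq)
open Run7.h69.AT (k1)
open Run7.h69

open scoped Classical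

/-- the bounds for the twisted sums over the split primes -/
def UtS (f : ℤ[X]) (z : ℕ) : Prop := ∀ κ : ℤ, κ ≠ 0 → κ.natAbs ≤ z →
  ∃ B C : ℝ, ∀ (y r : ℕ) (x : Bool), z < y → 1 < r → Squarefree r →
    (∀ p : ℕ, p.Prime → p ∣ r → z < p) →
    ∑ p ∈ PS z y, ind f p / p * (Jr p r * Jr κ p * x4 x p) ≤ B * Real.log (Real.log r) + C

/-- the bounds hold -/
theorem exists_UtS {f : ℤ[X]} (hf : Irreducible f) (hd : 0 < f.natDegree) {z0 : ℕ}
    (hrho : ∀ p : ℕ, p.Prime → z0 < p → Sp f p → rho f p = f.natDegree) :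
    ∃ z1 : ℕ, ∀ z, z1 ≤ z → UtS f z := by
  obtain ⟨g, z2, hg1, hg2, hM, hU⟩ := UT.irr f hf
  set n : ℝ := (f.natDegree : ℝ) with hn
  have hn0 : 0 < n := by rw [hn]; exact_mod_cast hd
  refine ⟨z0 + z2 + 3, fun z hz κ hκ hκz => ?_⟩
  have hind : ∀ y, ∀ p ∈ PS z y, ind f p / p = (1 / n) * ((rho f p : ℝ) / p) := by
    intro y p hp
    unfold ind
    split_ifs with h
    · rw [hrho p (PS_prime hp) (by have := PS_lt hp; omega) h, ← hn]
      field_simp
    · rw [rho_zero h]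
      simp
  obtain ⟨B, C, hBC⟩ := hU z (by omega) κ hκ hκz
  refine ⟨B / n, C / n, fun y r x hy hr hrs hrp => ?_⟩
  have h1 := mul_le_mul_of_nonneg_left (hBC y r x hy hr hrs hrp)
    (by positivity : (0 : ℝ) ≤ 1 / n)
  have h2 : ∑ p ∈ PS z y, ind f p / p * (Jr p r * Jr κ p * x4 x p) =
      1 / n * ∑ p ∈ PS z y, (rho f p : ℝ) / p * (Jr p r * Jr κ p * x4 x p) := by
    rw [mul_sum]
    refine sum_congr rfl fun p hp => ?_
    rw [hind y p hp]
    ring
  rw [h2]
  refine h1.trans (le_of_eq ?_)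
  field_simp

/-- the weight -/
noncomputable def wX (p : ℕ) : ℝ := br (X : ℤ[X]) p

lemma wX_eq {p : ℕ} (hp : p.Prime) : wX p = 1 / ((p : ℝ) - 1) := by
  unfold wX br
  rw [rho_X hp, natDegree_X]
  push_cast
  rfl

lemma wX_nonneg {p : ℕ} (hp : p.Prime) : 0 ≤ wX p := by
  have h : (2 : ℝ) ≤ p := by exact_mod_cast hp.two_le
  rw [wX_eq hp]
  exact div_nonneg (by norm_num) (by linarith)

lemma wX_diff {p : ℕ} (hp : p.Prime) : 0 ≤ wX p - 1 / p ∧ wX p - 1 / p ≤ 2 * (1 / (p : ℝ) ^ 2) := by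
  have h : (2 : ℝ) ≤ p := by exact_mod_cast hp.two_le
  have h0 : (0 : ℝ) < p := by linarith
  have h1 : (0 : ℝ) < (p : ℝ) - 1 := by linarith
  rw [wX_eq hp]
  have e : 1 / ((p : ℝ) - 1) - 1 / p = 1 / (p * (p - 1)) := by
    field_simp
    ring
  rw [e]
  refine ⟨by positivity, ?_⟩
  rw [mul_one_div, div_le_div_iff₀ (by positivity) (by positivity)]
  nlinarith

lemma wX_le {p : ℕ} (hp : p.Prime) : wX p ≤ 2 * (1 / (p : ℝ)) := by
  have h : (2 : ℝ) ≤ p := by exact_mod_cast hp.two_le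
  have h0 : (0 : ℝ) < p := by linarith
  have h1 : (0 : ℝ) < (p : ℝ) - 1 := by linarith
  rw [wX_eq hp, mul_one_div, div_le_div_iff₀ h1 h0]
  linarith

variable {f : ℤ[X]} {z : ℕ} {δ : ℝ}

lemma sum_wX (h : SD f z δ) : ∃ C : ℝ, ∀ y, z < y →
    ∑ p ∈ PS z y, ind f p * wX p ≤ δ * Real.log (Real.log y) + C := by
  obtain ⟨C, hC⟩ := h.up
  obtain ⟨K, hK, hsq⟩ := sum_inv_sq
  refine ⟨C + 2 * K, fun y hy => ?_⟩
  have h1 : ∀ p ∈ PS z y, ind f p * wX p ≤ ind f p / p + 2 * (1 / (p : ℝ) ^ 2) := by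
    intro p hp
    obtain ⟨e1, e2⟩ := wX_diff (PS_prime hp)
    have h2 := ind_nonneg f p
    have h3 := ind_le f p
    have h4 : ind f p * (wX p - 1 / p) ≤ 1 * (wX p - 1 / p) := mul_le_mul_of_nonneg_right h3 e1
    have h5 : ind f p * wX p = ind f p / p + ind f p * (wX p - 1 / p) := by ring
    linarith
  have h2 := sum_le_sum h1
  rw [sum_add_distrib, ← mul_sum] at h2
  have h3 := hC y hy
  have h4 := hsq (PS z y)
  linarith

lemma jx_abs' (p r : ℕ) (κ : ℤ) (x : Bool) : |Jr p r * Jr κ p * x4 x p| ≤ 1 := by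
  rw [abs_mul, abs_mul]
  exact mul_le_one₀ (mul_le_one₀ (abs_Jr_le _ _) (abs_nonneg _) (abs_Jr_le _ _))
    (abs_nonneg _) (abs_x4_le _ _)

/-- **the average of the moments over the split primes** -/
theorem avgT (h : SD f z δ) (hU : UtS f z) {k : ℕ} {κ : Fin 3 → ℤ} (hz2 : 2 ≤ z)
    (hκ : ∀ i, κ i ≠ 0) (hκz : ∀ i, (κ i).natAbs ≤ z)
    (hκk : ∀ i : XP.Ik k, (XP.κk κ i).natAbs ≤ z) (hk : 1 ≤ k) :
    ∃ C : ℝ, ∀ y, z < y → ∑ s ∈ (PP z y).divisors, NBk k κ s * gm (fun p => ind f p * wX p) s ≤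
      C * (Real.log y) ^ δ := by
  have hδ := h.d0
  have hδ1 := h.d1
  have h4 : (0 : ℝ) < 4 ^ k := by positivity
  have h44 : (4 : ℝ) ≤ 4 ^ k := le_self_pow₀ (by norm_num) (by omega)
  have hq : ((1 : ℝ) / 4) ^ k = 1 / 4 ^ k := by rw [div_pow, one_pow]
  obtain ⟨Cb, hCb⟩ := sum_wX h
  obtain ⟨K, hK, hsq⟩ := sum_inv_sq
  set w : ℕ → ℝ := fun p => ind f p * wX p with hw
  have hw0 : ∀ p : ℕ, p.Prime → 0 ≤ w p := fun p hp => mul_nonneg (ind_nonneg f p) (wX_nonneg hp)
  set e : XP.Ik k → ℝ := fun _ => (1 / 4) ^ k * δ with he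
  set b : XP.Ik k → ℕ → ℝ := fun _ p => (1 / 4) ^ k * w p with hbdef
  obtain ⟨C, B, hB⟩ := AT.bd_of (ι := XP.Ik k) (e := e) (a := fun i => XP.ak κ w i) (b := b)
    (z := z) hz2
    (fun i => by simp only [he]; positivity)
    (fun i => by
      simp only [he]
      rw [hq, one_div_mul_eq_div, div_le_iff₀ h4]
      linarith)
    (fun i p hp hpz => by
      have h1 := hw0 p hp
      simp only [hbdef, XP.ak]
      rw [abs_mul, abs_of_nonneg (by positivity : 0 ≤ (1 / 4 : ℝ) ^ k * w p)]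
      exact mul_le_of_le_one_right (by positivity) (abs_Jr_le _ _))
    (fun i p hp hpz => by
      have h0 := wX_nonneg hp
      have h1 : w p ≤ 2 * (1 / (p : ℝ)) := by
        have h2 : w p ≤ 1 * wX p := mul_le_mul_of_nonneg_right (ind_le f p) h0
        linarith [wX_le hp]
      have hp0 : (0 : ℝ) < p := by exact_mod_cast hp.pos
      simp only [hbdef]
      rw [hq]
      calc 1 / 4 ^ k * w p ≤ 1 / 4 ^ k * (2 * (1 / (p : ℝ))) :=
            mul_le_mul_of_nonneg_left h1 (by positivity)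
        _ = (2 / 4 ^ k) * (1 / (p : ℝ)) := by ring
        _ ≤ 1 * (1 / (p : ℝ)) := by
            apply mul_le_mul_of_nonneg_right _ (by positivity)
            rw [div_le_one h4]
            linarith
        _ = _ := one_mul _)
    (fun i => by
      refine ⟨(1 / 4) ^ k * Cb, fun y hy => ?_⟩
      simp only [hbdef, he]
      rw [← mul_sum, mul_assoc, ← mul_add]
      exact mul_le_mul_of_nonneg_left (hCb y hy) (by positivity))
    (fun i => by
      obtain ⟨B0, C1, h⟩ := hU (XP.κk κ i) (κk_ne hκ i) (hκk i)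
      refine ⟨(1 / 4) ^ k * B0, (1 / 4) ^ k * (C1 + 2 * K),
        fun y r x hy hr hrs hrp => ?_⟩
      have h1 := h y r x hy hr hrs hrp
      have h2 : ∑ p ∈ PS z y, XP.ak κ w i p * (Jr p r * x4 x p) ≤
          (1 / 4) ^ k * (∑ p ∈ PS z y, ind f p / p * (Jr p r * Jr (XP.κk κ i) p * x4 x p) +
            2 * ∑ p ∈ PS z y, (1 / (p : ℝ) ^ 2)) := by
        rw [mul_sum, ← sum_add_distrib, mul_sum]
        apply sum_le_sum
        intro p hp
        obtain ⟨d1, d2⟩ := wX_diff (PS_prime hp)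
        set c : ℝ := Jr p r * Jr (XP.κk κ i) p * x4 x p with hc
        have hc2 := (abs_le.1 (jx_abs' p r (XP.κk κ i) x)).2
        rw [← hc] at hc2
        have e1 : XP.ak κ w i p * (Jr p r * x4 x p) = (1 / 4) ^ k * (w p * c) := by
          unfold XP.ak
          rw [hc]
          ring
        rw [e1]
        apply mul_le_mul_of_nonneg_left _ (by positivity)
        have e2 : w p * c = ind f p / p * c + (ind f p * c) * (wX p - 1 / p) := by
          rw [hw]
          ring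
        rw [e2]
        have h5 : ind f p * c ≤ 1 := by
          have h6 := ind_nonneg f p
          have h7 := ind_le f p
          nlinarith
        have h6 : (ind f p * c) * (wX p - 1 / p) ≤ 1 * (wX p - 1 / p) :=
          mul_le_mul_of_nonneg_right h5 d1
        linarith
      refine h2.trans ?_
      have e0 : (1 / 4 : ℝ) ^ k * B0 * Real.log (Real.log r) +
          (1 / 4) ^ k * (C1 + 2 * K) =
          (1 / 4) ^ k * (B0 * Real.log (Real.log r) + (C1 + 2 * K)) := by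
        ring
      rw [e0]
      apply mul_le_mul_of_nonneg_left _ (by positivity)
      have h3 := mul_le_mul_of_nonneg_left (hsq (PS z y)) (by norm_num : (0 : ℝ) ≤ 2)
      linarith)
  obtain ⟨C', hC'⟩ := AT.main (L := XP.Lk)
    (Pool.Agent.W655.RK.blw_of (_root_.W37.RK.bl_of Pool.Agent.W505.RK.ls)) hB Lk_self δ (by
    intro U hU
    have h1 := XP.comb U hU
    have h2 : (U.card : ℝ) ≤ 4 ^ k := by exact_mod_cast h1
    simp only [he]
    rw [sum_const, nsmul_eq_mul, hq]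
    calc (U.card : ℝ) * (1 / 4 ^ k * δ) = (U.card / 4 ^ k) * δ := by ring
      _ ≤ 1 * δ := by
          apply mul_le_mul_of_nonneg_right _ (by linarith)
          rw [div_le_one h4]
          exact h2
      _ = δ := one_mul _)
  refine ⟨C', fun y hy => ?_⟩
  rw [XP.expand κ w hκ hκz]
  exact (le_abs_self _).trans (hC' y hy)

end Run7.h318.CH
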