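import Pool.Agent.Run7.h318.CH.E1

/-!
# The average of the moments of the local count of the split part, for twists
-/

set_option autoImplicit false
set_option linter.all false

namespace Run7.h318.CH

open Finset Polynomial
open Pool.Agent.W262.RK hiding lk ff s1 s2 LL
open Pool.Agent.W655.RK (PS_prime PS_lt PS_le prod_primes_squarefree sum_mult prod_le_exp
  sum_inv_sq)
open Run7.h69.AT (k1)
open Run7.h69

open scoped Classical

variable {f : ℤ[X]} {z : ℕ} {δ : ℝ}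

lemma pf_lt {y s : ℕ} (hs : s ∣ PP z y) {p : ℕ} (hp : p ∈ s.primeFactors) : p.Prime ∧ z < p := by
  have h4 : p ∣ PP z y := (Nat.dvd_of_mem_primeFactors hp).trans hs
  unfold PP at h4
  obtain ⟨q, hq, hpq⟩ := ((Nat.prime_of_mem_primeFactors hp).prime.dvd_finset_prod_iff _).1 h4
  have h5 := (Nat.prime_dvd_prime_iff_eq (Nat.prime_of_mem_primeFactors hp) (PS_prime hq)).1 hpq
  have := PS_lt hq
  exact ⟨Nat.prime_of_mem_primeFactors hp, by omega⟩

/-- the sum of a function of the split part -/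
theorem split_sum (f : ℤ[X]) (G0 φ : ℕ → ℝ) (hG : ∀ s, 0 ≤ G0 s)
    (hφ : ∀ p : ℕ, p.Prime → z < p → 0 ≤ φ p) (y : ℕ) :
    ∑ s ∈ (PP z y).divisors, G0 (spl (Sp f) s) * gm φ s ≤
      (∑ s ∈ (PP z y).divisors, G0 s * gm (fun p => ind f p * φ p) s) *
        ∑ s ∈ (PP z y).divisors, gm (fun p => (1 - ind f p) * φ p) s := by
  set D := (PP z y).divisors with hD
  set F : ℕ → ℝ := fun a => G0 a * gm (fun p => ind f p * φ p) a with hF
  set G : ℕ → ℝ := fun b => gm (fun p => (1 - ind f p) * φ p) b with hG'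
  have hp6 : ∀ s ∈ D, ∀ p ∈ s.primeFactors, 0 ≤ φ p := by
    intro s hs p hp
    obtain ⟨h1, h2⟩ := pf_lt (Nat.mem_divisors.1 hs).1 hp
    exact hφ p h1 h2
  have hF0 : ∀ a ∈ D, 0 ≤ F a := by
    intro a ha
    exact mul_nonneg (hG _) (prod_nonneg fun p hp => mul_nonneg (ind_nonneg f p) (hp6 a ha p hp))
  have hG0 : ∀ b ∈ D, 0 ≤ G b := by
    intro b hb
    refine prod_nonneg fun p hp => mul_nonneg ?_ (hp6 b hb p hp)
    have := ind_le f p
    linarith
  set ψ : ℕ → ℕ × ℕ := fun s => (spl (Sp f) s, spl (Ns f) s) with hψ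
  have hinj : Set.InjOn ψ (D : Set ℕ) := by
    intro s hs s' hs' hss
    have e1 : spl (Sp f) s = spl (Sp f) s' := congrArg Prod.fst hss
    have e2 : spl (Ns f) s = spl (Ns f) s' := congrArg Prod.snd hss
    have hsq := dv_squarefree (mem_coe.1 hs)
    have hsq' := dv_squarefree (mem_coe.1 hs')
    have e1' := congrArg Nat.primeFactors e1
    have e2' := congrArg Nat.primeFactors e2
    rw [spl_pf, spl_pf] at e1' e2'
    have h3 : s.primeFactors = s'.primeFactors := by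
      ext p
      have g1 := Finset.ext_iff.1 e1' p
      have g2 := Finset.ext_iff.1 e2' p
      rw [mem_filter, mem_filter] at g1 g2
      unfold Ns at g2
      tauto
    rw [← Nat.prod_primeFactors_of_squarefree hsq, ← Nat.prod_primeFactors_of_squarefree hsq', h3]
  calc ∑ s ∈ D, G0 (spl (Sp f) s) * gm φ s = ∑ s ∈ D, F (ψ s).1 * G (ψ s).2 := by
        refine sum_congr rfl fun s _ => ?_
        rw [gm_split (f := f) φ s, hF, hG', hψ]
        ring
    _ = ∑ x ∈ D.image ψ, F x.1 * G x.2 := by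
        rw [sum_image hinj]
    _ ≤ ∑ x ∈ D ×ˢ D, F x.1 * G x.2 := by
        apply sum_le_sum_of_subset_of_nonneg
        · intro x hx
          obtain ⟨s, hs, rfl⟩ := mem_image.1 hx
          rw [mem_product, hψ]
          have hs' := Nat.mem_divisors.1 hs
          exact ⟨Nat.mem_divisors.2 ⟨(spl_dvd _ _).trans hs'.1, hs'.2⟩,
            Nat.mem_divisors.2 ⟨(spl_dvd _ _).trans hs'.1, hs'.2⟩⟩
        · intro x hx _
          rw [mem_product] at hx
          exact mul_nonneg (hF0 _ hx.1) (hG0 _ hx.2)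
    _ = _ := by
        rw [sum_product, sum_mul_sum]

lemma nonsplit_wX (h : SD f z δ) (hz : 2 ≤ z) : ∃ C : ℝ, 0 ≤ C ∧ ∀ y : ℕ, z < y →
    ∑ s ∈ (PP z y).divisors, gm (fun p => (1 - ind f p) * wX p) s ≤
      C * (Real.log y) ^ (1 - δ) := by
  obtain ⟨C, hC⟩ := h.lo
  obtain ⟨K, hK, hsq⟩ := sum_inv_sq
  refine ⟨Real.exp (C + 2 * K), (Real.exp_pos _).le, fun y hy => ?_⟩
  have h0 : ∑ s ∈ (PP z y).divisors, gm (fun p => (1 - ind f p) * wX p) s =
      ∏ p ∈ PS z y, (1 + (1 - ind f p) * wX p) := by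
    unfold gm PP
    exact sum_mult (PS z y) (fun p hp => PS_prime hp) _
  have hpos : ∀ p ∈ PS z y, 0 ≤ (1 - ind f p) * wX p := fun p hp =>
    mul_nonneg (by have := ind_le f p; linarith) (wX_nonneg (PS_prime hp))
  have h1 : ∑ p ∈ PS z y, (1 - ind f p) * wX p ≤
      ((1 - δ) * Real.log (Real.log y) + C) + 2 * K := by
    have h2 : ∀ p ∈ PS z y, (1 - ind f p) * wX p ≤
        (1 - ind f p) / p + 2 * (1 / (p : ℝ) ^ 2) := by
      intro p hp
      obtain ⟨e1, e2⟩ := wX_diff (PS_prime hp)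
      have h5 : 1 - ind f p ≤ 1 := by have := ind_nonneg f p; linarith
      have h6 : (1 - ind f p) * (wX p - 1 / p) ≤ 1 * (wX p - 1 / p) :=
        mul_le_mul_of_nonneg_right h5 e1
      have h8 : (1 - ind f p) * wX p = (1 - ind f p) / p + (1 - ind f p) * (wX p - 1 / p) := by
        ring
      linarith
    have h3 := sum_le_sum h2
    rw [sum_add_distrib, ← mul_sum] at h3
    have h4 := hC y hy
    have h5 := hsq (PS z y)
    linarith
  rw [h0]
  refine (prod_le_exp (PS z y) _ fun p hp => by have := hpos p hp; linarith).trans ?_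
  refine (Real.exp_le_exp.2 h1).trans (le_of_eq ?_)
  have hl : 0 < Real.log y := by
    apply Real.log_pos
    exact_mod_cast (by omega : 1 < y)
  rw [Real.rpow_def_of_pos hl, ← Real.exp_add]
  congr 1
  ring

/-- the average of the split part -/
noncomputable def NXk (f : ℤ[X]) (k : ℕ) (κ : Fin 3 → ℤ) (s : ℕ) : ℝ := NBk k κ (spl (Sp f) s)

lemma NXk_nonneg (f : ℤ[X]) (k : ℕ) (κ : Fin 3 → ℤ) (s : ℕ) : 0 ≤ NXk f k κ s := NBk_nonneg _ _ _

/-- submultiplicativity -/
theorem subNX (k : ℕ) {κ : Fin 3 → ℤ} {y s e : ℕ} (hz : 2 ≤ z) (hκ0 : ∀ i, κ i ≠ 0)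
    (hκz : ∀ i, (κ i).natAbs ≤ z) (h : s * e ∣ PP z y) :
    NXk f k κ (s * e) ≤ (4 ^ k) ^ e.primeFactors.card * NXk f k κ s := by
  have hse : s * e ∈ (PP z y).divisors := Nat.mem_divisors.2 ⟨h, PP_ne_zero z y⟩
  have hsq := dv_squarefree hse
  have hcop := Nat.coprime_of_squarefree_mul hsq
  unfold NXk
  rw [spl_mul hcop]
  refine (subk k hz hκ0 hκz (y := y) ?_).trans ?_
  · exact (mul_dvd_mul (spl_dvd _ _) (spl_dvd _ _)).trans h
  · exact mul_le_mul_of_nonneg_right (pow_le_pow_right₀ (one_le_pow₀ (by norm_num)) (spl_card _ _))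
      (NBk_nonneg _ _ _)

/-- **the average of the split part** -/
theorem avgTX (h : SD f z δ) (hU : UtS f z) {k : ℕ} {κ : Fin 3 → ℤ} (hz2 : 2 ≤ z)
    (hκ : ∀ i, κ i ≠ 0) (hκz : ∀ i, (κ i).natAbs ≤ z)
    (hκk : ∀ i : XP.Ik k, (XP.κk κ i).natAbs ≤ z) (hk : 1 ≤ k) :
    ∃ C : ℝ, ∀ y, z < y → ∑ s ∈ (PP z y).divisors, NXk f k κ s * gm (br (X : ℤ[X])) s ≤
      C * (Real.log y) ^ 1 := by
  obtain ⟨C1, h1⟩ := avgT h hU hz2 hκ hκz hκk hk
  obtain ⟨C2, hC2, h2⟩ := nonsplit_wX h hz2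
  refine ⟨C1 * C2, fun y hy => ?_⟩
  have hl : 0 < Real.log y := by
    apply Real.log_pos
    exact_mod_cast (by omega : 1 < y)
  have h3 := split_sum (z := z) f (NBk k κ) wX (NBk_nonneg k κ) (fun p hp _ => wX_nonneg hp) y
  refine h3.trans ?_
  have h4 := h1 y hy
  have h5 := h2 y hy
  have h6 : 0 ≤ ∑ s ∈ (PP z y).divisors, gm (fun p => (1 - ind f p) * wX p) s := by
    refine sum_nonneg fun s hs => prod_nonneg fun p hp => mul_nonneg ?_ ?_
    · have := ind_le f p
      linarith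
    · exact wX_nonneg (Nat.prime_of_mem_primeFactors hp)
  have h7 : 0 ≤ ∑ s ∈ (PP z y).divisors, NBk k κ s * gm (fun p => ind f p * wX p) s := by
    refine sum_nonneg fun s hs => mul_nonneg (NBk_nonneg _ _ _) (prod_nonneg fun p hp => ?_)
    exact mul_nonneg (ind_nonneg f p) (wX_nonneg (Nat.prime_of_mem_primeFactors hp))
  calc _ ≤ (C1 * (Real.log y) ^ δ) * (C2 * (Real.log y) ^ (1 - δ)) :=
        mul_le_mul h4 h5 h6 (h7.trans h4)
    _ = C1 * C2 * (Real.log y) ^ 1 := by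
        rw [show (C1 * (Real.log y) ^ δ) * (C2 * (Real.log y) ^ (1 - δ)) =
          C1 * C2 * ((Real.log y) ^ δ * (Real.log y) ^ (1 - δ)) by ring, ← Real.rpow_add hl]
        congr 1
        rw [show δ + (1 - δ) = ((1 : ℕ) : ℝ) by push_cast; ring, Real.rpow_natCast]

end Run7.h318.CH
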