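import Pool.Agent.Run7.h318.CH.E2
import Pool.Agent.Run7.h69.RK
import Pool.Agent.Run7.h318.SH.Rk

/-!
# The moments over the quadratic twists
-/

set_option autoImplicit false
set_option linter.all false

namespace Run7.h318.CH

open Finset Polynomial
open Pool.Agent.W262.RK hiding lk ff s1 s2 LL
open Pool.Agent.W125.RK2 (NL_congr)
open Pool.Agent.W262.SH (LocSol)
open Pool.Agent.W655.RK (PS_prime PS_lt PS_le)
open Run7.h69
open Run7.h69.RK hiding rank moments

open scoped Classical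

variable {f : ℤ[X]} {u : ℕ → ℤ} {z : ℕ} {δ : ℝ}

/-- the primes with negative sign, twisted -/
noncomputable def ngu (u : ℕ → ℤ) (t : ℤ) (s : ℕ) : Finset ℕ :=
  s.primeFactors.filter (fun p => jacobiSym (u p * t / p) p = -1)

/-- **the number of the pairs and the local count at the split primes, for twists** -/
lemma rankT (hz : 2 ≤ z) (hu : ∀ p : ℕ, p.Prime → z < p → Sp f p → ¬ (p : ℤ) ∣ u p) {a b : ℤ}
    (ha : a ≠ 0) (hb : b ≠ 0) (hab : a ≠ b) (haz : a.natAbs ≤ z)
    (hbz : b.natAbs ≤ z) (habz : (a - b).natAbs ≤ z) {t : ℤ} {y N : ℕ} (hy : 1 ≤ y)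
    (h0 : t ≠ 0) (hN : t.natAbs < (y + 1) ^ N) {S : Set (ℤ × ℤ)}
    (hS : LocD f u z S (a * t) (b * t)) :
    S.Finite ∧ S.ncard ≤ 4 ^ (2 * z + 3) * 4 ^ N *
      4 ^ ((t2 (X : ℤ[X]) z y t).primeFactors.card) *
        NL (spl (Sp f) (t1 (X : ℤ[X]) z y t)) (LE (kp a b) (ngu u t (t1 (X : ℤ[X]) z y t))) := by
  set s := t1 (X : ℤ[X]) z y t with hs
  have hno : ∀ p : ℕ, z < p → ∀ c : ℤ, c ≠ 0 → c.natAbs ≤ z → ¬ (p : ℤ) ∣ c := by
    intro p hzp c hc hcz hd
    have := Nat.le_of_dvd (Int.natAbs_pos.2 hc) (Int.natCast_dvd.1 hd)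
    omega
  have hkp : ∀ p : ℕ, z < p → ∀ k, ¬ (p : ℤ) ∣ kp a b k := by
    intro p hzp
    exact fin3 _ (hno p hzp a ha haz) (hno p hzp b hb hbz)
      (hno p hzp (a - b) (sub_ne_zero.2 hab) habz)
  have hsd : s ∣ PP z y := NX.t1_dvd z y t
  have hs0 : s ≠ 0 := Nat.one_le_iff_ne_zero.1 (NX.dpos hsd)
  have hsq : Squarefree s := (PP_squarefree z y).squarefree_of_dvd hsd
  set m := spl (Sp f) s with hm
  have hmsq : Squarefree m := hsq.squarefree_of_dvd (spl_dvd _ _)
  set OP : Finset ℕ := ((2 * (a * t) * (b * t) * (a * t - b * t)).natAbs.primeFactors.filter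
        (fun q => ¬ q ∣ s)) ∪ range (z + 1) with hOP
  have hD0 : 2 * (a * t) * (b * t) * (a * t - b * t) ≠ 0 :=
    mul_ne_zero (mul_ne_zero (mul_ne_zero two_ne_zero (mul_ne_zero ha h0)) (mul_ne_zero hb h0))
      (sub_ne_zero.mpr fun h => hab (mul_right_cancel₀ h0 h))
  have hpf : ∀ p : ℕ, p.Prime → p ∣ s → z < p ∧ (p : ℤ) ∣ t ∧ ¬ (p : ℤ) ^ 2 ∣ t := by
    intro p hp hps
    obtain ⟨h1, h2, h3⟩ := t1_pf (f := (X : ℤ[X])) hp hps
    rw [eval_X] at h2 h3
    exact ⟨h1, h2, h3⟩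
  obtain ⟨h1, h2⟩ := desc_abs m (LE (kp a b) (ngu u t s)) S OP hmsq
    (fun p hp hpd => by
      have hps := ((mem_spl hp hs0).1 hpd).1
      have hzp := (hpf p hp hps).1
      exact Pool.Agent.W342.RK2.xcl _ _ _ p hp (by omega) (hkp p hzp)) hS.sqf
    (by
      intro q hq hqm hqO e he
      rw [hOP, mem_union, not_or, mem_range, mem_filter, not_and, not_not] at hqO
      obtain ⟨hq1, hq2⟩ := hqO
      have hzq : z < q := by omega
      by_cases hsp : Sp f q
      · have hqf : Fact q.Prime := ⟨hq⟩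
        have hqi : Prime (q : ℤ) := Nat.prime_iff_prime_int.1 hq
        have hqs : ¬ q ∣ s := fun h => hqm ((mem_spl hq hs0).2 ⟨h, hsp⟩)
        have hnd : ¬ (q : ℤ) ∣ 2 * (a * t) * (b * t) * (a * t - b * t) := by
          intro hd
          exact hqs (hq1 (Nat.mem_primeFactors.2 ⟨hq, Int.natCast_dvd.1 hd,
            Int.natAbs_ne_zero.2 hD0⟩))
        have huq := hu q hq hzq hsp
        have hnd2 : ¬ (q : ℤ) ∣ 2 * (u q * (a * t)) * (u q * (b * t)) *
            (u q * (a * t) - u q * (b * t)) := by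
          have e1 : 2 * (u q * (a * t)) * (u q * (b * t)) * (u q * (a * t) - u q * (b * t)) =
              (u q) ^ 3 * (2 * (a * t) * (b * t) * (a * t - b * t)) := by ring
          rw [e1]
          intro h
          rcases hqi.dvd_or_dvd h with h3 | h3
          · exact huq (hqi.dvd_of_dvd_pow h3)
          · exact hnd h3
        obtain ⟨k1, k2⟩ := hS.sqf e he
        exact Run7.h318.SH.good2 q _ _ hnd2 e.1 e.2 k1 k2 (hS.spt q hzq hsp e he)
      · exact hS.nsp q hq hzq hsp e he)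
    (by
      intro p hp hpm e he
      have hpf' : Fact p.Prime := ⟨hp⟩
      have hpi : Prime (p : ℤ) := Nat.prime_iff_prime_int.1 hp
      obtain ⟨hps, hsp⟩ := (mem_spl hp hs0).1 hpm
      obtain ⟨hzp, g1, g2⟩ := hpf p hp hps
      have hup := hu p hp hzp hsp
      obtain ⟨k1, k2⟩ := hS.sqf e he
      have g3 : (p : ℤ) ∣ u p * t := g1.mul_left _
      have g4 : ¬ (p : ℤ) ^ 2 ∣ u p * t := by
        intro h
        have hco : IsCoprime ((p : ℤ) ^ 2) (u p) :=
          IsCoprime.pow_left ((Prime.coprime_iff_not_dvd hpi).2 hup)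
        exact g2 (hco.dvd_of_dvd_mul_left h)
      have hsol := hS.spt p hzp hsp e he
      rw [show u p * (a * t) = a * (u p * t) by ring, show u p * (b * t) = b * (u p * t) by ring]
        at hsol
      refine Run7.h318.SH.locl2 3 (kp a b) _ p _ _ (by omega) (hkp p hzp)
        (locH hp (hno p hzp a ha haz) (hno p hzp b hb hbz)
          (hno p hzp (a - b) (sub_ne_zero.2 hab) habz) g3 g4 ?_)
        e.1 e.2 k1 k2 hsol
      rw [decide_eq_true_eq]
      unfold ngu
      rw [mem_filter, Nat.mem_primeFactors]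
      exact ⟨fun h => h.2, fun h => ⟨⟨hp, hps, hs0⟩, h⟩⟩)
  refine ⟨h1, h2.trans (Nat.mul_le_mul_right _ ?_)⟩
  have hc := bad (f := (X : ℤ[X])) (t := t) hz ha hb hab haz hbz habz hy
    (by rw [eval_X]; exact h0) (by rw [eval_X]; exact hN)
  rw [eval_X, ← hs] at hc
  have hO : OP.card ≤ (z + N + (t2 (X : ℤ[X]) z y t).primeFactors.card) + (z + 1) := by
    refine (card_union_le _ _).trans (add_le_add hc ?_)
    rw [card_range]
  calc _ ≤ 4 ^ ((2 * z + 3) + N + (t2 (X : ℤ[X]) z y t).primeFactors.card) :=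
        Nat.pow_le_pow_right (by norm_num) (by omega)
    _ = _ := by rw [pow_add, pow_add]

/-- the sign of the twist -/
noncomputable def nu (u : ℕ → ℤ) (s : ℕ) : Finset ℕ :=
  s.primeFactors.filter (fun p => jacobiSym (u p) p = -1)

/-- the twisted signs -/
lemma ngu_eq {t : ℤ} {s : ℕ} (p : ℕ) (hp : p ∈ s.primeFactors) (h1 : (p : ℤ) ∣ t)
    (h2 : ¬ (p : ℤ) ^ 2 ∣ t) (hu : ¬ (p : ℤ) ∣ u p) :
    p ∈ ngu u t s ↔ ¬ (p ∈ ng (X : ℤ[X]) t s ↔ p ∈ nu u s) := by
  have hpp := Nat.prime_of_mem_primeFactors hp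
  have hpf : Fact p.Prime := ⟨hpp⟩
  have hpi : Prime (p : ℤ) := Nat.prime_iff_prime_int.1 hpp
  have hp0 : (p : ℤ) ≠ 0 := hpi.ne_zero
  obtain ⟨q, hq⟩ := h1
  have e1 : u p * t / p = u p * q := by
    rw [hq, mul_left_comm, Int.mul_ediv_cancel_left _ hp0]
  have e2 : t / p = q := by rw [hq, Int.mul_ediv_cancel_left _ hp0]
  have hnq : ¬ (p : ℤ) ∣ q := by
    intro h
    apply h2
    rw [hq, pow_two]
    exact mul_dvd_mul_left _ h
  have key : ∀ c : ℤ, ¬ (p : ℤ) ∣ c → jacobiSym c p = 1 ∨ jacobiSym c p = -1 := by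
    intro c hc
    apply jacobiSym.eq_one_or_neg_one
    rw [← Int.isCoprime_iff_gcd_eq_one]
    exact IsCoprime.symm ((Prime.coprime_iff_not_dvd hpi).2 hc)
  unfold ngu ng nu
  rw [mem_filter, mem_filter, mem_filter, eval_X, e1, e2, jacobiSym.mul_left]
  rcases key _ hu with h3 | h3 <;> rcases key _ hnq with h4 | h4 <;> rw [h3, h4] <;>
    simp [hp]

/-- the sum over the signs -/
lemma nu_sum (f : ℤ[X]) (k : ℕ) (κ : Fin 3 → ℤ) (u : ℕ → ℤ) (s : ℕ)
    (Φ : Finset ℕ → Finset ℕ)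
    (hΦ : ∀ E ⊆ s.primeFactors, ∀ p ∈ (spl (Sp f) s).primeFactors,
      (p ∈ Φ E ↔ ¬ (p ∈ E ↔ p ∈ nu u s))) :
    ∑ E ∈ s.primeFactors.powerset, (NL (spl (Sp f) s) (LE κ (Φ E)) : ℝ) ^ k ≤
      2 ^ (spl (Ns f) s).primeFactors.card *
        ∑ E ∈ (spl (Sp f) s).primeFactors.powerset, (NL (spl (Sp f) s) (LE κ E) : ℝ) ^ k := by
  set m := spl (Sp f) s with hm
  set e := spl (Ns f) s with he
  set F : Finset ℕ → ℝ := fun E => (NL m (LE κ E) : ℝ) ^ k with hF
  have hF0 : ∀ E, 0 ≤ F E := fun E => by simp only [hF]; positivity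
  set ψ : Finset ℕ → Finset ℕ × Finset ℕ :=
    fun E => (m.primeFactors.filter (fun p => p ∈ Φ E), E ∩ e.primeFactors) with hψ
  have h1 : ∀ E, (NL m (LE κ (Φ E)) : ℝ) ^ k = F (ψ E).1 := by
    intro E
    have h3 : NL m (LE κ (Φ E)) = NL m (LE κ (m.primeFactors.filter (fun p => p ∈ Φ E))) := by
      apply NL_congr
      intro p hp
      have h4 : decide (p ∈ Φ E) = decide (p ∈ m.primeFactors.filter (fun p => p ∈ Φ E)) := by
        rw [decide_eq_decide, mem_filter]
        exact ⟨fun h => ⟨hp, h⟩, fun h => h.2⟩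
      unfold Run7.h69.LE
      rw [h4]
    rw [h3]
  have hinj : Set.InjOn ψ (s.primeFactors.powerset : Set (Finset ℕ)) := by
    intro E hE E' hE' h
    have hE1 : E ⊆ s.primeFactors := mem_powerset.1 (mem_coe.1 hE)
    have hE2 : E' ⊆ s.primeFactors := mem_powerset.1 (mem_coe.1 hE')
    have e1 : m.primeFactors.filter (fun p => p ∈ Φ E) =
      m.primeFactors.filter (fun p => p ∈ Φ E') := congrArg Prod.fst h
    have e2 : E ∩ e.primeFactors = E' ∩ e.primeFactors := congrArg Prod.snd h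
    have key : ∀ p ∈ s.primeFactors, (p ∈ E ↔ p ∈ E') := by
      intro p hp
      by_cases hsp : Sp f p
      · have hpm : p ∈ m.primeFactors := by
          rw [hm, spl_pf, mem_filter]
          exact ⟨hp, hsp⟩
        have g1 := Finset.ext_iff.1 e1 p
        rw [mem_filter, mem_filter] at g1
        have g2 := hΦ E hE1 p hpm
        have g3 := hΦ E' hE2 p hpm
        have g4 : p ∈ Φ E ↔ p ∈ Φ E' := ⟨fun h => (g1.1 ⟨hpm, h⟩).2, fun h => (g1.2 ⟨hpm, h⟩).2⟩
        tauto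
      · have hpe : p ∈ e.primeFactors := by
          rw [he, spl_pf, mem_filter]
          exact ⟨hp, hsp⟩
        have g1 := Finset.ext_iff.1 e2 p
        rw [mem_inter, mem_inter] at g1
        tauto
    ext p
    constructor
    · intro hp
      exact (key p (hE1 hp)).1 hp
    · intro hp
      exact (key p (hE2 hp)).2 hp
  calc ∑ E ∈ s.primeFactors.powerset, (NL m (LE κ (Φ E)) : ℝ) ^ k
      = ∑ E ∈ s.primeFactors.powerset, F (ψ E).1 := sum_congr rfl fun E _ => h1 E
    _ = ∑ x ∈ s.primeFactors.powerset.image ψ, F x.1 := by rw [sum_image hinj]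
    _ ≤ ∑ x ∈ m.primeFactors.powerset ×ˢ e.primeFactors.powerset, F x.1 := by
        apply sum_le_sum_of_subset_of_nonneg
        · intro x hx
          obtain ⟨E, hE, rfl⟩ := mem_image.1 hx
          rw [mem_product, mem_powerset, mem_powerset]
          exact ⟨filter_subset _ _, inter_subset_right⟩
        · intro x _ _
          exact hF0 _
    _ = _ := by
        rw [sum_product]
        simp only [sum_const, card_powerset, nsmul_eq_mul]
        rw [← mul_sum]
        push_cast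
        rfl

lemma NXk_sum (f : ℤ[X]) (k : ℕ) (κ : Fin 3 → ℤ) (u : ℕ → ℤ) (s : ℕ)
    (Φ : Finset ℕ → Finset ℕ)
    (hΦ : ∀ E ⊆ s.primeFactors, ∀ p ∈ (spl (Sp f) s).primeFactors,
      (p ∈ Φ E ↔ ¬ (p ∈ E ↔ p ∈ nu u s))) :
    (1 / 2 : ℝ) ^ s.primeFactors.card *
      ∑ E ∈ s.primeFactors.powerset, (NL (spl (Sp f) s) (LE κ (Φ E)) : ℝ) ^ k ≤ NXk f k κ s := by
  have h1 := nu_sum f k κ u s Φ hΦ
  set Q := ∑ E ∈ (spl (Sp f) s).primeFactors.powerset, (NL (spl (Sp f) s) (LE κ E) : ℝ) ^ k with hQ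
  have h2 : NXk f k κ s = (1 / 2) ^ (spl (Sp f) s).primeFactors.card * Q := rfl
  rw [h2]
  calc (1 / 2 : ℝ) ^ s.primeFactors.card * _
      ≤ (1 / 2 : ℝ) ^ s.primeFactors.card * (2 ^ (spl (Ns f) s).primeFactors.card * Q) :=
        mul_le_mul_of_nonneg_left h1 (by positivity)
    _ = ((1 / 2 : ℝ) ^ (spl (Ns f) s).primeFactors.card * 2 ^ (spl (Ns f) s).primeFactors.card) *
        ((1 / 2 : ℝ) ^ (spl (Sp f) s).primeFactors.card * Q) := by
        have h3 : s.primeFactors.card = (spl (Sp f) s).primeFactors.card +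
            (spl (Ns f) s).primeFactors.card := by
          rw [spl_pf, spl_pf]
          have h := card_filter_add_card_filter_not (s := s.primeFactors) (Sp f)
          rw [← h]
          congr 2
          ext
          rw [mem_filter, mem_filter]
          rfl
        rw [h3, pow_add]
        ring
    _ = _ := by
        rw [← mul_pow]
        norm_num

end Run7.h318.CH
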