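import Pool.Agent.Run7.h318.CH.E3

/-!
# The moments over the quadratic twists
-/

set_option autoImplicit false
set_option linter.all false

namespace Run7.h318.CH

open Finset Polynomial
open Pool.Agent.W262.RK hiding lk ff s1 s2 LL
open Pool.Agent.W125.RK2 (NL_congr)
open Pool.Agent.W655.RK (PS_prime PS_lt PS_le)
open Run7.h69
open Run7.h69.RK hiding rank moments

open scoped Classical

variable {f : ℤ[X]} {u : ℕ → ℤ} {z : ℕ} {δ : ℝ}

lemma ngu_congr {κ : Fin 3 → ℤ} {m : ℕ} {E E' : Finset ℕ}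
    (h : ∀ p ∈ m.primeFactors, (p ∈ E ↔ p ∈ E')) :
    NL m (Run7.h69.LE κ E) = NL m (Run7.h69.LE κ E') := by
  apply NL_congr
  intro p hp
  have h4 : decide (p ∈ E) = decide (p ∈ E') := by
    rw [decide_eq_decide]
    exact h p hp
  unfold Run7.h69.LE
  rw [h4]

/-- **the moments over the twists** -/
theorem momentsT (h : SD f z δ) (hU : UtS f z)
    (hu : ∀ p : ℕ, p.Prime → z < p → Sp f p → ¬ (p : ℤ) ∣ u p) {a b : ℤ}
    (ha : a ≠ 0) (hb : b ≠ 0) (hab : a ≠ b) (haz : a.natAbs ≤ z)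
    (hbz : b.natAbs ≤ z) (habz : (a - b).natAbs ≤ z) (hz : Gd (X : ℤ[X]) z)
    (hM : Mer (X : ℤ[X]) 1) {m : ℕ} (hm : 1 ≤ m)
    (hκk : ∀ i : XP.Ik m, (XP.κk (kp a b) i).natAbs ≤ z) (S : ℤ → Set (ℤ × ℤ))
    (hS : ∀ t : ℤ, t ≠ 0 → LocD f u z (S t) (a * t) (b * t)) (M : ℕ) :
    ∃ (X0 : ℕ) (B : ℝ), ∀ (x : ℤ) (H : ℕ), x.natAbs ≤ H ^ M → X0 ≤ H →
      ∑ t ∈ NX.II (X : ℤ[X]) x H, ((S t).ncard : ℝ) ^ m ≤ B * H := by
  have hz2 : 2 ≤ z := by have := hz.big; omega
  have hκ0 : ∀ k, kp a b k ≠ 0 := fin3 _ ha hb (sub_ne_zero.2 hab)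
  have hκz : ∀ k, (kp a b k).natAbs ≤ z := fin3 _ haz hbz habz
  obtain ⟨C', hC'⟩ := avgTX h hU hz2 hκ0 hκz hκk hm
  obtain ⟨C, K, y0, hC0, hK1, hcn⟩ := CN.count hz hM
  obtain ⟨c, L, hcL⟩ := growth (X : ℤ[X])
  -- the size of the values
  set L1 : ℕ := (M + 3) * L + 1 with hL1
  set y1 : ℕ := y0 + c + 3 with hy1
  have hval : ∀ (x : ℤ) (H : ℕ), x.natAbs ≤ H ^ M → y1 ≤ H → ∀ t ∈ Ioc x (x + H),
      t.natAbs ≤ H ^ L1 := by
    intro x H hx hX t ht
    rw [mem_Ioc] at ht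
    have hX2 : 2 ≤ H := by omega
    have h1 : t.natAbs + 1 ≤ x.natAbs + H + 1 := by omega
    have h2 : x.natAbs + H + 1 ≤ H ^ (M + 3) := by
      have h3 : H ^ (M + 3) = H ^ M * (H ^ 3) := pow_add _ _ _
      have h4 : 1 ≤ H ^ M := Nat.one_le_pow _ _ (by omega)
      have h5 : H + 1 + 1 ≤ H ^ 3 := by nlinarith [Nat.mul_le_mul hX2 hX2, sq_nonneg (H - 2)]
      calc x.natAbs + H + 1 ≤ H ^ M * 1 + 1 * (H + 1) := by omega
        _ ≤ H ^ M * 1 + H ^ M * (H + 1) := Nat.add_le_add_left (Nat.mul_le_mul_right _ h4) _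
        _ = H ^ M * (H + 1 + 1) := by ring
        _ ≤ H ^ M * H ^ 3 := Nat.mul_le_mul_left _ h5
        _ = _ := h3.symm
    calc t.natAbs = ((X : ℤ[X]).eval t).natAbs := by rw [eval_X]
      _ ≤ c * (t.natAbs + 1) ^ L := hcL t
      _ ≤ H * (H ^ (M + 3)) ^ L :=
          Nat.mul_le_mul (by omega) (Nat.pow_le_pow_left (h1.trans h2) _)
      _ = H ^ L1 := by rw [hL1, ← pow_mul, pow_succ, mul_comm]
  obtain ⟨X0, B, hB⟩ := NX.nt (f := (X : ℤ[X])) (G := NXk f m (kp a b))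
    (R := fun t => ((S t).ncard : ℝ) ^ m)
    (Q := fun x H => x.natAbs ≤ H ^ M ∧ y1 ≤ H) (A := 4 ^ m) (C := C * (4 ^ (2 * z + 3)) ^ m)
    (D := (4 ^ L1) ^ m) (C' := C') (g := 1) (K := K) (y0 := y1)
    hz (NXk_nonneg f m _) (fun t => by positivity) (by positivity) (by positivity)
    (one_le_pow₀ (one_le_pow₀ (by norm_num)))
    (fun y s e hse => subNX m hz2 hκ0 hκz hse) hC' (by
      intro x H y Y k hQ hy0 hzy hyK hXk s v w hs hv hw hsvu
      obtain ⟨hx, hX⟩ := hQ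
      have hy00 : y0 ≤ y := by omega
      set S' := (NX.II (X : ℤ[X]) x H).filter (fun t : ℤ => t1 (X : ℤ[X]) z y t = s ∧
        t2 (X : ℤ[X]) z y t = v ∧ (w : ℤ) ∣ (X : ℤ[X]).eval t) with hS'
      -- the twisted signs
      set Φ : Finset ℕ → Finset ℕ := fun E => s.primeFactors.filter
        (fun p => ¬ (p ∈ E ↔ p ∈ nu u s)) with hΦ
      have hΦ' : ∀ E ⊆ s.primeFactors, ∀ p ∈ (spl (Sp f) s).primeFactors,
          (p ∈ Φ E ↔ ¬ (p ∈ E ↔ p ∈ nu u s)) := by
        intro E hE p hp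
        have hps : p ∈ s.primeFactors := by
          rw [spl_pf] at hp
          exact (mem_filter.1 hp).1
        rw [hΦ, mem_filter]
        exact ⟨fun h => h.2, fun h => ⟨hps, h⟩⟩
      set G : Finset ℕ → ℝ := fun E => (NL (spl (Sp f) s) (Run7.h69.LE (kp a b) (Φ E)) : ℝ) ^ m
        with hG
      have hG0 : ∀ E, 0 ≤ G E := fun E => by simp only [hG]; positivity
      have h1 : ∀ t ∈ S', ((S t).ncard : ℝ) ^ m ≤
          (4 ^ (2 * z + 3)) ^ m * ((4 ^ L1) ^ m) ^ k * (4 ^ m) ^ v.primeFactors.card *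
            G (ng (X : ℤ[X]) t s) := by
        intro t ht
        rw [hS', mem_filter] at ht
        obtain ⟨ht1, hts, htv, _⟩ := ht
        unfold NX.II at ht1
        rw [mem_filter, eval_X] at ht1
        have hN : t.natAbs < (y + 1) ^ (k * L1) := by
          calc t.natAbs ≤ H ^ L1 := hval x H hx hX t ht1.1
            _ < ((y + 1) ^ k) ^ L1 := Nat.pow_lt_pow_left hXk (by omega)
            _ = _ := by rw [← pow_mul]
        have hr := (rankT hz2 hu ha hb hab haz hbz habz (t := t) (y := y) (N := k * L1) (by omega)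
          ht1.2 hN (hS t ht1.2)).2
        rw [hts, htv] at hr
        have hng : NL (spl (Sp f) s) (Run7.h69.LE (kp a b) (ngu u t s)) =
            NL (spl (Sp f) s) (Run7.h69.LE (kp a b) (Φ (ng (X : ℤ[X]) t s))) := by
          apply ngu_congr
          intro p hp
          have hs0 : s ≠ 0 := Nat.one_le_iff_ne_zero.1 (NX.dpos hs)
          have hpm : p ∣ spl (Sp f) s := Nat.dvd_of_mem_primeFactors hp
          have hpp := Nat.prime_of_mem_primeFactors hp
          obtain ⟨hps, hsp⟩ := (mem_spl hpp hs0).1 hpm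
          have hps' : p ∣ t1 (X : ℤ[X]) z y t := by rw [hts]; exact hps
          obtain ⟨g1, g2, g3⟩ := t1_pf (f := (X : ℤ[X])) hpp hps'
          rw [eval_X] at g2 g3
          rw [hΦ' (ng (X : ℤ[X]) t s) (filter_subset _ _) p hp,
            ngu_eq p (Nat.mem_primeFactors.2 ⟨hpp, hps, hs0⟩) g2 g3 (hu p hpp g1 hsp)]
        rw [hng] at hr
        have hr' : ((S t).ncard : ℝ) ≤
            4 ^ (2 * z + 3) * 4 ^ (k * L1) * 4 ^ (v.primeFactors.card) *
              (NL (spl (Sp f) s) (Run7.h69.LE (kp a b) (Φ (ng (X : ℤ[X]) t s))) : ℝ) := by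
          exact_mod_cast hr
        refine (pow_le_pow_left₀ (by positivity) hr' m).trans (le_of_eq ?_)
        simp only [hG]
        rw [mul_pow, mul_pow, mul_pow]
        congr 2
        · congr 1
          rw [← pow_mul, ← pow_mul, ← pow_mul]
          congr 1
          ring
        · rw [← pow_mul, ← pow_mul, mul_comm]
      have hneg : ∀ t ∈ S', ng (X : ℤ[X]) t s ∈ s.primeFactors.powerset := by
        intro t _
        rw [mem_powerset]
        exact filter_subset _ _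
      have h2 : ∑ t ∈ S', G (ng (X : ℤ[X]) t s) =
          ∑ E ∈ s.primeFactors.powerset,
            ((S'.filter (fun t : ℤ => ng (X : ℤ[X]) t s = E)).card : ℝ) * G E := by
        rw [← sum_fiberwise_of_maps_to hneg]
        refine sum_congr rfl fun E _ => ?_
        rw [← nsmul_eq_mul, ← sum_const]
        refine sum_congr rfl fun t ht => ?_
        rw [(mem_filter.1 ht).2]
      set Q : ℝ := C * H * (1 / 2) ^ s.primeFactors.card * gm (br (X : ℤ[X])) s *
        (gm (br (X : ℤ[X])) v / v) * gm (ru (X : ℤ[X])) w / (Real.log y) ^ 1 with hQ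
      have h3 : ∀ E ∈ s.primeFactors.powerset,
          ((S'.filter (fun t : ℤ => ng (X : ℤ[X]) t s = E)).card : ℝ) * G E ≤ Q * G E := by
        intro E _
        refine mul_le_mul_of_nonneg_right ?_ (hG0 E)
        refine le_trans ?_ (hcn x H y Y hy00 hzy hyK s v w hs hv hw hsvu E)
        have h4 : S'.filter (fun t : ℤ => ng (X : ℤ[X]) t s = E) ⊆
            (Ioc x (x + H)).filter (fun t : ℤ => t1 (X : ℤ[X]) z y t = s ∧
              t2 (X : ℤ[X]) z y t = v ∧
              (w : ℤ) ∣ (X : ℤ[X]).eval t ∧ ng (X : ℤ[X]) t s = E) := by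
          intro t ht
          rw [mem_filter, hS', mem_filter] at ht
          unfold NX.II at ht
          rw [mem_filter] at ht
          rw [mem_filter]
          exact ⟨ht.1.1.1, ht.1.2.1, ht.1.2.2.1, ht.1.2.2.2, ht.2⟩
        exact_mod_cast card_le_card h4
      have hgs := NXk_sum f m (kp a b) u s Φ hΦ'
      have hbr : ∀ d : ℕ, d ∣ PP z y → 0 ≤ gm (br (X : ℤ[X])) d := fun d hd =>
        prod_nonneg fun p hp => wX_nonneg (pf_lt hd hp).1
      have hru : 0 ≤ gm (ru (X : ℤ[X])) w := prod_nonneg fun p hp => by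
        unfold ru
        positivity
      have hbs := hbr s hs
      have hbv := hbr v hv
      have hlog : 0 ≤ Real.log y := Real.log_natCast_nonneg y
      have hE : 0 ≤ C * (4 ^ (2 * z + 3)) ^ m * ((4 ^ L1) ^ m) ^ k * (H : ℝ) *
          ((4 ^ m) ^ v.primeFactors.card * (gm (br (X : ℤ[X])) v / v)) *
          gm (ru (X : ℤ[X])) w / (Real.log y) ^ 1 * gm (br (X : ℤ[X])) s := by
        positivity
      calc ∑ t ∈ S', ((S t).ncard : ℝ) ^ m
          ≤ ∑ t ∈ S', (4 ^ (2 * z + 3)) ^ m * ((4 ^ L1) ^ m) ^ k * (4 ^ m) ^ v.primeFactors.card *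
            G (ng (X : ℤ[X]) t s) := sum_le_sum h1
        _ = (4 ^ (2 * z + 3)) ^ m * ((4 ^ L1) ^ m) ^ k * (4 ^ m) ^ v.primeFactors.card *
              ∑ E ∈ s.primeFactors.powerset,
                ((S'.filter (fun t : ℤ => ng (X : ℤ[X]) t s = E)).card : ℝ) * G E := by
            rw [← mul_sum, h2]
        _ ≤ (4 ^ (2 * z + 3)) ^ m * ((4 ^ L1) ^ m) ^ k * (4 ^ m) ^ v.primeFactors.card *
              ∑ E ∈ s.primeFactors.powerset, Q * G E :=
            mul_le_mul_of_nonneg_left (sum_le_sum h3) (by positivity)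
        _ = (C * (4 ^ (2 * z + 3)) ^ m * ((4 ^ L1) ^ m) ^ k * (H : ℝ) *
          ((4 ^ m) ^ v.primeFactors.card * (gm (br (X : ℤ[X])) v / v)) *
          gm (ru (X : ℤ[X])) w / (Real.log y) ^ 1 * gm (br (X : ℤ[X])) s) *
            ((1 / 2) ^ s.primeFactors.card * ∑ E ∈ s.primeFactors.powerset, G E) := by
            rw [← mul_sum, hQ]
            ring
        _ ≤ (C * (4 ^ (2 * z + 3)) ^ m * ((4 ^ L1) ^ m) ^ k * (H : ℝ) *
          ((4 ^ m) ^ v.primeFactors.card * (gm (br (X : ℤ[X])) v / v)) *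
          gm (ru (X : ℤ[X])) w / (Real.log y) ^ 1 * gm (br (X : ℤ[X])) s) *
            NXk f m (kp a b) s := mul_le_mul_of_nonneg_left hgs hE
        _ = _ := by
            have e2 : NX.bV (X : ℤ[X]) (4 ^ m) v = (4 ^ m) ^ v.primeFactors.card *
                (gm (br (X : ℤ[X])) v / v) := rfl
            rw [e2]
            ring)
  refine ⟨X0 + y1, B, fun x H hx hX => ?_⟩
  exact hB x H ⟨hx, by omega⟩ (by omega)

end Run7.h318.CH
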